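import Pool.Agent.V11201.SH.B
import Pool.Agent.H499R2.HL.C

/-! Natural numbers: equal hitting times, equal numbers of odd terms. -/

set_option autoImplicit false

namespace Pool.Agent.V11201.SH

open Finset Filter Topology
open Pool.Agent.H499R2.CO (HD HD_congr Tn_iter_cast Tn_cast Tz ncard_filter)
open Pool.Agent.H499R2.ND (Tn)
open Pool.Agent.H499R2.LT (odn)
open Pool.Agent.H499R2.HL (pow_le_of_hit odn_add)

/-- `1` is hit by the trajectory of `n` for the first time at the time `k` -/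
def Hit (k n : ℕ) : Prop := Tn^[k] n = 1 ∧ ∀ i < k, Tn^[i] n ≠ 1

/-- the two trajectories hit `1` at the same times, after the same numbers of odd terms -/
def Same (m n : ℕ) : Prop := ∀ k, (Hit k m ↔ Hit k n) ∧ (Hit k n → odn k m = odn k n)

theorem odn_one (n : ℕ) : odn 1 n = n % 2 := by
  unfold odn
  rw [show Finset.range 1 = {0} by rfl, Finset.filter_singleton]
  rcases Nat.mod_two_eq_zero_or_one n with h | h
  · simp [h]
  · simp [h]

theorem od_odn (t : ℕ) : ∀ n : ℕ, od 1 t (n : ℤ) = odn t n := by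
  induction t with
  | zero => intro n; simp [od, odn]
  | succ t ih =>
    intro n
    rw [Nat.add_comm t 1, odn_add, odn_one, Nat.add_comm 1 t]
    simp only [od]
    rw [Tn_cast, ih, Function.iterate_one]
    omega

theorem Same_of {t n m : ℕ} (hn : 2 ^ t ≤ n) (hm : 2 ^ t ≤ m) (h : Tn^[t] m = Tn^[t] n)
    (ho : odn t m = odn t n) : Same m n := by
  intro k
  have hlt : ∀ x : ℕ, 2 ^ t ≤ x → ∀ i, i < t → Tn^[i] x ≠ 1 := by
    intro x hx i hi h5
    have h6 := pow_le_of_hit h5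
    have h7 : 2 ^ i < 2 ^ t := Nat.pow_lt_pow_right (by norm_num) hi
    omega
  have hgen : ∀ x y : ℕ, 2 ^ t ≤ x → 2 ^ t ≤ y → Tn^[t] x = Tn^[t] y → odn t x = odn t y → Hit k x →
      Hit k y ∧ odn k x = odn k y := by
    intro x y hx hy hxy hoxy hk
    have htk : t ≤ k := by
      by_contra hc
      exact hlt x hx k (by omega) hk.1
    obtain ⟨j, rfl⟩ := Nat.exists_eq_add_of_le htk
    refine ⟨⟨?_, ?_⟩, ?_⟩
    · have h5 := hk.1
      rw [Nat.add_comm, Function.iterate_add_apply] at h5 ⊢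
      rw [← hxy]; exact h5
    · intro i hi
      rcases Nat.lt_or_ge i t with h5 | h5
      · exact hlt y hy i h5
      · obtain ⟨l, rfl⟩ := Nat.exists_eq_add_of_le h5
        have h6 := hk.2 (t + l) hi
        rw [Nat.add_comm, Function.iterate_add_apply] at h6 ⊢
        rw [← hxy]; exact h6
    · rw [odn_add, odn_add, hoxy, hxy]
  exact ⟨⟨fun h5 => (hgen m n hm hn h ho h5).1, fun h5 => (hgen n m hn hm h.symm ho.symm h5).1⟩,
    fun h5 => (hgen n m hn hm h.symm ho.symm h5).2.symm⟩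

theorem Same_Mg {N n j : ℕ} (hn : N < n * n) (h : Mg 1 N (n : ℤ) ((n : ℤ) + 1 * (j : ℤ))) :
    Same (n + j) n := by
  obtain ⟨t, ht, h1, h2⟩ := h
  have e : (n : ℤ) + 1 * (j : ℤ) = ((n + j : ℕ) : ℤ) := by push_cast; ring
  rw [e] at h1 h2
  rw [Tn_iter_cast, Tn_iter_cast] at h1
  rw [od_odn, od_odn] at h2
  have h3 : 2 ^ t ≤ n := by
    have h4 : (2 : ℕ) ^ t * 2 ^ t = 4 ^ t := by rw [← mul_pow]; norm_num
    by_contra hcon
    have h5 : n < 2 ^ t := by omega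
    have : n * n ≤ 2 ^ t * 2 ^ t := Nat.mul_le_mul h5.le h5.le
    omega
  exact Same_of h3 (by omega) (by exact_mod_cast h1.symm) h2.symm

/-- splitting off the small `n` -/
theorem split_small {P Q : ℕ → Prop} {N : ℕ} (h : ∀ n, N < n * n → Q n → P n) :
    ({n : ℕ | 1 ≤ n ∧ n ≤ N ∧ Q n}.ncard : ℝ) ≤ ({n : ℕ | 1 ≤ n ∧ n ≤ N ∧ P n}.ncard : ℝ) + Nat.sqrt N := by
  have hsub : {n : ℕ | 1 ≤ n ∧ n ≤ N ∧ Q n} ⊆
      {n : ℕ | 1 ≤ n ∧ n ≤ N ∧ P n} ∪ ((Finset.Icc 1 (Nat.sqrt N) : Finset ℕ) : Set ℕ) := by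
    rintro n ⟨h1, h2, h3⟩
    by_cases h5 : n * n ≤ N
    · right
      rw [Finset.coe_Icc]
      exact ⟨h1, Nat.le_sqrt.2 h5⟩
    · left
      exact ⟨h1, h2, h n (by omega) h3⟩
  have h1 := (Set.ncard_le_ncard hsub ((fin_le _ N).union (Finset.finite_toSet _))).trans
    (Set.ncard_union_le _ _)
  rw [Set.ncard_coe_finset, Nat.card_Icc, Nat.add_sub_cancel] at h1
  exact_mod_cast h1

theorem sqrt_small {N : ℕ} (hN : 16 ≤ N) : (Nat.sqrt N : ℝ) ≤ √ (lam N) * N := by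
  obtain ⟨h1, h2⟩ := logs hN
  have hNpos : (0 : ℝ) < N := by
    have : 0 < N := by omega
    exact_mod_cast this
  have h3 : Real.log N ≤ N := (Real.log_le_sub_one_of_pos hNpos).trans (by linarith)
  have h4 : 1 / (N : ℝ) ≤ lam N := by
    unfold lam
    rw [div_le_div_iff₀ hNpos (by linarith)]
    nlinarith
  have h5 : (Nat.sqrt N : ℝ) ≤ √ (N : ℝ) := Real.nat_sqrt_le_real_sqrt
  have h6 : √ (N : ℝ) = √ (1 / (N : ℝ)) * N := by
    rw [Real.sqrt_div zero_le_one, Real.sqrt_one, div_mul_eq_mul_div, one_mul]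
    exact (Real.div_sqrt).symm
  rw [h6] at h5
  exact h5.trans (mul_le_mul_of_nonneg_right (Real.sqrt_le_sqrt h4) hNpos.le)

theorem same_rate : ∃ C : ℝ, 0 < C ∧ Rate (fun n j => ¬ Same (n + j) n) C := by
  classical
  obtain ⟨C, hC, h⟩ := Mg_pairs
  refine ⟨C + 1, by positivity, fun N hN j hj => ?_⟩
  have h1 := h N hN 1 (by norm_num) (j : ℤ)
  rw [← ncard_filter] at h1
  have h2 := split_small (N := N) (Q := fun n => ¬ Same (n + j) n)
    (P := fun n => ¬ Mg 1 N ((n : ℕ) : ℤ) ((n : ℤ) + 1 * (j : ℤ))) (fun n hn hq hM => hq (Same_Mg hn hM))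
  have h3 := sqrt_small hN
  have hlog : 0 ≤ Real.log (1 + (j : ℝ)) := Real.log_nonneg (by
    have : (0 : ℝ) ≤ j := by positivity
    linarith)
  have hlam := lam_pos hN
  have h4 : √ (lam N) ≤ √ ((1 + Real.log (1 + (j : ℝ))) * lam N) := by
    apply Real.sqrt_le_sqrt
    nlinarith
  have h5 : √ (lam N) * (N : ℝ) ≤ √ ((1 + Real.log (1 + (j : ℝ))) * lam N) * N :=
    mul_le_mul_of_nonneg_right h4 (by positivity)
  have e : |(((j : ℤ) : ℤ) : ℝ)| = (j : ℝ) := by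
    rw [abs_of_nonneg (by positivity)]; norm_cast
  rw [e] at h1
  have h6 : (C + 1) * √ ((1 + Real.log (1 + (j : ℝ))) * lam N) * N =
      C * √ ((1 + Real.log (1 + (j : ℝ))) * lam N) * N + √ ((1 + Real.log (1 + (j : ℝ))) * lam N) * N := by ring
  rw [h6]
  unfold lam at *
  linarith

theorem same_window {ε : ℝ} (hε : 0 < ε) : ∃ θ : ℝ, 0 < θ ∧ ∃ N0 : ℕ, ∀ N ≥ N0, ∀ j : ℕ,
    (j : ℝ) ≤ (N : ℝ) ^ θ → ({n : ℕ | 1 ≤ n ∧ n ≤ N ∧ ¬ Same (n + j) n}.ncard : ℝ) ≤ ε * N := by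
  classical
  obtain ⟨θ, hθ, N0, h⟩ := Mg_window (ε := ε / 2) (by positivity)
  obtain ⟨N1, hN1⟩ := eventually_atTop.1 (lam_tendsto.eventually
    (gt_mem_nhds (show (0 : ℝ) < (ε / 2) ^ 2 by positivity)))
  refine ⟨θ, hθ, max (max N0 N1) 16, fun N hN j hj => ?_⟩
  have hN0 : N0 ≤ N := ((le_max_left _ _).trans (le_max_left _ _)).trans hN
  have hN1' : N1 ≤ N := ((le_max_right _ _).trans (le_max_left _ _)).trans hN
  have hN16 : 16 ≤ N := (le_max_right _ _).trans hN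
  have e : |(((j : ℤ) : ℤ) : ℝ)| = (j : ℝ) := by
    rw [abs_of_nonneg (by positivity)]; norm_cast
  have h1 := h N hN0 1 (by norm_num) (j : ℤ) (by rw [e]; exact hj)
  rw [← ncard_filter] at h1
  have h2 := split_small (N := N) (Q := fun n => ¬ Same (n + j) n)
    (P := fun n => ¬ Mg 1 N ((n : ℕ) : ℤ) ((n : ℤ) + 1 * (j : ℤ))) (fun n hn hq hM => hq (Same_Mg hn hM))
  have h3 := sqrt_small hN16
  have h4 : √ (lam N) ≤ ε / 2 := by
    rw [Real.sqrt_le_left (by positivity)]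
    exact (hN1 N hN1').le
  have h5 : √ (lam N) * (N : ℝ) ≤ ε / 2 * N := mul_le_mul_of_nonneg_right h4 (by positivity)
  linarith

end Pool.Agent.V11201.SH
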