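import Pool.Agent.V11201.SH.E
import Pool.Agent.W36.PDV

/-! The `3x+d` maps in short progressions. -/

set_option autoImplicit false

namespace Pool.Agent.V11201.SH

open Finset Filter Topology
open Pool.Agent.H499R2.CO (Tz ncard_filter HD)

theorem Tz_neg {d : ℤ} (hd : d % 2 = 1) (x : ℤ) : Tz d (-x) = - Tz (-d) x := by
  unfold Tz
  rcases Int.emod_two_eq_zero_or_one x with h | h
  · rw [if_pos (by omega), if_pos h]; omega
  · rw [if_neg (by omega), if_neg (by omega)]; omega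

theorem Tz_neg_iter {d : ℤ} (hd : d % 2 = 1) (t : ℕ) : ∀ x : ℤ, (Tz d)^[t] (-x) = - (Tz (-d))^[t] x := by
  induction t with
  | zero => intro x; rfl
  | succ t ih =>
    intro x
    rw [Function.iterate_succ_apply, Function.iterate_succ_apply, Tz_neg hd, ih]

theorem Tz_sign {s d : ℤ} (hs : s = 1 ∨ s = -1) (hd : d % 2 = 1) (t : ℕ) (x : ℤ) :
    (Tz d)^[t] (s * x) = s * (Tz (s * d))^[t] x := by
  rcases hs with rfl | rfl
  · simp only [one_mul]
  · rw [neg_one_mul, neg_one_mul, neg_one_mul]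
    exact Tz_neg_iter hd t x

/-- the trajectories are equal at one time `t` with `4 ^ t ≤ N` -/
def Merge (d : ℤ) (N : ℕ) (x y : ℤ) : Prop := ∃ t, 4 ^ t ≤ N ∧ (Tz d)^[t] x = (Tz d)^[t] y

theorem Merge_of {s d : ℤ} (hs : s = 1 ∨ s = -1) (hd : d % 2 = 1) {N : ℕ} {n j : ℤ}
    (h : Mg (s * d) N n (n + s * d * j)) : Merge d N (s * n) (s * n + d * j) := by
  obtain ⟨t, ht, h1, _⟩ := h
  refine ⟨t, ht, ?_⟩
  have hss : s * s = 1 := by rcases hs with rfl | rfl <;> norm_num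
  have e : s * n + d * j = s * (n + s * d * j) := by
    calc s * n + d * j = s * n + (s * s) * d * j := by rw [hss, one_mul]
      _ = s * (n + s * d * j) := by ring
  rw [e, Tz_sign hs hd, Tz_sign hs hd, h1]

theorem sd_odd {s d : ℤ} (hs : s = 1 ∨ s = -1) (hd : d % 2 = 1) : (s * d) % 2 = 1 := by
  rcases hs with rfl | rfl
  · rw [one_mul]; exact hd
  · rw [neg_one_mul]; omega

/-- the number of the `1 ≤ j ≤ H` for which `x + d j` does not merge with `x` -/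
noncomputable def apart (d : ℤ) (N : ℕ) (x : ℤ) (H : ℕ) : ℕ :=
  {j : ℕ | 1 ≤ j ∧ j ≤ H ∧ ¬ Merge d N x (x + d * j)}.ncard

theorem apart_rate : ∃ A : ℝ, 0 < A ∧ ∀ d : ℤ, d % 2 = 1 → ∀ s : ℤ, s = 1 ∨ s = -1 → ∀ N : ℕ, 16 ≤ N →
    ∀ (H : ℕ) (κ : ℝ), 0 < κ → ({n : ℕ | 1 ≤ n ∧ n ≤ N ∧ κ * H < apart d N (s * n) H}.ncard : ℝ) ≤
      A / κ * √ ((1 + Real.log (1 + H)) * lam N) * N := by
  classical
  obtain ⟨A, hA, h⟩ := Mg_pairs
  refine ⟨A, hA, fun d hd s hs N hN H κ hκ => ?_⟩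
  apply one_scale (R := fun n j => ¬ Merge d N (s * (n : ℤ)) (s * n + d * (j : ℤ))) (by positivity) hκ
  intro j hj1 hjH
  have h1 := h N hN (s * d) (sd_odd hs hd) (j : ℤ)
  rw [← ncard_filter] at h1
  have h2 : √ ((1 + Real.log (1 + (j : ℝ))) * lam N) ≤ √ ((1 + Real.log (1 + (H : ℝ))) * lam N) := by
    apply Real.sqrt_le_sqrt
    apply mul_le_mul_of_nonneg_right _ (lam_pos hN).le
    have : Real.log (1 + (j : ℝ)) ≤ Real.log (1 + (H : ℝ)) := Real.log_le_log (by positivity) (by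
      have : (j : ℝ) ≤ H := by exact_mod_cast hjH
      linarith)
    linarith
  have h3 : A / κ * √ ((1 + Real.log (1 + (H : ℝ))) * lam N) * κ = A * √ ((1 + Real.log (1 + (H : ℝ))) * lam N) := by
    field_simp
  rw [h3]
  have h4 : ({n : ℕ | 1 ≤ n ∧ n ≤ N ∧ ¬ Merge d N (s * (n : ℤ)) (s * n + d * (j : ℤ))}.ncard : ℝ) ≤
      ({n : ℕ | 1 ≤ n ∧ n ≤ N ∧ ¬ Mg (s * d) N ((n : ℕ) : ℤ) ((n : ℤ) + s * d * (j : ℤ))}.ncard : ℝ) := by
    exact_mod_cast Set.ncard_le_ncard (by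
      rintro n ⟨a1, a2, a3⟩
      exact ⟨a1, a2, fun h5 => a3 (Merge_of hs hd h5)⟩) (fin_le _ N)
  have e : |(((j : ℤ) : ℤ) : ℝ)| = (j : ℝ) := by
    rw [abs_of_nonneg (by positivity)]; norm_cast
  rw [e] at h1
  refine (h4.trans h1).trans ?_
  apply mul_le_mul_of_nonneg_right _ (by positivity)
  exact mul_le_mul_of_nonneg_left h2 hA.le

theorem apart_window {ε : ℝ} (hε : 0 < ε) : ∃ θ : ℝ, 0 < θ ∧ ∃ N0 : ℕ, ∀ N ≥ N0, ∀ d : ℤ, d % 2 = 1 →
    ∀ s : ℤ, s = 1 ∨ s = -1 → ∀ H : ℕ, (H : ℝ) ≤ (N : ℝ) ^ θ →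
      ({n : ℕ | 1 ≤ n ∧ n ≤ N ∧ ε * H < apart d N (s * n) H}.ncard : ℝ) ≤ ε * N := by
  classical
  obtain ⟨θ, hθ, N0, h⟩ := Mg_window (ε := ε * ε) (by positivity)
  refine ⟨θ, hθ, N0, fun N hN d hd s hs H hH => ?_⟩
  apply one_scale (R := fun n j => ¬ Merge d N (s * (n : ℤ)) (s * n + d * (j : ℤ))) hε.le hε
  intro j hj1 hjH
  have e : |(((j : ℤ) : ℤ) : ℝ)| = (j : ℝ) := by
    rw [abs_of_nonneg (by positivity)]; norm_cast
  have hjr : (j : ℝ) ≤ H := by exact_mod_cast hjH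
  have h1 := h N hN (s * d) (sd_odd hs hd) (j : ℤ) (by rw [e]; exact hjr.trans hH)
  rw [← ncard_filter] at h1
  refine le_trans ?_ h1
  exact_mod_cast Set.ncard_le_ncard (by
    rintro n ⟨a1, a2, a3⟩
    exact ⟨a1, a2, fun h5 => a3 (Merge_of hs hd h5)⟩) (fin_le _ N)

theorem abs_step {d : ℤ} (hd : d % 2 = 1) (x : ℤ) : |x| + |d| ≤ 2 * (|Tz d x| + |d|) := by
  unfold Tz
  rcases Int.emod_two_eq_zero_or_one x with h | h
  · rw [if_pos h]
    have e : x = 2 * (x / 2) := by omega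
    have h1 : |x| = 2 * |x / 2| := by
      conv_lhs => rw [e]
      rw [abs_mul]; norm_num
    have := abs_nonneg d
    omega
  · rw [if_neg (by omega)]
    have e : 3 * x = 2 * ((3 * x + d) / 2) - d := by omega
    have h1 : 3 * |x| ≤ 2 * |(3 * x + d) / 2| + |d| := by
      have h2 : 3 * |x| = |3 * x| := by rw [abs_mul]; norm_num
      rw [h2]
      conv_lhs => rw [e]
      calc |2 * ((3 * x + d) / 2) - d| ≤ |2 * ((3 * x + d) / 2)| + |d| := abs_sub _ _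
        _ = 2 * |(3 * x + d) / 2| + |d| := by rw [abs_mul]; norm_num
    have h3 := abs_nonneg x
    omega

theorem abs_iter {d : ℤ} (hd : d % 2 = 1) (i : ℕ) : ∀ x : ℤ, |x| + |d| ≤ 2 ^ i * (|(Tz d)^[i] x| + |d|) := by
  induction i with
  | zero => intro x; simp
  | succ i ih =>
    intro x
    have h1 := abs_step hd x
    have h2 := ih (Tz d x)
    rw [Function.iterate_succ_apply, pow_succ]
    calc |x| + |d| ≤ 2 * (|Tz d x| + |d|) := h1
      _ ≤ 2 * (2 ^ i * (|(Tz d)^[i] (Tz d x)| + |d|)) := by linarith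
      _ = 2 ^ i * 2 * (|(Tz d)^[i] (Tz d x)| + |d|) := by ring

/-- the element `a` comes after the merging -/
theorem hit_after {d : ℤ} (hd : d % 2 = 1) {N : ℕ} {x y a : ℤ}
    (hx : (N : ℤ) * (|a| + |d|) ^ 2 < x ^ 2) (ha : ∃ i, (Tz d)^[i] x = a) (h : Merge d N x y) :
    ∃ i, (Tz d)^[i] y = a := by
  obtain ⟨t, ht, h1⟩ := h
  obtain ⟨i, hi⟩ := ha
  rcases Nat.lt_or_ge i t with h2 | h2
  · exfalso
    have h3 := abs_iter hd i x
    rw [hi] at h3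
    have h4 : (2 : ℤ) ^ i ≤ 2 ^ t := pow_le_pow_right₀ (by norm_num) h2.le
    have h5 : |x| ≤ 2 ^ t * (|a| + |d|) := by
      have h6 : (2 : ℤ) ^ i * (|a| + |d|) ≤ 2 ^ t * (|a| + |d|) :=
        mul_le_mul_of_nonneg_right h4 (by positivity)
      have := abs_nonneg d
      linarith
    have h7 : |x| ^ 2 ≤ (2 ^ t * (|a| + |d|)) ^ 2 := pow_le_pow_left₀ (abs_nonneg x) h5 2
    rw [sq_abs, mul_pow, ← pow_mul, mul_comm t 2, pow_mul] at h7
    have h8 : ((2 : ℤ) ^ 2) ^ t ≤ N := by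
      have : (4 : ℤ) ^ t ≤ N := by exact_mod_cast ht
      norm_num
      exact this
    have h9 : ((2 : ℤ) ^ 2) ^ t * (|a| + |d|) ^ 2 ≤ N * (|a| + |d|) ^ 2 :=
      mul_le_mul_of_nonneg_right h8 (by positivity)
    linarith
  · obtain ⟨k, rfl⟩ := Nat.exists_eq_add_of_le h2
    refine ⟨t + k, ?_⟩
    rw [Nat.add_comm, Function.iterate_add_apply] at hi ⊢
    rw [← h1]; exact hi

/-- predecessor sets are dense on their side -/
theorem pred_count : ∃ c : ℝ, 0 < c ∧ ∀ d a : ℤ, d % 2 = 1 → ¬ (3 : ℤ) ∣ d → ¬ (3 : ℤ) ∣ a →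
    ∀ s : ℤ, s = 1 ∨ s = -1 → 0 < s * a → ∀ (M : ℝ) (N : ℕ), |(a : ℝ)| ≤ M → |(d : ℝ)| ≤ M → M ≤ N →
      c / M * N ≤ ({n : ℕ | 1 ≤ n ∧ n ≤ N ∧ ∃ i, (Tz d)^[i] (s * n) = a}.ncard : ℝ) := by
  obtain ⟨c, C, hc, _, h⟩ := Pool.Agent.W36.PDU.mainKall
  refine ⟨c, hc, fun d a hd hd3 ha s hs hsa M N haM hdM hMN => ?_⟩
  obtain ⟨S, hS, hcard⟩ := h d a hd hd3 ha N (haM.trans hMN) (hdM.trans hMN)
  have ha0 : a ≠ 0 := by rintro rfl; exact ha (dvd_zero _)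
  have haR : (0 : ℝ) < |(a : ℝ)| := by
    rw [abs_pos]; exact_mod_cast ha0
  have hmax : max |(a : ℝ)| |(d : ℝ)| ≤ M := max_le haM hdM
  have hmaxpos : 0 < max |(a : ℝ)| |(d : ℝ)| := lt_of_lt_of_le haR (le_max_left _ _)
  have hMpos : 0 < M := lt_of_lt_of_le hmaxpos hmax
  have h1 : c / M * N ≤ c * N / max |(a : ℝ)| |(d : ℝ)| := by
    rw [div_mul_eq_mul_div]
    exact div_le_div_of_nonneg_left (by positivity) hmaxpos hmax
  refine h1.trans (hcard.trans ?_)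
  have hsign : ∀ z ∈ S, z = s * (z.natAbs : ℤ) ∧ 1 ≤ z.natAbs ∧ z.natAbs ≤ N := by
    intro z hz
    obtain ⟨h2, h3, h4, _⟩ := hS z hz
    have hz0 : z ≠ 0 := by rintro rfl; simp at h4
    have h5 : 1 ≤ z.natAbs := by omega
    have h6 : z.natAbs ≤ N := by
      have h7 : ((z.natAbs : ℕ) : ℝ) ≤ N := by
        have : ((z.natAbs : ℕ) : ℝ) = |(z : ℝ)| := Nat.cast_natAbs z |>.trans (Int.cast_abs)
        rw [this]; exact h3
      exact_mod_cast h7
    refine ⟨?_, h5, h6⟩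
    have h10 : 0 < s * z := by
      rcases hs with rfl | rfl
      · rw [one_mul] at hsa ⊢
        by_contra hcon
        nlinarith
      · rw [neg_one_mul] at hsa ⊢
        by_contra hcon
        have h11 : 0 < z := by omega
        have h12 : a < 0 := by omega
        nlinarith
    rcases hs with rfl | rfl
    · omega
    · omega
  have hinj : Set.InjOn Int.natAbs (S : Set ℤ) := by
    intro x hx y hy hxy
    have h2 := (hsign x hx).1
    have h3 := (hsign y hy).1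
    rw [h2, h3, hxy]
  have h2 : (S.card : ℝ) = (S.image Int.natAbs).card := by
    rw [Finset.card_image_of_injOn hinj]
  rw [h2, ← Set.ncard_coe_finset]
  have hsub : ((S.image Int.natAbs : Finset ℕ) : Set ℕ) ⊆
      {n : ℕ | 1 ≤ n ∧ n ≤ N ∧ ∃ i, (Tz d)^[i] (s * n) = a} := by
    intro n hn
    rw [Finset.coe_image] at hn
    obtain ⟨z, hz, rfl⟩ := hn
    obtain ⟨h3, h4, h5⟩ := hsign z hz
    obtain ⟨_, _, _, j, _, hj⟩ := hS z hz
    refine ⟨h4, h5, j, ?_⟩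
    rw [← h3]
    exact hj
  exact_mod_cast Set.ncard_le_ncard hsub (fin_le _ N)

end Pool.Agent.V11201.SH
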