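import Pool.Agent.V11201.SH.M2
import Pool.Agent.V11201.SH.C
import Pool.Agent.V11201.SH.G

/-! The maximal theorem for hitting times and for the `3x+d` maps. -/

set_option autoImplicit false

namespace Pool.Agent.V11201.SH

open Finset Filter Topology
open Pool.Agent.H499R2.CO (HD ncard_filter Tz)

theorem Same_refl (n : ℕ) : Same n n := fun _ => ⟨Iff.rfl, fun _ => rfl⟩

theorem Same_symm {m n : ℕ} (h : Same m n) : Same n m := fun k =>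
  ⟨(h k).1.symm, fun hk => ((h k).2 ((h k).1.1 hk)).symm⟩

theorem Same_trans {a b c : ℕ} (h1 : Same a b) (h2 : Same b c) : Same a c := fun k =>
  ⟨(h1 k).1.trans (h2 k).1, fun hk => ((h1 k).2 ((h2 k).1.2 hk)).trans ((h2 k).2 hk)⟩

/-- `Same` on the integers -/
def rS (x y : ℤ) : Prop := Same x.toNat y.toNat

theorem rS_eq : Equivalence rS := ⟨fun _ => Same_refl _, fun h => Same_symm h, fun h h' => Same_trans h h'⟩

/-- the number of the `1 ≤ j ≤ H` for which `n + q j` is not like `n` -/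
noncomputable def sb (q n H : ℕ) : ℕ := {j : ℕ | 1 ≤ j ∧ j ≤ H ∧ ¬ Same (n + q * j) n}.ncard

theorem rS_iff (q n j : ℕ) : rS (n : ℤ) ((n : ℤ) + (q : ℤ) * (j : ℤ)) ↔ Same (n + q * j) n := by
  unfold rS
  have e : ((n : ℤ) + (q : ℤ) * (j : ℤ)).toNat = n + q * j := by
    have : (n : ℤ) + (q : ℤ) * (j : ℤ) = ((n + q * j : ℕ) : ℤ) := by push_cast; ring
    rw [this, Int.toNat_natCast]
  rw [e, Int.toNat_natCast]
  exact ⟨Same_symm, Same_symm⟩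

theorem bz_sb (q n H : ℕ) : bz rS q n H = sb q n H := by
  unfold bz sb
  congr 1
  ext j
  constructor
  · rintro ⟨h1, h2, h3⟩; exact ⟨h1, h2, fun h4 => h3 ((rS_iff q n j).2 h4)⟩
  · rintro ⟨h1, h2, h3⟩; exact ⟨h1, h2, fun h4 => h3 ((rS_iff q n j).1 h4)⟩

theorem same_window_q (q : ℕ) (ε : ℝ) (hε : 0 < ε) : ∃ θ : ℝ, 0 < θ ∧ ∃ N0 : ℕ, ∀ N ≥ N0, ∀ j : ℕ,
    (j : ℝ) ≤ (N : ℝ) ^ θ →
      ({n : ℕ | 1 ≤ n ∧ n ≤ N ∧ ¬ rS (n : ℤ) ((n : ℤ) + (q : ℤ) * (j : ℤ))}.ncard : ℝ) ≤ ε * N := by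
  obtain ⟨θ, hθ, N0, h⟩ := same_window hε
  have ht : Tendsto (fun N : ℕ => (N : ℝ) ^ (θ / 2)) atTop atTop :=
    (tendsto_rpow_atTop (by positivity)).comp tendsto_natCast_atTop_atTop
  obtain ⟨N1, hN1⟩ := eventually_atTop.1 (ht.eventually_ge_atTop (q : ℝ))
  refine ⟨θ / 2, by positivity, max N0 N1, fun N hN j hj => ?_⟩
  have h2 := hN1 N ((le_max_right _ _).trans hN)
  have h3 := h N ((le_max_left _ _).trans hN) (q * j) (by
    push_cast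
    calc (q : ℝ) * (j : ℝ) ≤ (N : ℝ) ^ (θ / 2) * (N : ℝ) ^ (θ / 2) :=
          mul_le_mul h2 hj (by positivity) (by positivity)
      _ = (N : ℝ) ^ θ := by
          rw [← sq, ← Real.rpow_natCast, ← Real.rpow_mul (by positivity)]
          congr 1
          push_cast; ring)
  simp only [rS_iff]
  exact h3

theorem same_max (q : ℕ) {ε : ℝ} (hε : 0 < ε) : ∃ θ : ℝ, 0 < θ ∧ ∃ N0 : ℕ, ∀ N ≥ N0,
    ({n : ℕ | 1 ≤ n ∧ n ≤ N ∧ ∃ H : ℕ, 1 ≤ H ∧ (H : ℝ) ≤ (N : ℝ) ^ θ ∧ ε * H < sb q n H}.ncard : ℝ) ≤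
      ε * N := by
  have h := max_window rS_eq (q : ℤ) (same_window_q q) hε
  simp only [bz_sb] at h
  exact h

theorem same_dens (q : ℕ) {g : ℕ → ℕ} (hg : Sub g) {ε : ℝ} (hε : 0 < ε) :
    HD (fun n => ∀ H : ℕ, 1 ≤ H → H ≤ g n → (sb q n H : ℝ) ≤ ε * H) 1 := by
  have h := max_density rS_eq (q : ℤ) (same_window_q q) hg hε
  simp only [bz_sb] at h
  exact h

/-- the orbits of `s x` and `s y` meet at one and the same time -/
def rT (d s : ℤ) (x y : ℤ) : Prop := ∃ t : ℕ, (Tz d)^[t] (s * x) = (Tz d)^[t] (s * y)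

theorem rT_eq (d s : ℤ) : Equivalence (rT d s) := by
  refine ⟨fun x => ⟨0, rfl⟩, fun ⟨t, h⟩ => ⟨t, h.symm⟩, ?_⟩
  rintro x y z ⟨t, h⟩ ⟨t', h'⟩
  refine ⟨t + t', ?_⟩
  rw [Nat.add_comm, Function.iterate_add_apply, h, ← Function.iterate_add_apply, Nat.add_comm,
    Function.iterate_add_apply, h', ← Function.iterate_add_apply, Nat.add_comm]

/-- the number of the `1 ≤ j ≤ H` for which the orbit of `x + d j` does not meet the one of `x` -/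
noncomputable def nomeet (d x : ℤ) (H : ℕ) : ℕ :=
  {j : ℕ | 1 ≤ j ∧ j ≤ H ∧ ¬ ∃ t : ℕ, (Tz d)^[t] x = (Tz d)^[t] (x + d * j)}.ncard

theorem bz_nomeet {d s : ℤ} (hs : s = 1 ∨ s = -1) (n : ℤ) (H : ℕ) :
    bz (rT d s) (s * d) n H = nomeet d (s * n) H := by
  unfold bz nomeet rT
  have e : ∀ j : ℕ, s * (n + s * d * (j : ℤ)) = s * n + d * j := by
    intro j
    have hss : s * s = 1 := by rcases hs with rfl | rfl <;> norm_num
    calc s * (n + s * d * (j : ℤ)) = s * n + (s * s) * d * j := by ring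
      _ = s * n + d * j := by rw [hss, one_mul]
  simp only [e]

theorem meet_window {d s : ℤ} (hd : d % 2 = 1) (hs : s = 1 ∨ s = -1) (ε : ℝ) (hε : 0 < ε) :
    ∃ θ : ℝ, 0 < θ ∧ ∃ N0 : ℕ, ∀ N ≥ N0, ∀ j : ℕ, (j : ℝ) ≤ (N : ℝ) ^ θ →
      ({n : ℕ | 1 ≤ n ∧ n ≤ N ∧ ¬ rT d s (n : ℤ) ((n : ℤ) + s * d * (j : ℤ))}.ncard : ℝ) ≤ ε * N := by
  classical
  obtain ⟨θ, hθ, N0, h⟩ := Mg_window hε
  refine ⟨θ, hθ, N0, fun N hN j hj => ?_⟩
  have e : |(((j : ℤ) : ℤ) : ℝ)| = (j : ℝ) := by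
    rw [abs_of_nonneg (by positivity)]; norm_cast
  have h1 := h N hN (s * d) (sd_odd hs hd) (j : ℤ) (by rw [e]; exact hj)
  rw [← ncard_filter] at h1
  refine le_trans ?_ h1
  exact_mod_cast Set.ncard_le_ncard (by
    rintro n ⟨a1, a2, a3⟩
    refine ⟨a1, a2, fun h5 => a3 ?_⟩
    obtain ⟨t, _, ht, _⟩ := h5
    refine ⟨t, ?_⟩
    rw [Tz_sign hs hd, Tz_sign hs hd, ht]) (fin_le _ N)

theorem meet_max {d s : ℤ} (hd : d % 2 = 1) (hs : s = 1 ∨ s = -1) {ε : ℝ} (hε : 0 < ε) :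
    ∃ θ : ℝ, 0 < θ ∧ ∃ N0 : ℕ, ∀ N ≥ N0,
    ({n : ℕ | 1 ≤ n ∧ n ≤ N ∧ ∃ H : ℕ, 1 ≤ H ∧ (H : ℝ) ≤ (N : ℝ) ^ θ ∧ ε * H < nomeet d (s * n) H}.ncard : ℝ) ≤
      ε * N := by
  have h := max_window (rT_eq d s) (s * d) (meet_window hd hs) hε
  simp only [bz_nomeet hs] at h
  exact h

theorem meet_dens {d s : ℤ} (hd : d % 2 = 1) (hs : s = 1 ∨ s = -1) {g : ℕ → ℕ} (hg : Sub g) {ε : ℝ} (hε : 0 < ε) :
    HD (fun n => ∀ H : ℕ, 1 ≤ H → H ≤ g n → (nomeet d (s * n) H : ℝ) ≤ ε * H) 1 := by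
  have h := max_density (rT_eq d s) (s * d) (meet_window hd hs) hg hε
  simp only [bz_nomeet hs] at h
  exact h

end Pool.Agent.V11201.SH
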