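import Pool.Agent.V11201.SH.M4
import Pool.Agent.V11201.SH.M3

/-! Early merging of `s n` and `s n + 2 j`. -/

set_option autoImplicit false

namespace Pool.Agent.V11201.SH

open Finset Filter Topology
open Pool.Agent.H499R2.CO (HD ncard_filter Tz)

/-- the trajectories merge within `log_4 N` steps -/
def rE (s : ℤ) (N : ℕ) (x y : ℤ) : Prop := ∃ t : ℕ, 4 ^ t ≤ max N 1 ∧ (Tz 1)^[t] (s * x) = (Tz 1)^[t] (s * y)

theorem iter_max {x y : ℤ} {t t' : ℕ} (h : (Tz 1)^[t] x = (Tz 1)^[t] y) (htt : t ≤ t') :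
    (Tz 1)^[t'] x = (Tz 1)^[t'] y := by
  obtain ⟨i, rfl⟩ := Nat.exists_eq_add_of_le htt
  rw [Nat.add_comm, Function.iterate_add_apply, Function.iterate_add_apply, h]

theorem rE_eq (s : ℤ) (N : ℕ) : Equivalence (rE s N) := by
  refine ⟨fun x => ⟨0, by simp, rfl⟩, fun ⟨t, h1, h2⟩ => ⟨t, h1, h2.symm⟩, ?_⟩
  rintro x y z ⟨t, h1, h2⟩ ⟨t', h1', h2'⟩
  rcases le_total t t' with h | h
  · exact ⟨t', h1', (iter_max h2 h).trans h2'⟩
  · exact ⟨t, h1, h2.trans (iter_max h2' h)⟩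

theorem rE_iff {s : ℤ} (hs : s = 1 ∨ s = -1) (N : ℕ) (n j : ℤ) : rE s N n (n + s * 2 * j) ↔
    ∃ t : ℕ, 4 ^ t ≤ max N 1 ∧ (Tz 1)^[t] (s * n) = (Tz 1)^[t] (s * n + 2 * j) := by
  unfold rE
  have e : s * (n + s * 2 * j) = s * n + 2 * j := by
    have hss : s * s = 1 := by rcases hs with rfl | rfl <;> norm_num
    calc s * (n + s * 2 * j) = s * n + (s * s) * 2 * j := by ring
      _ = s * n + 2 * j := by rw [hss, one_mul]
  rw [e]

/-- the number of the `1 ≤ j ≤ H` for which `x` and `x + 2 j` do not merge early -/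
noncomputable def late (N : ℕ) (x : ℤ) (H : ℕ) : ℕ :=
  {j : ℕ | 1 ≤ j ∧ j ≤ H ∧ ¬ ∃ t : ℕ, 4 ^ t ≤ max N 1 ∧ (Tz 1)^[t] x = (Tz 1)^[t] (x + 2 * j)}.ncard

theorem bz_late {s : ℤ} (hs : s = 1 ∨ s = -1) (N : ℕ) (n : ℤ) (H : ℕ) :
    bz (rE s N) (s * 2) n H = late N (s * n) H := by
  unfold bz late
  simp only [rE_iff hs]

theorem rE_of_Mg {s : ℤ} (hs : s = 1 ∨ s = -1) {N n j : ℕ}
    (h : Mg (s * 1) N (n : ℤ) ((n : ℤ) + s * 1 * ((2 * j : ℕ) : ℤ))) :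
    rE s N (n : ℤ) ((n : ℤ) + s * 2 * (j : ℤ)) := by
  rw [rE_iff hs]
  obtain ⟨t, ht, h1⟩ := Merge_of hs (d := 1) (by norm_num) h
  refine ⟨t, ht.trans (le_max_left _ _), ?_⟩
  rw [h1, one_mul]
  push_cast
  rfl

theorem late_window {s : ℤ} (hs : s = 1 ∨ s = -1) (ε : ℝ) (hε : 0 < ε) :
    ∃ θ : ℝ, 0 < θ ∧ ∃ N0 : ℕ, ∀ N ≥ N0, ∀ j : ℕ, (j : ℝ) ≤ (N : ℝ) ^ θ →
      ({n : ℕ | 1 ≤ n ∧ n ≤ N ∧ ¬ rE s N (n : ℤ) ((n : ℤ) + s * 2 * (j : ℤ))}.ncard : ℝ) ≤ ε * N := by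
  classical
  obtain ⟨θ, hθ, N0, h⟩ := Mg_window hε
  have ht : Tendsto (fun N : ℕ => (N : ℝ) ^ (θ / 2)) atTop atTop :=
    (tendsto_rpow_atTop (by positivity)).comp tendsto_natCast_atTop_atTop
  obtain ⟨N1, hN1⟩ := eventually_atTop.1 (ht.eventually_ge_atTop 2)
  refine ⟨θ / 2, by positivity, max N0 N1, fun N hN j hj => ?_⟩
  have h2 := hN1 N ((le_max_right _ _).trans hN)
  have e : |(((2 * j : ℕ) : ℤ) : ℝ)| = ((2 * j : ℕ) : ℝ) := by
    rw [abs_of_nonneg (by positivity)]; norm_cast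
  have h3 := h N ((le_max_left _ _).trans hN) (s * 1) (sd_odd hs (by norm_num)) ((2 * j : ℕ) : ℤ) (by
    rw [e]
    push_cast
    calc (2 : ℝ) * (j : ℝ) ≤ (N : ℝ) ^ (θ / 2) * (N : ℝ) ^ (θ / 2) :=
          mul_le_mul h2 hj (by positivity) (by positivity)
      _ = (N : ℝ) ^ θ := by
          rw [← sq, ← Real.rpow_natCast, ← Real.rpow_mul (by positivity)]
          congr 1
          push_cast; ring)
  rw [← ncard_filter] at h3
  refine le_trans ?_ h3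
  exact_mod_cast Set.ncard_le_ncard (by
    rintro n ⟨a1, a2, a3⟩
    exact ⟨a1, a2, fun h5 => a3 (rE_of_Mg hs h5)⟩) (fin_le _ N)

/-- all scales, early merging -/
theorem late_max {s : ℤ} (hs : s = 1 ∨ s = -1) {ε : ℝ} (hε : 0 < ε) : ∃ θ : ℝ, 0 < θ ∧ ∃ N0 : ℕ, ∀ N ≥ N0,
    ({n : ℕ | 1 ≤ n ∧ n ≤ N ∧ ∃ H : ℕ, 1 ≤ H ∧ (H : ℝ) ≤ (N : ℝ) ^ θ ∧ ε * H < late N (s * n) H}.ncard : ℝ) ≤
      ε * N := by
  have h := max_window_fam (r := rE s) (rE_eq s) (s * 2) (late_window hs) hε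
  simp only [bz_late hs] at h
  exact h

/-- the rate, early merging -/
theorem late_rate {s : ℤ} (hs : s = 1 ∨ s = -1) : ∃ A : ℝ, 0 < A ∧ ∀ N : ℕ, 16 ≤ N → ∀ (H : ℕ) (κ : ℝ), 0 < κ →
    ({n : ℕ | 1 ≤ n ∧ n ≤ N ∧ κ * H < late N (s * n) H}.ncard : ℝ) ≤
      A / κ * √ ((1 + Real.log (1 + 2 * H)) * lam N) * N := by
  classical
  obtain ⟨C, hC, h⟩ := Mg_pairs
  refine ⟨C, hC, fun N hN H κ hκ => ?_⟩
  have hlam := lam_pos hN
  have hos := one_scale (R := fun n j => ¬ rE s N (n : ℤ) ((n : ℤ) + s * 2 * (j : ℤ))) (N := N) (H := H)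
    (ε := C / κ * √ ((1 + Real.log (1 + 2 * H)) * lam N)) (κ := κ) (by positivity) hκ (fun j hj1 hjH => by
      have h1 := h N hN (s * 1) (sd_odd hs (by norm_num)) ((2 * j : ℕ) : ℤ)
      rw [← ncard_filter] at h1
      have e : |(((2 * j : ℕ) : ℤ) : ℝ)| = 2 * (j : ℝ) := by
        rw [abs_of_nonneg (by positivity)]; push_cast; rfl
      rw [e] at h1
      have h2 : √ ((1 + Real.log (1 + 2 * (j : ℝ))) * lam N) ≤ √ ((1 + Real.log (1 + 2 * (H : ℝ))) * lam N) := by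
        apply Real.sqrt_le_sqrt
        apply mul_le_mul_of_nonneg_right _ hlam.le
        have : Real.log (1 + 2 * (j : ℝ)) ≤ Real.log (1 + 2 * (H : ℝ)) := Real.log_le_log (by positivity) (by
          have : (j : ℝ) ≤ H := by exact_mod_cast hjH
          linarith)
        linarith
      have e2 : C / κ * √ ((1 + Real.log (1 + 2 * (H : ℝ))) * lam N) * κ * N =
          C * √ ((1 + Real.log (1 + 2 * (H : ℝ))) * lam N) * N := by
        field_simp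
      rw [e2]
      have h3 : ({n : ℕ | 1 ≤ n ∧ n ≤ N ∧ ¬ rE s N (n : ℤ) ((n : ℤ) + s * 2 * (j : ℤ))}.ncard : ℝ) ≤
          ({n : ℕ | 1 ≤ n ∧ n ≤ N ∧ ¬ Mg (s * 1) N (n : ℤ) ((n : ℤ) + s * 1 * ((2 * j : ℕ) : ℤ))}.ncard : ℝ) := by
        exact_mod_cast Set.ncard_le_ncard (by
          rintro n ⟨a1, a2, a3⟩
          exact ⟨a1, a2, fun h5 => a3 (rE_of_Mg hs h5)⟩) (fin_le _ N)
      refine h3.trans (h1.trans ?_)
      apply mul_le_mul_of_nonneg_right _ (Nat.cast_nonneg _)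
      exact mul_le_mul_of_nonneg_left h2 hC.le)
  refine le_trans (le_of_eq ?_) hos
  have e : ∀ n : ℕ, late N (s * n) H = bd (fun n j => ¬ rE s N (n : ℤ) ((n : ℤ) + s * 2 * (j : ℤ))) n H := by
    intro n
    unfold late bd
    simp only [rE_iff hs]
  simp only [e]

/-- the number of the `1 ≤ j ≤ H` for which `x` and `x + 2 j` never merge -/
noncomputable def never2 (x : ℤ) (H : ℕ) : ℕ :=
  {j : ℕ | 1 ≤ j ∧ j ≤ H ∧ ¬ ∃ t : ℕ, (Tz 1)^[t] x = (Tz 1)^[t] (x + 2 * j)}.ncard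

/-- density one, all scales -/
theorem never_dens {s : ℤ} (hs : s = 1 ∨ s = -1) {g : ℕ → ℕ} (hg : Sub g) {ε : ℝ} (hε : 0 < ε) :
    HD (fun n => ∀ H : ℕ, 1 ≤ H → H ≤ g n → (never2 (s * n) H : ℝ) ≤ ε * H) 1 := by
  have h := max_density (rT_eq 1 s) (s * 2) (fun ε hε => by
    obtain ⟨θ, hθ, N0, h⟩ := late_window hs ε hε
    refine ⟨θ, hθ, N0, fun N hN j hj => le_trans ?_ (h N hN j hj)⟩
    exact_mod_cast Set.ncard_le_ncard (by
      rintro n ⟨a1, a2, a3⟩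
      refine ⟨a1, a2, fun h5 => a3 ?_⟩
      obtain ⟨t, _, ht⟩ := h5
      exact ⟨t, ht⟩) (fin_le _ N)) hg hε
  have e : ∀ (n : ℤ) (H : ℕ), bz (rT 1 s) (s * 2) n H = never2 (s * n) H := by
    intro n H
    unfold bz never2 rT
    have e : ∀ j : ℕ, s * (n + s * 2 * (j : ℤ)) = s * n + 2 * j := by
      intro j
      have hss : s * s = 1 := by rcases hs with rfl | rfl <;> norm_num
      calc s * (n + s * 2 * (j : ℤ)) = s * n + (s * s) * 2 * j := by ring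
        _ = s * n + 2 * j := by rw [hss, one_mul]
    simp only [e]
  simp only [e] at h
  exact h

end Pool.Agent.V11201.SH
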