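import Pool.Agent.V11201.SH.G3

/-! The rate for meeting orbits. -/

set_option autoImplicit false

namespace Pool.Agent.V11201.SH

open Finset Filter Topology
open Pool.Agent.H499R2.CO (Tz ncard_filter HD)

theorem meet_rate : ∃ A : ℝ, 0 < A ∧ ∀ d : ℤ, d % 2 = 1 → ∀ s : ℤ, s = 1 ∨ s = -1 →
    Rate (fun n j => ¬ ∃ t : ℕ, (Tz d)^[t] (s * (n : ℤ)) = (Tz d)^[t] (s * (n : ℤ) + d * (j : ℤ))) A := by
  classical
  obtain ⟨A, hA, h⟩ := Mg_pairs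
  refine ⟨A, hA, fun d hd s hs N hN j hj => ?_⟩
  have h1 := h N hN (s * d) (sd_odd hs hd) (j : ℤ)
  rw [← ncard_filter] at h1
  have e : |(((j : ℤ) : ℤ) : ℝ)| = (j : ℝ) := by
    rw [abs_of_nonneg (by positivity)]; norm_cast
  rw [e] at h1
  refine le_trans ?_ h1
  exact_mod_cast Set.ncard_le_ncard (by
    rintro n ⟨a1, a2, a3⟩
    refine ⟨a1, a2, fun h5 => a3 ?_⟩
    obtain ⟨t, _, ht⟩ := Merge_of hs hd h5
    exact ⟨t, ht⟩) (fin_le _ N)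

end Pool.Agent.V11201.SH
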