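import Pool.Agent.H499R2.CO.R3
import Pool.Agent.H499R2.CO.Q6

/-! Merging at one and the same time, with the same number of odd terms; rates; many scales. -/

set_option autoImplicit false

namespace Pool.Agent.V11201.SH

open Finset Filter Topology
open Pool.Agent.H499R2.CO

/-- the number of the odd terms among the first `t` terms -/
def od (d : ℤ) : ℕ → ℤ → ℕ
  | 0, _ => 0
  | t + 1, x => (x % 2).toNat + od d t (Tz d x)

/-- If the pair does not survive, the trajectories coalesce, with control of the odd terms. -/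
theorem coalJ {d : ℤ} (hd : d % 2 = 1) : ∀ (k i : ℕ) (r x : ℤ), ¬ surv d k (i, r) x →
    ∃ t ≤ k, (Tz d)^[t] x = (Tz d)^[t] (3 ^ i * x + d * r) ∧
      od d t x = od d t (3 ^ i * x + d * r) + i := by
  intro k
  induction k with
  | zero =>
    intro i r x h
    simp only [surv, ne_eq, not_not, Prod.mk.injEq] at h
    obtain ⟨rfl, rfl⟩ := h
    exact ⟨0, le_rfl, by simp, by simp [od]⟩
  | succ k ih =>
    intro i r x h
    by_cases h0 : (i, r) = ((0 : ℕ), (0 : ℤ))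
    · rw [Prod.mk.injEq] at h0
      obtain ⟨rfl, rfl⟩ := h0
      exact ⟨0, by omega, by simp, by simp [od]⟩
    · have h' : ¬ surv d k (step (i, r) (decide (x % 2 = 1))) (nx d (i, r) x) := by
        intro h2; exact h ⟨h0, h2⟩
      have m1 : x % 2 = 0 ∨ x % 2 = 1 := Int.emod_two_eq_zero_or_one x
      have m2 : (3 ^ i * x + d * r) % 2 = 0 ∨ (3 ^ i * x + d * r) % 2 = 1 :=
        Int.emod_two_eq_zero_or_one _
      rcases pair_step hd i r x with ⟨e1, e2, e3⟩ | ⟨e1, e2, e3, e4, e5, e6⟩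
      · rw [e1] at h'
        obtain ⟨t, ht, hh, ho⟩ := ih (step (i, r) (decide (x % 2 = 1))).1
          (step (i, r) (decide (x % 2 = 1))).2 _ h'
        rw [e2] at hh ho
        refine ⟨t + 1, by omega, hh, ?_⟩
        simp only [od]
        omega
      · rw [e1] at h'
        obtain ⟨t, ht, hh, ho⟩ := ih (step (i, r) (decide (x % 2 = 1))).1
          (step (i, r) (decide (x % 2 = 1))).2 _ h'
        rw [e2] at hh ho
        refine ⟨t + 1, by omega, hh.symm, ?_⟩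
        simp only [od]
        omega

/-- merging at one time `t` with `4 ^ t ≤ N`, after the same number of odd terms -/
def Mg (d : ℤ) (N : ℕ) (x y : ℤ) : Prop :=
  ∃ t, 4 ^ t ≤ N ∧ (Tz d)^[t] x = (Tz d)^[t] y ∧ od d t x = od d t y

theorem Mg_of {d : ℤ} (hd : d % 2 = 1) {N k : ℕ} (hk : 2 ^ (2 * k) ≤ N) {h x : ℤ}
    (hs : ¬ surv d k (0, h) x) : Mg d N x (x + d * h) := by
  obtain ⟨t, ht, h1, h2⟩ := coalJ hd k 0 h x hs
  refine ⟨t, ?_, by simpa using h1, by simpa using h2⟩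
  have : (4 : ℕ) ^ t = 2 ^ (2 * t) := by rw [pow_mul]; norm_num
  rw [this]
  exact (Nat.pow_le_pow_right (by norm_num) (by omega)).trans hk

open Classical in
theorem Mg_pairs : ∃ C : ℝ, 0 < C ∧ ∀ N : ℕ, 16 ≤ N → ∀ d : ℤ, d % 2 = 1 → ∀ h : ℤ,
    (#{n ∈ Icc 1 N | ¬ Mg d N ((n : ℕ) : ℤ) ((n : ℤ) + d * h)} : ℝ) ≤
      C * √ ((1 + Real.log (1 + |(h : ℝ)|)) * (Real.log (Real.log N) / Real.log N)) * N := by
  obtain ⟨C, hC, hp⟩ := pair_count
  refine ⟨C, hC, fun N hN d hd h => ?_⟩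
  have h1 := hp N hN d hd 0 h
  simp only [Nat.cast_zero, ne_eq, OfNat.ofNat_ne_zero, not_false_eq_true, zero_pow, add_zero] at h1
  refine le_trans ?_ h1
  have hsub : #{n ∈ Icc 1 N | ¬ Mg d N ((n : ℕ) : ℤ) ((n : ℤ) + d * h)} ≤
      #{n ∈ Icc 1 N | surv d (Nat.log 2 N / 4) (0, h) (n : ℕ)} := by
    apply card_le_card
    intro n hn
    rw [mem_filter] at hn ⊢
    refine ⟨hn.1, ?_⟩
    by_contra hcon
    apply hn.2
    refine Mg_of hd ?_ hcon
    exact (Nat.pow_le_pow_right (by norm_num) (by omega)).trans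
      (Nat.pow_log_le_self 2 (by omega : N ≠ 0))
  exact_mod_cast hsub

open Classical in
theorem Mg_window {ε : ℝ} (hε : 0 < ε) : ∃ θ : ℝ, 0 < θ ∧ ∃ N0 : ℕ, ∀ N ≥ N0, ∀ d : ℤ, d % 2 = 1 →
    ∀ h : ℤ, |(h : ℝ)| ≤ (N : ℝ) ^ θ →
    (#{n ∈ Icc 1 N | ¬ Mg d N ((n : ℕ) : ℤ) ((n : ℤ) + d * h)} : ℝ) ≤ ε * N := by
  obtain ⟨θ, hθ, N0, hN0⟩ := exists_param hε
  refine ⟨θ, hθ, N0, fun N hN d hd h hh => ?_⟩
  obtain ⟨k, hk, hkq⟩ := hN0 N hN
  refine le_trans ?_ ((count_le hd k (0, h) N).trans (hkq h hh))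
  have : #{n ∈ Icc 1 N | ¬ Mg d N ((n : ℕ) : ℤ) ((n : ℤ) + d * h)} ≤
      #{n ∈ Icc 1 N | surv d k (0, h) ((n : ℕ) : ℤ)} := by
    apply card_le_card
    intro n hn
    rw [mem_filter] at hn ⊢
    refine ⟨hn.1, ?_⟩
    by_contra hcon
    exact hn.2 (Mg_of hd hk hcon)
  exact_mod_cast this

end Pool.Agent.V11201.SH
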