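import Pool.Agent.V11201.SH.A
import Pool.Agent.H499R2.CO.R5

/-! One scale and many scales. -/

set_option autoImplicit false

namespace Pool.Agent.V11201.SH

open Finset Filter Topology
open Pool.Agent.H499R2.CO

/-- `loglog N / log N` -/
noncomputable def lam (N : ℕ) : ℝ := Real.log (Real.log N) / Real.log N

theorem logs {N : ℕ} (hN : 16 ≤ N) : 2 ≤ Real.log N ∧ 1 ≤ Real.log (Real.log N) := by
  have h1 : Real.log 16 ≤ Real.log N := Real.log_le_log (by norm_num) (by exact_mod_cast hN)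
  have h2 : Real.log 16 = 4 * Real.log 2 := by
    rw [show (16 : ℝ) = 2 ^ 4 by norm_num, Real.log_pow]; norm_num
  have h3 := Real.log_two_gt_d9
  have h4 : (2.7725 : ℝ) ≤ Real.log N := by linarith
  refine ⟨by linarith, ?_⟩
  rw [Real.le_log_iff_exp_le (by linarith)]
  have h5 := Real.exp_one_lt_d9
  linarith

theorem lam_pos {N : ℕ} (hN : 16 ≤ N) : 0 < lam N := by
  have h := logs hN
  unfold lam
  apply div_pos <;> linarith

/-- the rate of a relation between `n` and `n + j` -/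
def Rate (R : ℕ → ℕ → Prop) (C : ℝ) : Prop :=
  ∀ N : ℕ, 16 ≤ N → ∀ j : ℕ, 1 ≤ j →
    ({n : ℕ | 1 ≤ n ∧ n ≤ N ∧ R n j}.ncard : ℝ) ≤ C * √ ((1 + Real.log (1 + j)) * lam N) * N

/-- the number of the `1 ≤ j ≤ H` with `R n j` -/
noncomputable def bd (R : ℕ → ℕ → Prop) (n H : ℕ) : ℕ := {j : ℕ | 1 ≤ j ∧ j ≤ H ∧ R n j}.ncard

theorem bd_eq (R : ℕ → ℕ → Prop) [∀ n j, Decidable (R n j)] (n H : ℕ) : bd R n H = #{j ∈ Icc 1 H | R n j} :=
  ncard_filter _ _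

theorem bd_mono (R : ℕ → ℕ → Prop) (n : ℕ) {H H' : ℕ} (h : H ≤ H') : bd R n H ≤ bd R n H' := by
  unfold bd
  apply Set.ncard_le_ncard
  · rintro j ⟨h1, h2, h3⟩
    exact ⟨h1, h2.trans h, h3⟩
  · exact (Set.finite_Icc 1 H').subset (fun j hj => ⟨hj.1, hj.2.1⟩)

/-- one scale, given bounds for the pairs -/
theorem one_scale {R : ℕ → ℕ → Prop} {N H : ℕ} {ε κ : ℝ} (hε : 0 ≤ ε) (hκ : 0 < κ)
    (h : ∀ j, 1 ≤ j → j ≤ H → ({n : ℕ | 1 ≤ n ∧ n ≤ N ∧ R n j}.ncard : ℝ) ≤ ε * κ * N) :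
    ({n : ℕ | 1 ≤ n ∧ n ≤ N ∧ κ * H < bd R n H}.ncard : ℝ) ≤ ε * N := by
  classical
  have h1 := markov N H R hε hκ (fun j hj => by
    rw [mem_Icc] at hj
    have := h j hj.1 hj.2
    rwa [ncard_filter] at this)
  refine le_trans (le_of_eq ?_) h1
  rw [ncard_filter]
  simp only [bd_eq]

/-- one scale, with the rate -/
theorem rate_scale {R : ℕ → ℕ → Prop} {C : ℝ} (hC : 0 < C) (hR : Rate R C) {N : ℕ} (hN : 16 ≤ N) (H : ℕ)
    {κ : ℝ} (hκ : 0 < κ) :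
    ({n : ℕ | 1 ≤ n ∧ n ≤ N ∧ κ * H < bd R n H}.ncard : ℝ) ≤
      C / κ * √ ((1 + Real.log (1 + H)) * lam N) * N := by
  apply one_scale (by positivity) hκ
  intro j hj1 hjH
  have h1 := hR N hN j hj1
  have h2 : √ ((1 + Real.log (1 + (j : ℝ))) * lam N) ≤ √ ((1 + Real.log (1 + (H : ℝ))) * lam N) := by
    apply Real.sqrt_le_sqrt
    apply mul_le_mul_of_nonneg_right _ (lam_pos hN).le
    have : Real.log (1 + (j : ℝ)) ≤ Real.log (1 + (H : ℝ)) := Real.log_le_log (by positivity) (by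
      have : (j : ℝ) ≤ H := by exact_mod_cast hjH
      linarith)
    linarith
  have h3 : C / κ * √ ((1 + Real.log (1 + (H : ℝ))) * lam N) * κ = C * √ ((1 + Real.log (1 + (H : ℝ))) * lam N) := by
    field_simp
  rw [h3]
  refine h1.trans ?_
  apply mul_le_mul_of_nonneg_right _ (by positivity)
  exact mul_le_mul_of_nonneg_left h2 hC.le

/-- `log (1 + g n) = o((log n / log log n) ^ (1/3))` -/
def Thin (g : ℕ → ℕ) : Prop :=
  Tendsto (fun n : ℕ => Real.log (1 + g n) ^ 3 * Real.log (Real.log n) / Real.log n) atTop (𝓝 0)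

theorem lam_tendsto : Tendsto lam atTop (𝓝 0) := by
  have h1 : Tendsto (fun x : ℝ => Real.log x / x) atTop (𝓝 0) := by
    have := Real.isLittleO_log_id_atTop.tendsto_div_nhds_zero
    simpa using this
  have h2 : Tendsto (fun N : ℕ => Real.log (N : ℝ)) atTop atTop :=
    Real.tendsto_log_atTop.comp tendsto_natCast_atTop_atTop
  exact h1.comp h2

theorem fin_le (P : ℕ → Prop) (N : ℕ) : {n : ℕ | 1 ≤ n ∧ n ≤ N ∧ P n}.Finite :=
  (Set.finite_Icc 1 N).subset fun _ h => ⟨h.1, h.2.1⟩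

/-- the dyadic scale of `H` -/
theorem dyadic (H : ℕ) (hH : 1 ≤ H) {S : ℕ} (hS : H ≤ 2 ^ S) : ∃ s ≤ S, H ≤ 2 ^ s ∧ 2 ^ s < 2 * H := by
  refine ⟨Nat.clog 2 H, (Nat.clog_le_iff_le_pow (by norm_num)).2 hS,
    (Nat.clog_le_iff_le_pow (by norm_num)).1 le_rfl, ?_⟩
  rcases Nat.eq_zero_or_pos (Nat.clog 2 H) with h | h
  · rw [h]; omega
  · obtain ⟨c, hc⟩ : ∃ c, Nat.clog 2 H = c + 1 := ⟨Nat.clog 2 H - 1, by omega⟩
    have h1 : 2 ^ c < H := (Nat.lt_clog_iff_pow_lt (by norm_num)).1 (by omega)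
    rw [hc, pow_succ]; omega

/-- the union over the scales -/
theorem union_scales {R : ℕ → ℕ → Prop} {C : ℝ} (hC : 0 < C) (hR : Rate R C) {N : ℕ} (hN : 16 ≤ N) (S : ℕ)
    {κ : ℝ} (hκ : 0 < κ) :
    ({n : ℕ | 1 ≤ n ∧ n ≤ N ∧ ∃ H, 1 ≤ H ∧ H ≤ 2 ^ S ∧ κ * H < bd R n H}.ncard : ℝ) ≤
      2 * C / κ * √ (((S : ℝ) + 2) ^ 3 * lam N) * N := by
  have hlam := lam_pos hN
  have hsub : {n : ℕ | 1 ≤ n ∧ n ≤ N ∧ ∃ H, 1 ≤ H ∧ H ≤ 2 ^ S ∧ κ * H < bd R n H} ⊆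
      ⋃ s ∈ range (S + 1), {n : ℕ | 1 ≤ n ∧ n ≤ N ∧ κ / 2 * (2 ^ s : ℕ) < bd R n (2 ^ s)} := by
    rintro n ⟨h1, h2, H, h3, h4, h5⟩
    obtain ⟨s, hs, h6, h7⟩ := dyadic H h3 h4
    refine Set.mem_iUnion₂.2 ⟨s, mem_range.2 (by omega), h1, h2, ?_⟩
    have h8 : (bd R n H : ℝ) ≤ bd R n (2 ^ s) := by exact_mod_cast bd_mono R n h6
    have h9 : ((2 ^ s : ℕ) : ℝ) ≤ 2 * H := by exact_mod_cast h7.le
    have h10 : κ / 2 * ((2 ^ s : ℕ) : ℝ) ≤ κ / 2 * (2 * H) := mul_le_mul_of_nonneg_left h9 (by positivity)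
    linarith
  have hfin : (⋃ s ∈ range (S + 1), {n : ℕ | 1 ≤ n ∧ n ≤ N ∧ κ / 2 * (2 ^ s : ℕ) < bd R n (2 ^ s)}).Finite := by
    apply Set.Finite.biUnion (Finset.finite_toSet _)
    intro s _
    exact fin_le _ N
  have h1 : ({n : ℕ | 1 ≤ n ∧ n ≤ N ∧ ∃ H, 1 ≤ H ∧ H ≤ 2 ^ S ∧ κ * H < bd R n H}.ncard : ℝ) ≤
      ∑ s ∈ range (S + 1), ({n : ℕ | 1 ≤ n ∧ n ≤ N ∧ κ / 2 * (2 ^ s : ℕ) < bd R n (2 ^ s)}.ncard : ℝ) := by
    have h2 := (Set.ncard_le_ncard hsub hfin).trans (Finset.set_ncard_biUnion_le _ _)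
    exact_mod_cast h2
  refine h1.trans ?_
  have h2 : ∀ s ∈ range (S + 1), ({n : ℕ | 1 ≤ n ∧ n ≤ N ∧ κ / 2 * (2 ^ s : ℕ) < bd R n (2 ^ s)}.ncard : ℝ) ≤
      2 * C / κ * √ (((S : ℝ) + 2) * lam N) * N := by
    intro s hs
    rw [mem_range] at hs
    refine (rate_scale hC hR hN (2 ^ s) (by positivity : 0 < κ / 2)).trans ?_
    have e : C / (κ / 2) = 2 * C / κ := by field_simp
    rw [e]
    apply mul_le_mul_of_nonneg_right _ (by positivity)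
    apply mul_le_mul_of_nonneg_left _ (by positivity)
    apply Real.sqrt_le_sqrt
    apply mul_le_mul_of_nonneg_right _ hlam.le
    have h3 : Real.log (1 + ((2 ^ s : ℕ) : ℝ)) ≤ (s : ℝ) + 1 := by
      have h4 : 1 + ((2 ^ s : ℕ) : ℝ) ≤ 2 ^ (s + 1) := by
        push_cast
        have : (1 : ℝ) ≤ 2 ^ s := one_le_pow₀ (by norm_num)
        rw [pow_succ]; linarith
      have h5 : Real.log (1 + ((2 ^ s : ℕ) : ℝ)) ≤ Real.log (2 ^ (s + 1)) := Real.log_le_log (by positivity) h4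
      rw [Real.log_pow] at h5
      push_cast at h5
      have h6 := Real.log_two_lt_d9
      have h7 : ((s : ℝ) + 1) * Real.log 2 ≤ ((s : ℝ) + 1) * 1 :=
        mul_le_mul_of_nonneg_left (by linarith) (by positivity)
      push_cast
      linarith
    have h8 : (s : ℝ) ≤ S := by exact_mod_cast Nat.lt_succ_iff.1 hs
    linarith
  refine (sum_le_sum h2).trans ?_
  rw [sum_const, card_range, nsmul_eq_mul]
  have h3 : ((S + 1 : ℕ) : ℝ) * √ (((S : ℝ) + 2) * lam N) ≤ √ (((S : ℝ) + 2) ^ 3 * lam N) := by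
    have e : ((S : ℝ) + 2) ^ 3 * lam N = ((S : ℝ) + 2) ^ 2 * (((S : ℝ) + 2) * lam N) := by ring
    have e2 := Real.sqrt_mul (sq_nonneg ((S : ℝ) + 2)) (((S : ℝ) + 2) * lam N)
    rw [Real.sqrt_sq (by positivity)] at e2
    rw [e, e2]
    apply mul_le_mul_of_nonneg_right _ (Real.sqrt_nonneg _)
    push_cast; linarith
  calc ((S + 1 : ℕ) : ℝ) * (2 * C / κ * √ (((S : ℝ) + 2) * lam N) * N)
      = 2 * C / κ * (((S + 1 : ℕ) : ℝ) * √ (((S : ℝ) + 2) * lam N)) * N := by ring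
    _ ≤ 2 * C / κ * √ (((S : ℝ) + 2) ^ 3 * lam N) * N := by
        apply mul_le_mul_of_nonneg_right _ (by positivity)
        exact mul_le_mul_of_nonneg_left h3 (by positivity)

theorem HD_one_of {P : ℕ → Prop} (h : ∀ ε : ℝ, 0 < ε → ∃ C : ℝ, ∀ N : ℕ,
    ({n : ℕ | 1 ≤ n ∧ n ≤ N ∧ ¬ P n}.ncard : ℝ) ≤ ε * N + C) : HD P 1 := by
  classical
  rw [HD_iff]
  refine density_one P (fun ε hε => ?_)
  obtain ⟨C, hC⟩ := h ε hε
  refine ⟨C, fun N => ?_⟩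
  have := hC N
  rwa [ncard_filter] at this

/-- many scales -/
theorem scales {R : ℕ → ℕ → Prop} {C : ℝ} (hC : 0 < C) (hR : Rate R C) {g : ℕ → ℕ} (hg : Thin g)
    {κ : ℝ} (hκ : 0 < κ) :
    HD (fun n => ∀ H : ℕ, 1 ≤ H → H ≤ g n → (bd R n H : ℝ) ≤ κ * H) 1 := by
  apply HD_one_of
  intro δ hδ
  set x0 : ℝ := (δ * κ / (4 * C)) ^ 2 with hx0
  have hx0pos : 0 < x0 := by positivity
  set η : ℝ := x0 / 128 with hη
  have hηpos : 0 < η := by positivity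
  obtain ⟨n1, hn1⟩ := eventually_atTop.1 (hg.eventually (gt_mem_nhds hηpos))
  obtain ⟨n2, hn2⟩ := eventually_atTop.1 (lam_tendsto.eventually (gt_mem_nhds (show (0 : ℝ) < x0 / 216 by positivity)))
  obtain ⟨n3, hn3⟩ := exists_nat_gt (2 / δ)
  set N0 : ℕ := max (max n2 (n3 ^ 2)) 256 with hN0
  refine ⟨N0 + n1, fun N => ?_⟩
  rcases Nat.lt_or_ge N N0 with hlt | hge
  · have h1 : {n : ℕ | 1 ≤ n ∧ n ≤ N ∧ ¬ ∀ H : ℕ, 1 ≤ H → H ≤ g n → (bd R n H : ℝ) ≤ κ * H}.ncard ≤ N := by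
      have h0 := Set.ncard_le_ncard (s := {n : ℕ | 1 ≤ n ∧ n ≤ N ∧
        ¬ ∀ H : ℕ, 1 ≤ H → H ≤ g n → (bd R n H : ℝ) ≤ κ * H}) (t := ((Icc 1 N : Finset ℕ) : Set ℕ))
        (by rintro n ⟨a1, a2, _⟩; rw [Finset.coe_Icc]; exact ⟨a1, a2⟩) (Finset.finite_toSet _)
      rw [Set.ncard_coe_finset, Nat.card_Icc] at h0
      omega
    have h2 : ({n : ℕ | 1 ≤ n ∧ n ≤ N ∧ ¬ ∀ H : ℕ, 1 ≤ H → H ≤ g n → (bd R n H : ℝ) ≤ κ * H}.ncard : ℝ) ≤ N0 := by
      exact_mod_cast h1.trans hlt.le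
    have : (0 : ℝ) ≤ δ * N := by positivity
    have : (0 : ℝ) ≤ n1 := by positivity
    linarith
  have hN2 : n2 ≤ N := ((le_max_left _ _).trans (le_max_left _ _)).trans hge
  have hN3 : n3 ^ 2 ≤ N := ((le_max_right _ _).trans (le_max_left _ _)).trans hge
  have hN16 : 256 ≤ N := (le_max_right _ _).trans hge
  have hNpos : (0 : ℝ) < N := by
    have : 0 < N := by omega
    exact_mod_cast this
  have hlam := lam_pos (show 16 ≤ N by omega)
  have hlam2 := hn2 N hN2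
  obtain ⟨hL2, hLL1⟩ := logs (show 16 ≤ N by omega)
  set u : ℝ := (2 * η / lam N) ^ (1 / 3 : ℝ) with hu
  have hu0 : 0 ≤ u := by positivity
  have hu3 : u ^ 3 * lam N = 2 * η := by
    rw [hu, ← Real.rpow_natCast, ← Real.rpow_mul (by positivity)]
    norm_num
    field_simp
  set S : ℕ := ⌈2 * u⌉₊ with hS
  have hS1 : 2 * u ≤ S := Nat.le_ceil _
  have hS2 : (S : ℝ) < 2 * u + 1 := Nat.ceil_lt_add_one (by positivity)
  have hSx : ((S : ℝ) + 2) ^ 3 * lam N ≤ x0 := by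
    have h1 : ((S : ℝ) + 2) ^ 3 ≤ (2 * u + 3) ^ 3 := pow_le_pow_left₀ (by positivity) (by linarith) 3
    have h2 : (2 * u + 3) ^ 3 ≤ 4 * ((2 * u) ^ 3 + 27) := by
      nlinarith [mul_nonneg (by positivity : (0 : ℝ) ≤ 2 * u + 3) (sq_nonneg (2 * u - 3))]
    have h3 : ((S : ℝ) + 2) ^ 3 * lam N ≤ 4 * ((2 * u) ^ 3 + 27) * lam N :=
      mul_le_mul_of_nonneg_right (h1.trans h2) hlam.le
    have h4 : 4 * ((2 * u) ^ 3 + 27) * lam N = 32 * (u ^ 3 * lam N) + 108 * lam N := by ring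
    rw [h4, hu3] at h3
    linarith
  -- the large `n`
  have hbig : ∀ n : ℕ, n1 ≤ n → N < n * n → n ≤ N → g n ≤ 2 ^ S := by
    intro n h1 h2 h3
    have hn16 : 16 ≤ n := by
      by_contra hcon
      have h4 : n ≤ 15 := by omega
      have : n * n ≤ 15 * 15 := Nat.mul_le_mul h4 h4
      omega
    obtain ⟨a1, a2⟩ := logs hn16
    have h4 := hn1 n h1
    have h5 : Real.log n ≤ Real.log N := Real.log_le_log (by
      have : 0 < n := by omega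
      exact_mod_cast this) (by exact_mod_cast h3)
    have h6 : Real.log N ≤ 2 * Real.log n := by
      have h7 : Real.log N ≤ Real.log ((n : ℝ) * n) := Real.log_le_log hNpos (by exact_mod_cast h2.le)
      rw [Real.log_mul (by positivity) (by positivity)] at h7
      linarith
    have h7 : Real.log (Real.log N) ≤ 2 * Real.log (Real.log n) := by
      have h8 : Real.log (Real.log N) ≤ Real.log (2 * Real.log n) := Real.log_le_log (by linarith) h6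
      rw [Real.log_mul (by norm_num) (by linarith)] at h8
      have := Real.log_two_lt_d9
      linarith
    have h8 : Real.log (1 + (g n : ℝ)) ^ 3 * lam N ≤ 2 * η := by
      have h9 : Real.log (1 + (g n : ℝ)) ^ 3 * Real.log (Real.log n) ≤ η * Real.log n := by
        rw [div_lt_iff₀ (by linarith)] at h4
        exact h4.le
      have h0 : 0 ≤ Real.log (1 + (g n : ℝ)) := Real.log_nonneg (by
        have : (0 : ℝ) ≤ g n := by positivity
        linarith)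
      have h10 : Real.log (1 + (g n : ℝ)) ^ 3 * Real.log (Real.log N) ≤ 2 * η * Real.log N := by
        calc Real.log (1 + (g n : ℝ)) ^ 3 * Real.log (Real.log N)
            ≤ Real.log (1 + (g n : ℝ)) ^ 3 * (2 * Real.log (Real.log n)) :=
              mul_le_mul_of_nonneg_left h7 (by positivity)
          _ = 2 * (Real.log (1 + (g n : ℝ)) ^ 3 * Real.log (Real.log n)) := by ring
          _ ≤ 2 * (η * Real.log n) := by linarith
          _ ≤ 2 * η * Real.log N := by nlinarith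
      unfold lam
      rw [← mul_div_assoc, div_le_iff₀ (by linarith)]
      exact h10
    have h9 : Real.log (1 + (g n : ℝ)) ≤ u := by
      rw [← hu3] at h8
      have h10 := le_of_mul_le_mul_right h8 hlam
      exact le_of_pow_le_pow_left₀ (by norm_num) hu0 h10
    have h10 : Real.log (1 + (g n : ℝ)) ≤ Real.log (2 ^ S) := by
      rw [Real.log_pow]
      have h11 := Real.log_two_gt_d9
      have h12 : (2 * u) * Real.log 2 ≤ S * Real.log 2 := mul_le_mul_of_nonneg_right hS1 (by linarith)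
      nlinarith
    have h11 : 1 + (g n : ℝ) ≤ 2 ^ S := (Real.log_le_log_iff (by positivity) (by positivity)).1 h10
    have h12 : (g n : ℝ) ≤ ((2 ^ S : ℕ) : ℝ) := by push_cast; linarith
    exact_mod_cast h12
  have hsub : {n : ℕ | 1 ≤ n ∧ n ≤ N ∧ ¬ ∀ H : ℕ, 1 ≤ H → H ≤ g n → (bd R n H : ℝ) ≤ κ * H} ⊆
      ({n : ℕ | 1 ≤ n ∧ n ≤ N ∧ ∃ H, 1 ≤ H ∧ H ≤ 2 ^ S ∧ κ * H < bd R n H} ∪
        ((Finset.range n1 : Finset ℕ) : Set ℕ)) ∪ ((Finset.Icc 1 (Nat.sqrt N) : Finset ℕ) : Set ℕ) := by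
    rintro n ⟨h1, h2, h3⟩
    by_cases h4 : n < n1
    · left; right; simpa using h4
    by_cases h5 : n * n ≤ N
    · right
      rw [Finset.coe_Icc]
      exact ⟨h1, Nat.le_sqrt.2 h5⟩
    left; left
    push Not at h3
    obtain ⟨H, g1, g2, g3⟩ := h3
    exact ⟨h1, h2, H, g1, g2.trans (hbig n (by omega) (by omega) h2), g3⟩
  have hcount : ({n : ℕ | 1 ≤ n ∧ n ≤ N ∧ ¬ ∀ H : ℕ, 1 ≤ H → H ≤ g n → (bd R n H : ℝ) ≤ κ * H}.ncard : ℝ) ≤
      ({n : ℕ | 1 ≤ n ∧ n ≤ N ∧ ∃ H, 1 ≤ H ∧ H ≤ 2 ^ S ∧ κ * H < bd R n H}.ncard : ℝ) + n1 + Nat.sqrt N := by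
    have h1 := (Set.ncard_le_ncard hsub (((fin_le _ N).union (Finset.finite_toSet _)).union
      (Finset.finite_toSet _))).trans (Set.ncard_union_le _ _)
    have h2 := Set.ncard_union_le {n : ℕ | 1 ≤ n ∧ n ≤ N ∧ ∃ H, 1 ≤ H ∧ H ≤ 2 ^ S ∧ κ * H < bd R n H}
      ((Finset.range n1 : Finset ℕ) : Set ℕ)
    rw [Set.ncard_coe_finset, Nat.card_Icc] at h1
    rw [Set.ncard_coe_finset, card_range] at h2
    have h3 : {n : ℕ | 1 ≤ n ∧ n ≤ N ∧ ¬ ∀ H : ℕ, 1 ≤ H → H ≤ g n → (bd R n H : ℝ) ≤ κ * H}.ncard ≤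
        {n : ℕ | 1 ≤ n ∧ n ≤ N ∧ ∃ H, 1 ≤ H ∧ H ≤ 2 ^ S ∧ κ * H < bd R n H}.ncard + n1 + Nat.sqrt N := by omega
    exact_mod_cast h3
  have h1 := union_scales hC hR (show 16 ≤ N by omega) S hκ
  have h2 : 2 * C / κ * √ (((S : ℝ) + 2) ^ 3 * lam N) ≤ δ / 2 := by
    have h3 : √ (((S : ℝ) + 2) ^ 3 * lam N) ≤ δ * κ / (4 * C) := by
      rw [Real.sqrt_le_left (by positivity)]
      exact hSx
    calc 2 * C / κ * √ (((S : ℝ) + 2) ^ 3 * lam N) ≤ 2 * C / κ * (δ * κ / (4 * C)) :=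
          mul_le_mul_of_nonneg_left h3 (by positivity)
      _ = δ / 2 := by field_simp; norm_num
  have h3 : (Nat.sqrt N : ℝ) ≤ δ / 2 * N := by
    have h4 : Nat.sqrt N * Nat.sqrt N ≤ N := Nat.sqrt_le N
    have h5 : n3 ≤ Nat.sqrt N := Nat.le_sqrt.2 (by rw [← sq]; exact hN3)
    have h6 : (n3 : ℝ) ≤ Nat.sqrt N := by exact_mod_cast h5
    have h7 : (Nat.sqrt N : ℝ) * Nat.sqrt N ≤ N := by exact_mod_cast h4
    have h8 : 2 / δ ≤ (Nat.sqrt N : ℝ) := by linarith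
    rw [div_le_iff₀ hδ] at h8
    have h9 : (0 : ℝ) ≤ Nat.sqrt N := by positivity
    nlinarith
  have h4 : 2 * C / κ * √ (((S : ℝ) + 2) ^ 3 * lam N) * N ≤ δ / 2 * N := mul_le_mul_of_nonneg_right h2 hNpos.le
  have h5 : (0 : ℝ) ≤ N0 := by positivity
  have h6 := hcount
  linarith

end Pool.Agent.V11201.SH
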