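import Pool.Agent.V11201.SH.C

/-! The Collatz map and its total stopping time. -/

set_option autoImplicit false

namespace Pool.Agent.V11201.SH

open Finset Filter Topology
open Pool.Agent.H499R2.CO (HD HD_congr Cn)
open Pool.Agent.H499R2.ND (Tn)
open Pool.Agent.H499R2.LT (odn)
open Pool.Agent.H499R2.HL (pow_le_of_hit odn_add)

theorem odn_succ (k n : ℕ) : odn (k + 1) n = n % 2 + odn k (Tn n) := by
  rw [Nat.add_comm k 1, odn_add, odn_one, Function.iterate_one]

theorem Tn_pos {n : ℕ} (hn : 1 ≤ n) : 1 ≤ Tn n := by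
  unfold Tn
  split_ifs with h <;> omega

theorem C_hit : ∀ (k n : ℕ), 1 ≤ n → Hit k n →
    Cn^[k + odn k n] n = 1 ∧ ∀ i < k + odn k n, Cn^[i] n ≠ 1 := by
  intro k
  induction k with
  | zero =>
    intro n hn h
    have e : odn 0 n = 0 := by simp [odn]
    rw [e]
    exact ⟨h.1, fun i hi => by omega⟩
  | succ k ih =>
    intro n hn h
    have hn1 : n ≠ 1 := h.2 0 (by omega)
    have h' : Hit k (Tn n) := ⟨h.1, fun i hi => by
      have := h.2 (i + 1) (by omega)
      rwa [Function.iterate_succ_apply] at this⟩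
    obtain ⟨h1, h2⟩ := ih (Tn n) (Tn_pos hn) h'
    rw [odn_succ]
    rcases Nat.mod_two_eq_zero_or_one n with hp | hp
    · have hC : Cn n = Tn n := by unfold Cn Tn; rw [if_pos hp, if_pos hp]
      rw [hp, show k + 1 + (0 + odn k (Tn n)) = (k + odn k (Tn n)) + 1 by ring]
      refine ⟨by rw [Function.iterate_succ_apply, hC]; exact h1, ?_⟩
      intro i hi
      rcases i with _ | i
      · exact hn1
      · rw [Function.iterate_succ_apply, hC]
        exact h2 i (by omega)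
    · have hC : Cn (Cn n) = Tn n := by
        have e1 : Cn n = 3 * n + 1 := by unfold Cn; rw [if_neg (by omega)]
        rw [e1]
        unfold Cn Tn
        rw [if_pos (by omega), if_neg (by omega)]
      rw [hp, show k + 1 + (1 + odn k (Tn n)) = (k + odn k (Tn n)) + 2 by ring]
      refine ⟨by rw [Function.iterate_succ_apply, Function.iterate_succ_apply, hC]; exact h1, ?_⟩
      intro i hi
      rcases i with _ | _ | i
      · exact hn1
      · have e1 : Cn n = 3 * n + 1 := by unfold Cn; rw [if_neg (by omega)]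
        rw [zero_add, Function.iterate_one, e1]
        omega
      · rw [Function.iterate_succ_apply, Function.iterate_succ_apply, hC]
        exact h2 i (by omega)

theorem C_reach : ∀ (K n : ℕ), 1 ≤ n → Cn^[K] n = 1 → ∃ k, Hit k n := by
  have key : ∀ (K n : ℕ), 1 ≤ n → Cn^[K] n = 1 → ∃ k, Tn^[k] n = 1 := by
    intro K
    induction K using Nat.strong_induction_on with
    | _ K ih =>
      intro n hn h
      by_cases hn1 : n = 1
      · exact ⟨0, hn1⟩
      rcases K with _ | K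
      · exact absurd h hn1
      rw [Function.iterate_succ_apply] at h
      rcases Nat.mod_two_eq_zero_or_one n with hp | hp
      · have hC : Cn n = Tn n := by unfold Cn Tn; rw [if_pos hp, if_pos hp]
        rw [hC] at h
        obtain ⟨k, hk⟩ := ih K (by omega) _ (Tn_pos hn) h
        exact ⟨k + 1, by rw [Function.iterate_succ_apply]; exact hk⟩
      · have e1 : Cn n = 3 * n + 1 := by unfold Cn; rw [if_neg (by omega)]
        rcases K with _ | K
        · rw [Function.iterate_zero, id, e1] at h; omega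
        rw [Function.iterate_succ_apply] at h
        have hC : Cn (Cn n) = Tn n := by
          rw [e1]
          unfold Cn Tn
          rw [if_pos (by omega), if_neg (by omega)]
        rw [hC] at h
        obtain ⟨k, hk⟩ := ih K (by omega) _ (Tn_pos hn) h
        exact ⟨k + 1, by rw [Function.iterate_succ_apply]; exact hk⟩
  intro K n hn h
  classical
  have hex := key K n hn h
  exact ⟨Nat.find hex, Nat.find_spec hex, fun i hi => Nat.find_min hex hi⟩

/-- the total stopping time -/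
noncomputable def ell (n : ℕ) : ℕ∞ := sInf {k : ℕ∞ | ∃ j : ℕ, Cn^[j] n = 1 ∧ k = j}

theorem ell_hit {k n : ℕ} (hn : 1 ≤ n) (h : Hit k n) : ell n = ((k + odn k n : ℕ) : ℕ∞) := by
  obtain ⟨h1, h2⟩ := C_hit k n hn h
  unfold ell
  apply le_antisymm
  · exact sInf_le ⟨_, h1, rfl⟩
  · refine le_sInf ?_
    rintro j ⟨i, hi, rfl⟩
    have : k + odn k n ≤ i := by
      by_contra hlt
      exact h2 i (by omega) hi
    exact_mod_cast this

theorem ell_top {n : ℕ} (hn : 1 ≤ n) (h : ¬ ∃ k, Hit k n) : ell n = ⊤ := by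
  unfold ell
  have : {k : ℕ∞ | ∃ j : ℕ, Cn^[j] n = 1 ∧ k = j} = ∅ := by
    rw [Set.eq_empty_iff_forall_notMem]
    rintro k ⟨j, hj, _⟩
    exact h (C_reach j n hn hj)
  rw [this, sInf_empty]

theorem ell_same {m n : ℕ} (hm : 1 ≤ m) (hn : 1 ≤ n) (h : Same m n) : ell m = ell n := by
  by_cases hk : ∃ k, Hit k n
  · obtain ⟨k, hk⟩ := hk
    have h1 := (h k).1.2 hk
    rw [ell_hit hm h1, ell_hit hn hk, (h k).2 hk]
  · rw [ell_top hn hk, ell_top hm fun ⟨k, hk'⟩ => hk ⟨k, (h k).1.1 hk'⟩]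

/-- comparing relations -/
theorem Rate_mono {R R' : ℕ → ℕ → Prop} {C : ℝ} (h : Rate R C)
    (hRR : ∀ n j, 1 ≤ n → 1 ≤ j → R' n j → R n j) : Rate R' C := by
  intro N hN j hj
  refine le_trans ?_ (h N hN j hj)
  exact_mod_cast Set.ncard_le_ncard (by
    rintro n ⟨h1, h2, h3⟩
    exact ⟨h1, h2, hRR n j h1 hj h3⟩) (fin_le _ N)

theorem window_mono {R R' : ℕ → ℕ → Prop}
    (h : ∀ ε : ℝ, 0 < ε → ∃ θ : ℝ, 0 < θ ∧ ∃ N0 : ℕ, ∀ N ≥ N0, ∀ j : ℕ,
      (j : ℝ) ≤ (N : ℝ) ^ θ → ({n : ℕ | 1 ≤ n ∧ n ≤ N ∧ R n j}.ncard : ℝ) ≤ ε * N)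
    (hRR : ∀ n j, 1 ≤ n → 1 ≤ j → R' n j → R n j) {ε : ℝ} (hε : 0 < ε) :
    ∃ θ : ℝ, 0 < θ ∧ ∃ N0 : ℕ, ∀ N ≥ N0, ∀ H : ℕ, (H : ℝ) ≤ (N : ℝ) ^ θ →
      ({n : ℕ | 1 ≤ n ∧ n ≤ N ∧ ε * H < bd R' n H}.ncard : ℝ) ≤ ε * N := by
  obtain ⟨θ, hθ, N0, h1⟩ := h (ε * ε) (by positivity)
  refine ⟨θ, hθ, N0, fun N hN H hH => ?_⟩
  apply one_scale hε.le hε
  intro j hj hjH
  have h2 : (j : ℝ) ≤ H := by exact_mod_cast hjH
  refine le_trans ?_ (h1 N hN j (h2.trans hH))
  exact_mod_cast Set.ncard_le_ncard (by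
    rintro n ⟨h1, h2, h3⟩
    exact ⟨h1, h2, hRR n j h1 hj h3⟩) (fin_le _ N)

end Pool.Agent.V11201.SH
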