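import Pool.Agent.V11201.SH.D

/-! Densities: sandwich, difference; the exceptions. -/

set_option autoImplicit false

namespace Pool.Agent.V11201.SH

open Finset Filter Topology
open Pool.Agent.H499R2.CO (HD HD_congr HD_not Cn)

theorem HD_of {P U : ℕ → Prop} {δ : ℝ} (hU : HD U δ) (hPU : ∀ n, P n → U n)
    (hlow : ∀ ε : ℝ, 0 < ε → ∃ (Q : ℕ → Prop) (δ' : ℝ), HD Q δ' ∧ δ - ε < δ' ∧
      ∀ᶠ n : ℕ in atTop, Q n → P n) : HD P δ := by
  unfold HD at hU ⊢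
  rw [Metric.tendsto_atTop] at hU ⊢
  intro ε hε
  obtain ⟨N1, h1⟩ := hU ε hε
  obtain ⟨Q, δ', hQ, hδ', hev⟩ := hlow (ε / 3) (by positivity)
  unfold HD at hQ
  rw [Metric.tendsto_atTop] at hQ
  obtain ⟨N2, h2⟩ := hQ (ε / 3) (by positivity)
  obtain ⟨n0, hn0⟩ := eventually_atTop.1 hev
  obtain ⟨N3, hN3⟩ := exists_nat_gt (3 * ((n0 : ℝ) + 1) / ε)
  refine ⟨max (max N1 N2) (max N3 1), fun N hN => ?_⟩
  have hN1 : N1 ≤ N := ((le_max_left _ _).trans (le_max_left _ _)).trans hN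
  have hN2 : N2 ≤ N := ((le_max_right _ _).trans (le_max_left _ _)).trans hN
  have hN3' : N3 ≤ N := ((le_max_left _ _).trans (le_max_right _ _)).trans hN
  have hN4 : 1 ≤ N := ((le_max_right _ _).trans (le_max_right _ _)).trans hN
  have hNR : (0 : ℝ) < N := by exact_mod_cast hN4
  have a1 := h1 N hN1
  have a2 := h2 N hN2
  rw [Real.dist_eq, abs_lt] at a1 a2 ⊢
  have b1 : ({n : ℕ | 1 ≤ n ∧ n ≤ N ∧ P n}.ncard : ℝ) ≤ ({n : ℕ | 1 ≤ n ∧ n ≤ N ∧ U n}.ncard : ℝ) := by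
    have hsub : {n : ℕ | 1 ≤ n ∧ n ≤ N ∧ P n} ⊆ {n : ℕ | 1 ≤ n ∧ n ≤ N ∧ U n} := by
      rintro n ⟨h3, h4, h5⟩
      exact ⟨h3, h4, hPU n h5⟩
    exact_mod_cast Set.ncard_le_ncard hsub (fin_le _ N)
  have b2 : ({n : ℕ | 1 ≤ n ∧ n ≤ N ∧ Q n}.ncard : ℝ) ≤ ({n : ℕ | 1 ≤ n ∧ n ≤ N ∧ P n}.ncard : ℝ) +
      (n0 + 1) := by
    have hsub : {n : ℕ | 1 ≤ n ∧ n ≤ N ∧ Q n} ⊆ {n : ℕ | 1 ≤ n ∧ n ≤ N ∧ P n} ∪
        ((Finset.range (n0 + 1) : Finset ℕ) : Set ℕ) := by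
      rintro n ⟨h3, h4, h5⟩
      rcases Nat.lt_or_ge n n0 with h6 | h6
      · right
        rw [Finset.coe_range, Set.mem_Iio]; omega
      · left
        exact ⟨h3, h4, hn0 n h6 h5⟩
    have h3 := (Set.ncard_le_ncard hsub ((fin_le _ N).union (Finset.finite_toSet _))).trans
      (Set.ncard_union_le _ _)
    rw [Set.ncard_coe_finset, Finset.card_range] at h3
    exact_mod_cast h3
  have b3 : ((n0 : ℝ) + 1) / N < ε / 3 := by
    rw [div_lt_iff₀ hNR]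
    have h3 : 3 * ((n0 : ℝ) + 1) / ε < N := lt_of_lt_of_le hN3 (by exact_mod_cast hN3')
    rw [div_lt_iff₀ hε] at h3
    linarith
  have c1 : ({n : ℕ | 1 ≤ n ∧ n ≤ N ∧ P n}.ncard : ℝ) / N ≤ ({n : ℕ | 1 ≤ n ∧ n ≤ N ∧ U n}.ncard : ℝ) / N :=
    div_le_div_of_nonneg_right b1 hNR.le
  have c2 : ({n : ℕ | 1 ≤ n ∧ n ≤ N ∧ Q n}.ncard : ℝ) / N ≤ ({n : ℕ | 1 ≤ n ∧ n ≤ N ∧ P n}.ncard : ℝ) / N +
      ((n0 : ℝ) + 1) / N := by
    rw [← add_div]; exact div_le_div_of_nonneg_right b2 hNR.le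
  constructor
  · linarith [a2.1]
  · linarith [a1.2]

theorem HD_diff {A D : ℕ → Prop} {a b : ℝ} (hA : HD A a) (hD : HD D b) (h : ∀ n, 1 ≤ n → D n → A n) :
    HD (fun n => A n ∧ ¬ D n) (a - b) := by
  unfold HD at *
  refine (hA.sub hD).congr fun N => ?_
  have h1 : {n : ℕ | 1 ≤ n ∧ n ≤ N ∧ A n} = {n : ℕ | 1 ≤ n ∧ n ≤ N ∧ D n} ∪
      {n : ℕ | 1 ≤ n ∧ n ≤ N ∧ (A n ∧ ¬ D n)} := by
    ext n
    constructor
    · rintro ⟨h1, h2, h3⟩
      by_cases h4 : D n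
      · exact Or.inl ⟨h1, h2, h4⟩
      · exact Or.inr ⟨h1, h2, h3, h4⟩
    · rintro (⟨h1, h2, h3⟩ | ⟨h1, h2, h3, _⟩)
      · exact ⟨h1, h2, h n h1 h3⟩
      · exact ⟨h1, h2, h3⟩
  have h2 : Disjoint {n : ℕ | 1 ≤ n ∧ n ≤ N ∧ D n} {n : ℕ | 1 ≤ n ∧ n ≤ N ∧ (A n ∧ ¬ D n)} := by
    rw [Set.disjoint_left]
    rintro n h3 h4
    exact h4.2.2.2 h3.2.2
  have h3 := Set.ncard_union_eq h2 (fin_le _ N) (fin_le _ N)
  rw [← h1] at h3
  rw [h3]
  push_cast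
  ring

theorem HD_zero_count {P : ℕ → Prop} (h : HD P 0) {ε : ℝ} (hε : 0 < ε) : ∃ N0 : ℕ, ∀ N ≥ N0,
    ({n : ℕ | 1 ≤ n ∧ n ≤ N ∧ P n}.ncard : ℝ) ≤ ε * N := by
  unfold HD at h
  obtain ⟨N0, h0⟩ := eventually_atTop.1 (h.eventually (gt_mem_nhds hε))
  refine ⟨max N0 1, fun N hN => ?_⟩
  have h1 := h0 N ((le_max_left _ _).trans hN)
  have hN1 : 1 ≤ N := (le_max_right _ _).trans hN
  have hNR : (0 : ℝ) < N := by exact_mod_cast hN1
  rw [div_lt_iff₀ hNR] at h1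
  exact h1.le

theorem bound_le (x : ℝ) : ∀ᶠ n : ℕ in atTop,
    3 / Real.log (4 / 3) * Real.log n + x * (Real.log 6 * Real.sqrt (2 * Real.log n / Real.log (4 / 3) ^ 3))
      ≤ n := by
  set κ := 3 / Real.log (4 / 3) with hκ
  have hL : 0 < Real.log (4 / 3) := Real.log_pos (by norm_num)
  have h6 : 0 < Real.log 6 := Real.log_pos (by norm_num)
  set M := |x| * Real.log 6 with hM
  have hM0 : 0 ≤ M := by positivity
  set A := 2 / Real.log (4 / 3) ^ 3 with hA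
  have hA0 : 0 < A := by positivity
  have ht : Tendsto (fun n : ℕ => Real.log (n : ℝ)) atTop atTop :=
    Real.tendsto_log_atTop.comp tendsto_natCast_atTop_atTop
  have h1 := (Real.isLittleO_log_id_atTop.bound (c := 1 / (κ + 1)) (by positivity))
  have h2 := tendsto_natCast_atTop_atTop (R := ℝ) |>.eventually h1
  filter_upwards [ht.eventually_ge_atTop (M ^ 2 * A), ht.eventually_ge_atTop 0, h2,
    eventually_ge_atTop 1] with n h1 h2 h3 h4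
  have hn : (0 : ℝ) < n := by exact_mod_cast h4
  rw [Real.norm_eq_abs, Real.norm_eq_abs, id, abs_of_pos hn, div_mul_eq_mul_div, one_mul,
    le_div_iff₀ (by positivity)] at h3
  set t := Real.log (n : ℝ) with htt
  have h5' := le_abs_self t
  have h3' : 2 * t / Real.log (4 / 3) ^ 3 = A * t := by rw [hA]; ring
  rw [h3']
  have h4' : M * Real.sqrt (A * t) ≤ t := by
    have h5 : M * Real.sqrt (A * t) = Real.sqrt (M ^ 2 * (A * t)) := by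
      rw [Real.sqrt_mul (sq_nonneg M) (A * t), Real.sqrt_sq hM0]
    rw [h5]
    apply Real.sqrt_le_iff.2
    refine ⟨by positivity, ?_⟩
    nlinarith
  have h5 : x * (Real.log 6 * Real.sqrt (A * t)) ≤ M * Real.sqrt (A * t) := by
    rw [hM, mul_assoc]
    apply mul_le_mul_of_nonneg_right (le_abs_self x) (by positivity)
  have h7 : |t| * (κ + 1) = κ * |t| + |t| := by ring
  rw [abs_of_nonneg h2] at h3 h7
  linarith

/-- the exceptions and the finite exceptions -/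
theorem exc : ∃ δ : ℝ, 0 ≤ δ ∧ δ < 1 ∧ (δ = 0 ↔ ∀ n : ℕ, 1 ≤ n → ∃ k : ℕ, Cn^[k] n = 1) ∧
    HD (fun n => ¬ ∃ k : ℕ, k ≤ n ∧ Cn^[k] n = 1) δ ∧
    HD (fun n => (∃ k : ℕ, Cn^[k] n = 1) ∧ ¬ ∃ k : ℕ, k ≤ n ∧ Cn^[k] n = 1) 0 := by
  obtain ⟨δ, hδ0, hδ1, hiff, hB, hlaw⟩ := Pool.Agent.H499R2.LT.law_oneC
  have hB' : HD (fun n => ∃ k, Cn^[k] n = 1) δ := hB
  have key : HD (fun n => ∃ k : ℕ, k ≤ n ∧ Cn^[k] n = 1) δ := by
    apply HD_of hB' (fun n ⟨k, _, hk⟩ => ⟨k, hk⟩)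
    intro ε hε
    have hPhi := ProbabilityTheory.tendsto_cdf_atTop (ProbabilityTheory.gaussianReal 0 1)
    have h1 : Tendsto (fun x => δ * ProbabilityTheory.cdf (ProbabilityTheory.gaussianReal 0 1) x) atTop
        (𝓝 (δ * 1)) := hPhi.const_mul δ
    rw [mul_one] at h1
    obtain ⟨x, hx⟩ := (h1.eventually (lt_mem_nhds (by linarith : δ - ε < δ))).exists
    have h2 := hlaw 1 0 0 le_rfl x
    refine ⟨_, _, h2, ?_, ?_⟩
    · push_cast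
      rw [one_pow, div_one]
      exact hx
    · filter_upwards [bound_le x] with n h3
      rintro ⟨k, hk, ⟨hk1, _⟩, _⟩
      exact ⟨k, by exact_mod_cast hk.trans h3, hk1⟩
  refine ⟨1 - δ, by linarith, by linarith, ?_, HD_not key, ?_⟩
  · constructor
    · intro h
      exact hiff.1 (by linarith)
    · intro h
      have := hiff.2 h
      linarith
  · have := HD_diff hB' key (fun n _ ⟨k, _, hk⟩ => ⟨k, hk⟩)
    rwa [sub_self] at this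

end Pool.Agent.V11201.SH
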