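import Pool.Agent.V11201.SH.E

/-! Even shifts and heights. -/

set_option autoImplicit false

namespace Pool.Agent.V11201.SH

open Finset Filter Topology
open Pool.Agent.H499R2.CO (HD HD_congr HD_not Cn)
open Pool.Agent.H499R2.ND (Tn IsHt)
open Pool.Agent.H499R2.LT (odn)

theorem Rate_two {R : ℕ → ℕ → Prop} {C : ℝ} (hC : 0 < C) (h : Rate R C) :
    Rate (fun n j => R n (2 * j)) (2 * C) := by
  intro N hN j hj
  refine (h N hN (2 * j) (by omega)).trans ?_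
  have hlam := lam_pos hN
  have hj0 : (0 : ℝ) ≤ j := by positivity
  have h1 : Real.log (1 + ((2 * j : ℕ) : ℝ)) ≤ 1 + Real.log (1 + (j : ℝ)) := by
    have h2 : Real.log (1 + ((2 * j : ℕ) : ℝ)) ≤ Real.log (2 * (1 + (j : ℝ))) := by
      apply Real.log_le_log (by positivity)
      push_cast; linarith
    rw [Real.log_mul (by norm_num) (by positivity)] at h2
    have := Real.log_two_lt_d9
    linarith
  have hlog : 0 ≤ Real.log (1 + (j : ℝ)) := Real.log_nonneg (by linarith)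
  have h3 : √ ((1 + Real.log (1 + ((2 * j : ℕ) : ℝ))) * lam N) ≤ 2 * √ ((1 + Real.log (1 + (j : ℝ))) * lam N) := by
    rw [Real.sqrt_le_left (by positivity)]
    rw [mul_pow, Real.sq_sqrt (by positivity)]
    nlinarith
  calc C * √ ((1 + Real.log (1 + ((2 * j : ℕ) : ℝ))) * lam N) * N
      ≤ C * (2 * √ ((1 + Real.log (1 + (j : ℝ))) * lam N)) * N := by
        apply mul_le_mul_of_nonneg_right _ (by positivity)
        exact mul_le_mul_of_nonneg_left h3 hC.le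
    _ = 2 * C * √ ((1 + Real.log (1 + (j : ℝ))) * lam N) * N := by ring

theorem window_two {R : ℕ → ℕ → Prop}
    (h : ∀ ε : ℝ, 0 < ε → ∃ θ : ℝ, 0 < θ ∧ ∃ N0 : ℕ, ∀ N ≥ N0, ∀ j : ℕ,
      (j : ℝ) ≤ (N : ℝ) ^ θ → ({n : ℕ | 1 ≤ n ∧ n ≤ N ∧ R n j}.ncard : ℝ) ≤ ε * N) :
    ∀ ε : ℝ, 0 < ε → ∃ θ : ℝ, 0 < θ ∧ ∃ N0 : ℕ, ∀ N ≥ N0, ∀ j : ℕ,
      (j : ℝ) ≤ (N : ℝ) ^ θ → ({n : ℕ | 1 ≤ n ∧ n ≤ N ∧ R n (2 * j)}.ncard : ℝ) ≤ ε * N := by
  intro ε hε
  obtain ⟨θ, hθ, N0, h1⟩ := h ε hε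
  have ht : Tendsto (fun N : ℕ => (N : ℝ) ^ (θ / 2)) atTop atTop :=
    (tendsto_rpow_atTop (by positivity)).comp tendsto_natCast_atTop_atTop
  obtain ⟨N1, hN1⟩ := eventually_atTop.1 (ht.eventually_ge_atTop 2)
  refine ⟨θ / 2, by positivity, max N0 N1, fun N hN j hj => h1 N ((le_max_left _ _).trans hN) (2 * j) ?_⟩
  have h2 := hN1 N ((le_max_right _ _).trans hN)
  push_cast
  calc 2 * (j : ℝ) ≤ (N : ℝ) ^ (θ / 2) * (N : ℝ) ^ (θ / 2) :=
        mul_le_mul h2 hj (by positivity) (by positivity)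
    _ = (N : ℝ) ^ θ := by
        rw [← sq, ← Real.rpow_natCast, ← Real.rpow_mul (by positivity)]
        congr 1
        push_cast; ring

theorem Same_one {m : ℕ} (h : Same m 1) : m = 1 :=
  (h 0).1.2 ⟨rfl, fun i hi => by omega⟩ |>.1

theorem ht_same {m n : ℕ} (hm : m % 2 = 1) (hn : n % 2 = 1) (hmn : m ≠ n) (h : Same m n) (k : ℕ) :
    IsHt m k ↔ IsHt n k := by
  have hn1 : n ≠ 1 := by
    rintro rfl
    exact hmn (Same_one h)
  have hm1 : m ≠ 1 := by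
    rintro rfl
    have h1 : Hit 0 n := (h 0).1.1 ⟨rfl, fun i hi => by omega⟩
    exact hn1 h1.1
  rw [Pool.Agent.H499R2.HL.ht_H hm hm1, Pool.Agent.H499R2.HL.ht_H hn hn1]
  constructor
  · rintro ⟨t, ht, ho⟩
    have h2 : Hit t n := (h t).1.1 ht
    exact ⟨t, h2, by rw [← ho, (h t).2 h2]⟩
  · rintro ⟨t, ht, ho⟩
    have h2 : Hit t m := (h t).1.2 ht
    exact ⟨t, h2, by rw [(h t).2 ht]; exact ho⟩

/-- averages of bounded functions which seldom change -/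
theorem avg_close {H : ℕ} (hH : 1 ≤ H) {a : ℕ → ℝ} {b ε : ℝ} (ha : ∀ j, 0 ≤ a j ∧ a j ≤ 1)
    (hb : 0 ≤ b ∧ b ≤ 1) {B : Set ℕ} (hB : ∀ j, 1 ≤ j → j ≤ H → j ∉ B → a j = b)
    (hc : ({j : ℕ | 1 ≤ j ∧ j ≤ H ∧ j ∈ B}.ncard : ℝ) ≤ ε * H) :
    |(∑ j ∈ Icc 1 H, a j) / H - b| ≤ ε := by
  classical
  have hHr : (0 : ℝ) < H := by exact_mod_cast hH
  have e : (∑ j ∈ Icc 1 H, a j) / H - b = (∑ j ∈ Icc 1 H, (a j - b)) / H := by
    rw [sum_sub_distrib, sum_const, Nat.card_Icc, Nat.add_sub_cancel, nsmul_eq_mul]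
    field_simp
  rw [e, abs_div, abs_of_pos hHr, div_le_iff₀ hHr]
  refine le_trans ?_ hc
  calc |∑ j ∈ Icc 1 H, (a j - b)| ≤ ∑ j ∈ Icc 1 H, |a j - b| := abs_sum_le_sum_abs _ _
    _ ≤ ∑ j ∈ Icc 1 H, (if j ∈ B then (1 : ℝ) else 0) := by
        apply sum_le_sum
        intro j hj
        rw [mem_Icc] at hj
        split_ifs with h1
        · rw [abs_le]
          have := ha j
          constructor <;> linarith [hb.1, hb.2]
        · rw [hB j hj.1 hj.2 h1, sub_self, abs_zero]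
    _ = ({j : ℕ | 1 ≤ j ∧ j ≤ H ∧ j ∈ B}.ncard : ℝ) := by
        rw [Pool.Agent.H499R2.CO.ncard_filter, card_filter]
        push_cast
        rfl

end Pool.Agent.V11201.SH
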