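import Pool.Agent.V11201.SH.G

/-! Solid predecessor sets, sufficient sets and finite sets for the `3x+d` maps. -/

set_option autoImplicit false

namespace Pool.Agent.V11201.SH

open Finset Filter Topology
open Pool.Agent.H499R2.CO (Tz ncard_filter HD)

/-- the number of the `1 ≤ j ≤ H` for which `a` is not in the orbit of `x + d j` -/
noncomputable def misses (d a x : ℤ) (H : ℕ) : ℕ :=
  {j : ℕ | 1 ≤ j ∧ j ≤ H ∧ ¬ ∃ i, (Tz d)^[i] (x + d * j) = a}.ncard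

theorem misses_le {d : ℤ} (hd : d % 2 = 1) {N : ℕ} {x a : ℤ}
    (hx : (N : ℤ) * (|a| + |d|) ^ 2 < x ^ 2) (ha : ∃ i, (Tz d)^[i] x = a) (H : ℕ) :
    misses d a x H ≤ apart d N x H := by
  unfold misses apart
  apply Set.ncard_le_ncard
  · rintro j ⟨h1, h2, h3⟩
    exact ⟨h1, h2, fun h4 => h3 (hit_after hd hx ha h4)⟩
  · exact fin_le _ H

theorem small_count (N K : ℕ) : ({n : ℕ | 1 ≤ n ∧ n ≤ N ∧ n ^ 2 ≤ N * K ^ 2}.ncard : ℝ) ≤ K * √ (N : ℝ) := by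
  have hsub : {n : ℕ | 1 ≤ n ∧ n ≤ N ∧ n ^ 2 ≤ N * K ^ 2} ⊆
      ((Finset.Icc 1 (Nat.sqrt (N * K ^ 2)) : Finset ℕ) : Set ℕ) := by
    rintro n ⟨h1, _, h2⟩
    rw [Finset.coe_Icc]
    exact ⟨h1, Nat.le_sqrt.2 (by rw [← sq]; exact h2)⟩
  have h1 := Set.ncard_le_ncard hsub (Finset.finite_toSet _)
  rw [Set.ncard_coe_finset, Nat.card_Icc, Nat.add_sub_cancel] at h1
  have h2 : (Nat.sqrt (N * K ^ 2) : ℝ) ≤ √ (((N * K ^ 2 : ℕ)) : ℝ) := Real.nat_sqrt_le_real_sqrt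
  have h3 : √ (((N * K ^ 2 : ℕ)) : ℝ) = K * √ (N : ℝ) := by
    push_cast
    rw [Real.sqrt_mul (by positivity), Real.sqrt_sq (by positivity), mul_comm]
  rw [h3] at h2
  have h4 : ({n : ℕ | 1 ≤ n ∧ n ≤ N ∧ n ^ 2 ≤ N * K ^ 2}.ncard : ℝ) ≤ (Nat.sqrt (N * K ^ 2) : ℝ) := by
    exact_mod_cast h1
  exact h4.trans h2

/-- Solid predecessor sets. -/
theorem solid_pred : ∃ c : ℝ, 0 < c ∧ ∀ (M : ℕ) (ε : ℝ), 1 ≤ M → 0 < ε → ∃ θ : ℝ, 0 < θ ∧ ∃ N0 : ℕ, ∀ N ≥ N0,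
    ∀ d a : ℤ, d % 2 = 1 → ¬ (3 : ℤ) ∣ d → ¬ (3 : ℤ) ∣ a → |a| ≤ M → |d| ≤ M →
    ∀ s : ℤ, s = 1 ∨ s = -1 → 0 < s * a → ∀ H : ℕ, (H : ℝ) ≤ (N : ℝ) ^ θ →
      c / M * N ≤ ({n : ℕ | 1 ≤ n ∧ n ≤ N ∧ (∃ i, (Tz d)^[i] (s * n) = a) ∧
        (misses d a (s * n) H : ℝ) ≤ ε * H}.ncard : ℝ) := by
  obtain ⟨c, hc, hpred⟩ := pred_count
  refine ⟨c / 2, by positivity, fun M ε hM hε => ?_⟩
  have hMr : (0 : ℝ) < M := by exact_mod_cast hM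
  obtain ⟨θ, hθ, N0, hw⟩ := apart_window (ε := min ε (c / (4 * M))) (by positivity)
  obtain ⟨N1, hN1⟩ := exists_nat_gt ((8 * M ^ 2 / c : ℝ) ^ 2)
  refine ⟨θ, hθ, max (max N0 M) (max N1 1), fun N hN d a hd hd3 ha haM hdM s hs hsa H hH => ?_⟩
  have hN0 : N0 ≤ N := ((le_max_left _ _).trans (le_max_left _ _)).trans hN
  have hNM : M ≤ N := ((le_max_right _ _).trans (le_max_left _ _)).trans hN
  have hNN1 : N1 ≤ N := ((le_max_left _ _).trans (le_max_right _ _)).trans hN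
  have hNpos : (0 : ℝ) < N := by
    have : 0 < N := lt_of_lt_of_le (by norm_num) (((le_max_right _ _).trans (le_max_right _ _)).trans hN)
    exact_mod_cast this
  have h1 := hw N hN0 d hd s hs H hH
  have h2 := hpred d a hd hd3 ha s hs hsa M N (by exact_mod_cast haM) (by exact_mod_cast hdM)
    (by exact_mod_cast hNM)
  have h3 := small_count N (2 * M)
  have hsub : {n : ℕ | 1 ≤ n ∧ n ≤ N ∧ ∃ i, (Tz d)^[i] (s * n) = a} ⊆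
      ({n : ℕ | 1 ≤ n ∧ n ≤ N ∧ (∃ i, (Tz d)^[i] (s * n) = a) ∧ (misses d a (s * n) H : ℝ) ≤ ε * H} ∪
      {n : ℕ | 1 ≤ n ∧ n ≤ N ∧ min ε (c / (4 * M)) * H < apart d N (s * n) H}) ∪
      {n : ℕ | 1 ≤ n ∧ n ≤ N ∧ n ^ 2 ≤ N * (2 * M) ^ 2} := by
    rintro n ⟨b1, b2, b3⟩
    by_cases h4 : n ^ 2 ≤ N * (2 * M) ^ 2
    · exact Or.inr ⟨b1, b2, h4⟩
    left
    by_cases h5 : min ε (c / (4 * M)) * H < apart d N (s * n) H
    · exact Or.inr ⟨b1, b2, h5⟩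
    left
    refine ⟨b1, b2, b3, ?_⟩
    have h6 : (N : ℤ) * (|a| + |d|) ^ 2 < (s * (n : ℤ)) ^ 2 := by
      have h7 : (s * (n : ℤ)) ^ 2 = (n : ℤ) ^ 2 := by
        rcases hs with rfl | rfl <;> ring
      rw [h7]
      have h8 : (|a| + |d|) ^ 2 ≤ (2 * (M : ℤ)) ^ 2 :=
        pow_le_pow_left₀ (by positivity) (by linarith) 2
      have h9 : (N : ℤ) * (|a| + |d|) ^ 2 ≤ N * (2 * (M : ℤ)) ^ 2 :=
        mul_le_mul_of_nonneg_left h8 (by positivity)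
      have h10 : ((N * (2 * M) ^ 2 : ℕ) : ℤ) < ((n ^ 2 : ℕ) : ℤ) := by exact_mod_cast not_le.1 h4
      push_cast at h10
      linarith
    have h7 := misses_le hd h6 b3 H
    have h8 : (misses d a (s * n) H : ℝ) ≤ apart d N (s * n) H := by exact_mod_cast h7
    have h9 : min ε (c / (4 * M)) * (H : ℝ) ≤ ε * H := mul_le_mul_of_nonneg_right (min_le_left _ _) (by positivity)
    linarith [not_lt.1 h5]
  have h4 := (Set.ncard_le_ncard hsub (((fin_le _ N).union (fin_le _ N)).union (fin_le _ N))).trans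
    (Set.ncard_union_le _ _)
  have h5 := Set.ncard_union_le
    {n : ℕ | 1 ≤ n ∧ n ≤ N ∧ (∃ i, (Tz d)^[i] (s * n) = a) ∧ (misses d a (s * n) H : ℝ) ≤ ε * H}
    {n : ℕ | 1 ≤ n ∧ n ≤ N ∧ min ε (c / (4 * M)) * H < apart d N (s * n) H}
  have h6 : ({n : ℕ | 1 ≤ n ∧ n ≤ N ∧ ∃ i, (Tz d)^[i] (s * n) = a}.ncard : ℝ) ≤
      ({n : ℕ | 1 ≤ n ∧ n ≤ N ∧ (∃ i, (Tz d)^[i] (s * n) = a) ∧
        (misses d a (s * n) H : ℝ) ≤ ε * H}.ncard : ℝ) +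
      ({n : ℕ | 1 ≤ n ∧ n ≤ N ∧ min ε (c / (4 * M)) * H < apart d N (s * n) H}.ncard : ℝ) +
      ({n : ℕ | 1 ≤ n ∧ n ≤ N ∧ n ^ 2 ≤ N * (2 * M) ^ 2}.ncard : ℝ) := by
    exact_mod_cast h4.trans (Nat.add_le_add_right h5 _)
  have h7 : min ε (c / (4 * M)) * (N : ℝ) ≤ c / (4 * M) * N :=
    mul_le_mul_of_nonneg_right (min_le_right _ _) (by positivity)
  have h8 : ((2 * M : ℕ) : ℝ) * √ (N : ℝ) ≤ c / (4 * M) * N := by
    have h9 : 8 * (M : ℝ) ^ 2 / c ≤ √ (N : ℝ) := by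
      apply Real.le_sqrt_of_sq_le
      have : (N1 : ℝ) ≤ N := by exact_mod_cast hNN1
      linarith
    rw [div_le_iff₀ hc] at h9
    have h10 : √ (N : ℝ) * √ (N : ℝ) = N := Real.mul_self_sqrt hNpos.le
    have h11 : c / (4 * M) * N = c * √ (N : ℝ) / (4 * M) * √ (N : ℝ) := by
      conv_lhs => rw [← h10]
      ring
    rw [h11]
    apply mul_le_mul_of_nonneg_right _ (Real.sqrt_nonneg _)
    rw [le_div_iff₀ (by positivity)]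
    push_cast
    nlinarith
  have h9 : c / 2 / M * (N : ℝ) = c / M * N - c / (4 * M) * N - c / (4 * M) * N := by
    field_simp
    ring
  rw [h9]
  linarith

/-- `S` contains a positive proportion of most progressions `s n + d, ..., s n + d H` -/
def SpreadD (d s : ℤ) (S : Set ℤ) : Prop :=
  ∀ ε : ℝ, 0 < ε → ∃ c : ℝ, 0 < c ∧ ∀ θ : ℝ, 0 < θ → ∃ᶠ N : ℕ in atTop,
    ({n : ℕ | 1 ≤ n ∧ n ≤ N ∧ (({j : ℕ | 1 ≤ j ∧ j ≤ ⌊(N : ℝ) ^ θ⌋₊ ∧ s * (n : ℤ) + d * j ∈ S}.ncard : ℕ) : ℝ) <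
      c * ⌊(N : ℝ) ^ θ⌋₊}.ncard : ℝ) ≤ ε * N

/-- every integer prime to `3` is in the orbit of an element of a spread set -/
theorem spread_hit {d a s : ℤ} (hd : d % 2 = 1) (hd3 : ¬ (3 : ℤ) ∣ d) (ha : ¬ (3 : ℤ) ∣ a)
    (hs : s = 1 ∨ s = -1) (hsa : 0 < s * a) {S : Set ℤ} (hS : SpreadD d s S) :
    ∃ x ∈ S, ∃ i, (Tz d)^[i] x = a := by
  obtain ⟨c0, hc0, hsol⟩ := solid_pred
  obtain ⟨M, hM1, haM, hdM⟩ : ∃ M : ℕ, 1 ≤ M ∧ |a| ≤ M ∧ |d| ≤ M :=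
    ⟨a.natAbs + d.natAbs + 1, by omega, by
      have h1 := abs_nonneg d
      push_cast
      linarith, by
      have h1 := abs_nonneg a
      push_cast
      linarith⟩
  have hMr : (0 : ℝ) < M := by exact_mod_cast hM1
  obtain ⟨c, hc, hsp⟩ := hS (c0 / M / 2) (by positivity)
  obtain ⟨θ, hθ, N0, h1⟩ := hsol M (c / 2) hM1 (by positivity)
  obtain ⟨N, h2, hN⟩ := ((hsp θ hθ).and_eventually (eventually_ge_atTop (max N0 1))).exists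
  have hN0 : N0 ≤ N := (le_max_left _ _).trans hN
  have hN1 : 1 ≤ N := (le_max_right _ _).trans hN
  have hNpos : (0 : ℝ) < N := by exact_mod_cast hN1
  have h3 := h1 N hN0 d a hd hd3 ha haM hdM s hs hsa ⌊(N : ℝ) ^ θ⌋₊ (Nat.floor_le (by positivity))
  set H := ⌊(N : ℝ) ^ θ⌋₊ with hH
  have hH1 : 1 ≤ H := by
    rw [hH, Nat.one_le_floor_iff]
    exact Real.one_le_rpow (by exact_mod_cast hN1) hθ.le
  have hHr : (0 : ℝ) < H := by exact_mod_cast hH1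
  have h4 : ∃ n ∈ {n : ℕ | 1 ≤ n ∧ n ≤ N ∧ (∃ i, (Tz d)^[i] (s * n) = a) ∧
      (misses d a (s * n) H : ℝ) ≤ c / 2 * H},
      n ∉ {n : ℕ | 1 ≤ n ∧ n ≤ N ∧ (({j : ℕ | 1 ≤ j ∧ j ≤ H ∧ s * (n : ℤ) + d * j ∈ S}.ncard : ℕ) : ℝ) <
        c * H} := by
    by_contra hcon
    push Not at hcon
    have h5 := Set.ncard_le_ncard hcon (fin_le _ N)
    have h6 : ({n : ℕ | 1 ≤ n ∧ n ≤ N ∧ (∃ i, (Tz d)^[i] (s * n) = a) ∧
      (misses d a (s * n) H : ℝ) ≤ c / 2 * H}.ncard : ℝ) ≤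
      ({n : ℕ | 1 ≤ n ∧ n ≤ N ∧ (({j : ℕ | 1 ≤ j ∧ j ≤ H ∧ s * (n : ℤ) + d * j ∈ S}.ncard : ℕ) : ℝ) <
        c * H}.ncard : ℝ) := by exact_mod_cast h5
    have h7 : 0 < c0 / M * N := by positivity
    linarith
  obtain ⟨n, ⟨h5, h6, h7, h8⟩, h9⟩ := h4
  have h10 : c * H ≤ (({j : ℕ | 1 ≤ j ∧ j ≤ H ∧ s * (n : ℤ) + d * j ∈ S}.ncard : ℕ) : ℝ) := by
    by_contra hcon
    exact h9 ⟨h5, h6, not_le.1 hcon⟩
  by_contra hcon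
  push Not at hcon
  have hsub : {j : ℕ | 1 ≤ j ∧ j ≤ H ∧ s * (n : ℤ) + d * j ∈ S} ⊆
      {j : ℕ | 1 ≤ j ∧ j ≤ H ∧ ¬ ∃ i, (Tz d)^[i] (s * n + d * j) = a} := by
    rintro j ⟨a1, a2, a3⟩
    refine ⟨a1, a2, ?_⟩
    rintro ⟨i, hi⟩
    exact hcon _ a3 i hi
  have h11 := Set.ncard_le_ncard hsub (fin_le _ H)
  have h12 : (({j : ℕ | 1 ≤ j ∧ j ≤ H ∧ s * (n : ℤ) + d * j ∈ S}.ncard : ℕ) : ℝ) ≤ misses d a (s * n) H := by
    exact_mod_cast h11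
  nlinarith

end Pool.Agent.V11201.SH
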