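import Pool.Agent.V11201.SH.G2

/-! Finite sets met by all orbits. -/

set_option autoImplicit false

namespace Pool.Agent.V11201.SH

open Finset Filter Topology
open Pool.Agent.H499R2.CO (Tz ncard_filter HD)

/-- an odd step leads to an integer prime to `3` -/
theorem odd_step {d x : ℤ} (hd : d % 2 = 1) (hd3 : ¬ (3 : ℤ) ∣ d) (hx : x % 2 = 1) : ¬ (3 : ℤ) ∣ Tz d x := by
  unfold Tz
  rw [if_neg (by omega)]
  omega

theorem exists_odd (d : ℤ) : ∀ (n : ℕ) (x : ℤ), x.natAbs = n → x ≠ 0 → ∃ i, ((Tz d)^[i] x) % 2 = 1 := by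
  intro n
  induction n using Nat.strong_induction_on with
  | _ n ih =>
    intro x hx h0
    rcases Int.emod_two_eq_zero_or_one x with h | h
    · have e : Tz d x = x / 2 := by unfold Tz; rw [if_pos h]
      obtain ⟨i, hi⟩ := ih (x / 2).natAbs (by omega) (x / 2) rfl (by omega)
      refine ⟨i + 1, ?_⟩
      rw [Function.iterate_succ_apply, e]; exact hi
    · exact ⟨0, h⟩

theorem exists_prime3 {d : ℤ} (hd : d % 2 = 1) (hd3 : ¬ (3 : ℤ) ∣ d) {x : ℤ} (h0 : x ≠ 0) :
    ∃ i, ¬ (3 : ℤ) ∣ (Tz d)^[i] x := by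
  obtain ⟨i, hi⟩ := exists_odd d x.natAbs x rfl h0
  exact ⟨i + 1, by rw [Function.iterate_succ_apply']; exact odd_step hd hd3 hi⟩

/-- the orbit of `x` -/
def Orb (d x : ℤ) : Set ℤ := {y | ∃ i, (Tz d)^[i] x = y}

theorem Orb_self (d x : ℤ) : x ∈ Orb d x := ⟨0, rfl⟩

theorem Orb_trans {d x y z : ℤ} (h1 : y ∈ Orb d x) (h2 : z ∈ Orb d y) : z ∈ Orb d x := by
  obtain ⟨i, rfl⟩ := h1
  obtain ⟨j, rfl⟩ := h2
  exact ⟨j + i, by rw [Function.iterate_add_apply]⟩

/-- an infinite orbit has no repetitions -/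
theorem orb_inj {d u : ℤ} (hu : ¬ (Orb d u).Finite) {i j : ℕ} (hij : i < j) :
    (Tz d)^[i] u ≠ (Tz d)^[j] u := by
  intro h
  apply hu
  have key : ∀ n : ℕ, ∃ k < j, (Tz d)^[n] u = (Tz d)^[k] u := by
    intro n
    induction n with
    | zero => exact ⟨0, by omega, rfl⟩
    | succ n ih =>
      obtain ⟨k, hk, h1⟩ := ih
      rw [Function.iterate_succ_apply', h1, ← Function.iterate_succ_apply' (Tz d) k u]
      rcases Nat.lt_or_ge (k + 1) j with h2 | h2
      · exact ⟨k + 1, h2, rfl⟩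
      · have h3 : k + 1 = j := by omega
        refine ⟨i, hij, ?_⟩
        show (Tz d)^[k + 1] u = (Tz d)^[i] u
        rw [h3, ← h]
  apply (((Finset.range j).image fun k => (Tz d)^[k] u).finite_toSet).subset
  rintro y ⟨n, rfl⟩
  obtain ⟨k, hk, h1⟩ := key n
  rw [Finset.mem_coe, Finset.mem_image]
  exact ⟨k, Finset.mem_range.2 hk, h1.symm⟩

theorem orb_injective {d u : ℤ} (hu : ¬ (Orb d u).Finite) : Function.Injective fun i => (Tz d)^[i] u := by
  intro i j h
  rcases lt_trichotomy i j with h1 | h1 | h1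
  · exact absurd h (orb_inj hu h1)
  · exact h1
  · exact absurd h.symm (orb_inj hu h1)

/-- infinitely many odd terms -/
theorem odd_terms {d u : ℤ} (hu : ¬ (Orb d u).Finite) : {k : ℕ | ((Tz d)^[k] u) % 2 = 1}.Infinite := by
  rw [Set.infinite_iff_exists_gt]
  intro n
  have h0 : (Tz d)^[n + 1] u ≠ 0 := by
    intro h
    have h1 : (Tz d)^[n + 2] u = 0 := by
      rw [Function.iterate_succ_apply', h]; unfold Tz; simp
    exact orb_inj hu (show n + 1 < n + 2 by omega) (by rw [h, h1])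
  obtain ⟨i, hi⟩ := exists_odd d _ ((Tz d)^[n + 1] u) rfl h0
  refine ⟨i + (n + 1), ?_, by omega⟩
  rw [Set.mem_ofPred_eq, Function.iterate_add_apply]
  exact hi

/-- If no finite set is met by all orbits, then for every finite set `F` there is an integer prime to `3` such
that no orbit through it meets `F`. -/
theorem avoid {d : ℤ} (hd : d % 2 = 1) (hd3 : ¬ (3 : ℤ) ∣ d)
    (hno : ¬ ∃ F : Set ℤ, F.Finite ∧ ∀ x, ∃ y ∈ F, y ∈ Orb d x) {F : Set ℤ} (hF : F.Finite) :
    ∃ a : ℤ, ¬ (3 : ℤ) ∣ a ∧ ∀ x, a ∈ Orb d x → ∀ y ∈ F, y ∉ Orb d x := by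
  by_cases hall : ∀ x, (Orb d x).Finite
  · -- all orbits are finite
    set F' : Set ℤ := insert 0 (⋃ f ∈ F, Orb d f) with hF'
    have hfin : F'.Finite := (hF.biUnion fun f _ => hall f).insert 0
    have h1 : ∃ x0, ∀ y ∈ F', y ∉ Orb d x0 := by
      by_contra hcon
      push Not at hcon
      exact hno ⟨F', hfin, fun x => hcon x⟩
    obtain ⟨x0, hx0⟩ := h1
    have h0 : x0 ≠ 0 := by
      rintro rfl
      exact hx0 0 (Set.mem_insert _ _) (Orb_self d 0)
    obtain ⟨i, hi⟩ := exists_prime3 hd hd3 h0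
    refine ⟨(Tz d)^[i] x0, hi, fun x hx y hy hyx => ?_⟩
    obtain ⟨j, hj⟩ := hx
    obtain ⟨k, hk⟩ := hyx
    rcases Nat.le_total k j with h2 | h2
    · obtain ⟨m, rfl⟩ := Nat.exists_eq_add_of_le h2
      apply hx0 ((Tz d)^[i] x0) (Set.mem_insert_of_mem _ (Set.mem_biUnion hy ?_)) ⟨i, rfl⟩
      refine ⟨m, ?_⟩
      rw [← hj, Nat.add_comm, Function.iterate_add_apply, hk]
    · obtain ⟨m, rfl⟩ := Nat.exists_eq_add_of_le h2
      apply hx0 y (Set.mem_insert_of_mem _ (Set.mem_biUnion hy (Orb_self d y)))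
      refine ⟨m + i, ?_⟩
      rw [Function.iterate_add_apply, ← hj, ← Function.iterate_add_apply, Nat.add_comm, hk]
  · -- an infinite orbit
    push Not at hall
    obtain ⟨u, hu⟩ := hall
    have hu' : ¬ (Orb d u).Finite := hu
    have hinj := orb_injective hu'
    have hKinf := odd_terms hu'
    set b : ℕ → ℤ := fun k => 2 * (Tz d)^[k + 1] u with hb
    have hbinj : Function.Injective b := by
      intro k k' h
      have h1 : (Tz d)^[k + 1] u = (Tz d)^[k' + 1] u := by
        have : 2 * (Tz d)^[k + 1] u = 2 * (Tz d)^[k' + 1] u := h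
        omega
      have := hinj h1
      omega
    have hTb : ∀ k, Tz d (b k) = (Tz d)^[k + 1] u := by
      intro k
      have e : b k % 2 = 0 := by simp only [hb]; omega
      unfold Tz
      rw [if_pos e]
      simp only [hb]
      unfold Tz
      omega
    -- the finitely many bad `k`
    have f1 : {k : ℕ | b k ∈ F}.Finite := hF.preimage hbinj.injOn
    have f2 : {k : ℕ | (Tz d)^[k] u ∈ F}.Finite := hF.preimage hinj.injOn
    have f3 : {k : ℕ | (Tz d)^[k] u % 2 = 1 ∧ ∃ f ∈ F, b k ∈ Orb d f}.Finite := by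
      have e : {k : ℕ | (Tz d)^[k] u % 2 = 1 ∧ ∃ f ∈ F, b k ∈ Orb d f} =
          ⋃ f ∈ F, {k : ℕ | (Tz d)^[k] u % 2 = 1 ∧ b k ∈ Orb d f} := by
        ext k
        simp only [Set.mem_ofPred_eq, Set.mem_iUnion, exists_prop]
        constructor
        · rintro ⟨h1, f, hf, h2⟩; exact ⟨f, hf, h1, h2⟩
        · rintro ⟨f, hf, h1, h2⟩; exact ⟨h1, f, hf, h2⟩
      rw [e]
      apply hF.biUnion
      intro f _
      apply Set.Subsingleton.finite
      have key : ∀ k k' : ℕ, k < k' → (Tz d)^[k'] u % 2 = 1 → b k ∈ Orb d f → b k' ∈ Orb d f → False := by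
        rintro k k' hkk hk' ⟨i, hi⟩ ⟨i', hi'⟩
        have g1 : (Tz d)^[i + 1] f = (Tz d)^[k + 1] u := by
          rw [Function.iterate_succ_apply', hi, hTb]
        have g2 : (Tz d)^[i' + 1] f = (Tz d)^[k' + 1] u := by
          rw [Function.iterate_succ_apply', hi', hTb]
        rcases lt_trichotomy i i' with h1 | h1 | h1
        · obtain ⟨m, rfl⟩ := Nat.exists_eq_add_of_lt h1
          have g3 : (Tz d)^[i + m + 1] f = (Tz d)^[m + (k + 1)] u := by
            rw [show i + m + 1 = m + (i + 1) by ring, Function.iterate_add_apply, g1,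
              ← Function.iterate_add_apply]
          have g4 : (Tz d)^[i + m + 1 + 1] f = (Tz d)^[m + (k + 1) + 1] u := by
            rw [Function.iterate_succ_apply', g3, ← Function.iterate_succ_apply' (Tz d)]
          rw [g2] at g4
          have g5 := hinj g4
          have g6 : k' = m + (k + 1) := by omega
          rw [← g6, hi'] at g3
          rw [← g3] at hk'
          simp only [hb] at hk'
          omega
        · subst h1
          rw [hi] at hi'
          have := hbinj hi'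
          omega
        · obtain ⟨m, rfl⟩ := Nat.exists_eq_add_of_lt h1
          have g3 : (Tz d)^[i' + m + 1 + 1] f = (Tz d)^[m + 1 + (k' + 1)] u := by
            rw [show i' + m + 1 + 1 = m + 1 + (i' + 1) by ring, Function.iterate_add_apply, g2,
              ← Function.iterate_add_apply]
          rw [g1] at g3
          have g5 := hinj g3
          omega
      intro k hk k' hk'
      rcases lt_trichotomy k k' with h1 | h1 | h1
      · exact (key k k' h1 hk'.1 hk.2 hk'.2).elim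
      · exact h1
      · exact (key k' k h1 hk.1 hk'.2 hk.2).elim
    -- beyond the last visit of `u` to `F`
    obtain ⟨K0, hK0⟩ := f2.bddAbove
    obtain ⟨k, hk, hkbad⟩ := hKinf.exists_notMem_finite
      ((f1.union f3).union (Set.finite_Iic K0))
    simp only [Set.mem_union, Set.mem_Iic, not_or, not_le] at hkbad
    obtain ⟨⟨hk1, hk3⟩, hk2⟩ := hkbad
    have hodd : (Tz d)^[k] u % 2 = 1 := hk
    refine ⟨b k, ?_, fun x hx y hy hyx => ?_⟩
    · have h1 : ¬ (3 : ℤ) ∣ (Tz d)^[k + 1] u := by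
        rw [Function.iterate_succ_apply']; exact odd_step hd hd3 hodd
      simp only [hb]
      omega
    · obtain ⟨j, hj⟩ := hx
      obtain ⟨i, hi⟩ := hyx
      rcases lt_trichotomy i j with h2 | h2 | h2
      · obtain ⟨m, rfl⟩ := Nat.exists_eq_add_of_le h2.le
        exact hk3 ⟨hodd, y, hy, m, by rw [← hj, Nat.add_comm, Function.iterate_add_apply, hi]⟩
      · subst h2
        rw [hj] at hi
        apply hk1
        show b k ∈ F
        rw [hi]; exact hy
      · obtain ⟨m, rfl⟩ := Nat.exists_eq_add_of_lt h2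
        have h3 : (Tz d)^[m + (k + 1)] u = y := by
          rw [← hi, show j + m + 1 = m + (j + 1) by ring, Function.iterate_add_apply,
            Function.iterate_add_apply (Tz d) m (j + 1), Function.iterate_succ_apply' (Tz d) j, hj, hTb]
        have h4 := hK0 (show m + (k + 1) ∈ {k : ℕ | (Tz d)^[k] u ∈ F} by
          rw [Set.mem_ofPred_eq, h3]; exact hy)
        omega

/-- a finite set for a spread set gives a finite set for all integers -/
theorem finite_set {d : ℤ} (hd : d % 2 = 1) (hd3 : ¬ (3 : ℤ) ∣ d) {S : Set ℤ}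
    (hS : ∀ s : ℤ, s = 1 ∨ s = -1 → SpreadD d s S) {F : Set ℤ} (hF : F.Finite)
    (hSF : ∀ x ∈ S, ∃ y ∈ F, y ∈ Orb d x) : ∃ F : Set ℤ, F.Finite ∧ ∀ x, ∃ y ∈ F, y ∈ Orb d x := by
  by_contra hno
  obtain ⟨a, ha, hav⟩ := avoid hd hd3 hno hF
  have ha0 : a ≠ 0 := by rintro rfl; exact ha (dvd_zero _)
  obtain ⟨s, hs, hsa⟩ : ∃ s : ℤ, (s = 1 ∨ s = -1) ∧ 0 < s * a := by
    rcases lt_or_gt_of_ne ha0 with h | h
    · exact ⟨-1, Or.inr rfl, by omega⟩
    · exact ⟨1, Or.inl rfl, by omega⟩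
  obtain ⟨x, hx, i, hi⟩ := spread_hit hd hd3 ha hs hsa (hS s hs)
  obtain ⟨y, hy, hyx⟩ := hSF x hx
  exact hav x ⟨i, hi⟩ y hy hyx

end Pool.Agent.V11201.SH
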