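import Pool.Agent.V11201.SH.B

/-! A maximal inequality for equivalence relations: all scales up to a power at once. -/

set_option autoImplicit false

namespace Pool.Agent.V11201.SH

open Finset Filter Topology
open Pool.Agent.H499R2.CO (HD ncard_filter)

open Classical in
/-- The covering lemma. -/
theorem cover (B : Finset ℕ) {ε : ℝ} (hε : 0 < ε) (W : ℕ) :
    ε * #{i ∈ range (W + 1) | ∃ H : ℕ, 1 ≤ H ∧ i + H ≤ W ∧ ε * H < #{b ∈ B | i < b ∧ b ≤ i + H}} ≤ #B := by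
  set U : Finset ℕ := {i ∈ range (W + 1) | ∃ H : ℕ, 1 ≤ H ∧ i + H ≤ W ∧ ε * H < #{b ∈ B | i < b ∧ b ≤ i + H}}
    with hU
  have key : ∀ n m : ℕ, W + 1 ≤ m + n → ε * #{i ∈ U | m ≤ i} ≤ #{b ∈ B | m < b} := by
    intro n
    induction n using Nat.strong_induction_on with
    | _ n ih =>
      intro m hm
      rcases Nat.lt_or_ge W m with h1 | h1
      · have e : ({i ∈ U | m ≤ i} : Finset ℕ) = ∅ := by
          apply filter_eq_empty_iff.2
          intro i hi
          rw [hU, mem_filter, mem_range] at hi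
          omega
        rw [e]; simp
      · by_cases hmU : m ∈ U
        · have hmU' := hmU
          rw [hU, mem_filter] at hmU'
          obtain ⟨_, H, h2, h3, h4⟩ := hmU'
          have h5 := ih (n - H) (by omega) (m + H) (by omega)
          have h6 : #{i ∈ U | m ≤ i} ≤ H + #{i ∈ U | m + H ≤ i} := by
            have hsub : ({i ∈ U | m ≤ i} : Finset ℕ) ⊆ Ico m (m + H) ∪ {i ∈ U | m + H ≤ i} := by
              intro i hi
              rw [mem_filter] at hi
              rw [mem_union, mem_Ico, mem_filter]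
              rcases Nat.lt_or_ge i (m + H) with h7 | h7
              · exact Or.inl ⟨hi.2, h7⟩
              · exact Or.inr ⟨hi.1, h7⟩
            have h7 := (card_le_card hsub).trans (card_union_le _ _)
            rwa [Nat.card_Ico, Nat.add_sub_cancel_left] at h7
          have h7 : #{b ∈ B | m < b ∧ b ≤ m + H} + #{b ∈ B | m + H < b} ≤ #{b ∈ B | m < b} := by
            rw [← card_union_of_disjoint]
            · apply card_le_card
              intro b hb
              rw [mem_union, mem_filter, mem_filter] at hb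
              rw [mem_filter]
              rcases hb with hb | hb
              · exact ⟨hb.1, hb.2.1⟩
              · exact ⟨hb.1, by omega⟩
            · rw [Finset.disjoint_left]
              intro b hb hb'
              rw [mem_filter] at hb hb'
              omega
          have h6' : (#{i ∈ U | m ≤ i} : ℝ) ≤ H + #{i ∈ U | m + H ≤ i} := by exact_mod_cast h6
          have h7' : (#{b ∈ B | m < b ∧ b ≤ m + H} : ℝ) + #{b ∈ B | m + H < b} ≤ #{b ∈ B | m < b} := by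
            exact_mod_cast h7
          have h8 : ε * #{i ∈ U | m ≤ i} ≤ ε * (H + #{i ∈ U | m + H ≤ i}) :=
            mul_le_mul_of_nonneg_left h6' hε.le
          rw [mul_add] at h8
          linarith
        · rcases n with _ | n
          · omega
          · have h5 := ih n (by omega) (m + 1) (by omega)
            have e : ({i ∈ U | m ≤ i} : Finset ℕ) = {i ∈ U | m + 1 ≤ i} := by
              apply filter_congr
              intro i hi
              constructor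
              · intro h6
                have : i ≠ m := by rintro rfl; exact hmU hi
                omega
              · intro h6; omega
            rw [e]
            refine h5.trans ?_
            have : #{b ∈ B | m + 1 < b} ≤ #{b ∈ B | m < b} := by
              apply card_le_card
              intro b hb
              rw [mem_filter] at hb ⊢
              exact ⟨hb.1, by omega⟩
            exact_mod_cast this
  have h1 := key (W + 1) 0 (by omega)
  have e : ({i ∈ U | 0 ≤ i} : Finset ℕ) = U := filter_true_of_mem (fun i _ => Nat.zero_le i)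
  rw [e] at h1
  refine h1.trans ?_
  have : #{b ∈ B | 0 < b} ≤ #B := card_filter_le _ _
  exact_mod_cast this

/-- the number of the `1 ≤ j ≤ H` for which `x + q j` is not equivalent to `x` -/
noncomputable def bz (r : ℤ → ℤ → Prop) (q x : ℤ) (H : ℕ) : ℕ := {j : ℕ | 1 ≤ j ∧ j ≤ H ∧ ¬ r x (x + q * j)}.ncard

/-- bad at some scale up to `H0` -/
def BadZ (r : ℤ → ℤ → Prop) (q : ℤ) (ε : ℝ) (H0 : ℕ) (x : ℤ) : Prop :=
  ∃ H : ℕ, 1 ≤ H ∧ H ≤ H0 ∧ ε * H < bz r q x H

open Classical in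
theorem block {r : ℤ → ℤ → Prop} (hr : Equivalence r) (q : ℤ) {ε : ℝ} (hε : 0 < ε) (W H0 : ℕ) (a : ℤ) :
    (#{i ∈ Icc 1 W | BadZ r q ε H0 (a + q * (i : ℕ))} : ℝ) ≤
      (1 + 1 / ε) * #{i ∈ Icc 1 W | ¬ r a (a + q * (i : ℕ))} + H0 := by
  set B : Finset ℕ := {i ∈ Icc 1 W | ¬ r a (a + q * (i : ℕ))} with hB
  set U : Finset ℕ := {i ∈ range (W + 1) | ∃ H : ℕ, 1 ≤ H ∧ i + H ≤ W ∧ ε * H < #{b ∈ B | i < b ∧ b ≤ i + H}}
    with hU
  have hcov : ε * #U ≤ #B := cover B hε W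
  have hsub : ({i ∈ Icc 1 W | BadZ r q ε H0 (a + q * (i : ℕ))} : Finset ℕ) ⊆ (B ∪ U) ∪ Ioc (W - H0) W := by
    intro i hi
    rw [mem_filter, mem_Icc] at hi
    obtain ⟨⟨h1, h2⟩, H, h3, h4, h5⟩ := hi
    rw [mem_union, mem_union, mem_Ioc]
    by_cases h6 : W - H0 < i
    · exact Or.inr ⟨h6, h2⟩
    left
    by_cases h7 : r a (a + q * (i : ℕ))
    · right
      rw [hU, mem_filter, mem_range]
      refine ⟨by omega, H, h3, by omega, h5.trans_le ?_⟩
      unfold bz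
      rw [ncard_filter]
      have h8 : #{j ∈ Icc 1 H | ¬ r (a + q * (i : ℕ)) (a + q * (i : ℕ) + q * (j : ℕ))} ≤
          #{b ∈ B | i < b ∧ b ≤ i + H} := by
        apply card_le_card_of_injOn (fun j => i + j)
        · intro j hj
          rw [mem_coe, mem_filter, mem_Icc] at hj
          rw [mem_coe]
          change i + j ∈ ({b ∈ B | i < b ∧ b ≤ i + H} : Finset ℕ)
          rw [mem_filter, hB, mem_filter, mem_Icc]
          refine ⟨⟨⟨by omega, by omega⟩, fun h9 => hj.2 ?_⟩, by omega, by omega⟩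
          have e : a + q * (i : ℕ) + q * (j : ℕ) = a + q * ((i + j : ℕ) : ℤ) := by push_cast; ring
          rw [e]
          exact hr.trans (hr.symm h7) h9
        · intro j _ j' _ h
          have : i + j = i + j' := h
          omega
      exact_mod_cast h8
    · left
      rw [hB, mem_filter, mem_Icc]
      exact ⟨⟨h1, h2⟩, h7⟩
  have h1 := ((card_le_card hsub).trans (card_union_le _ _)).trans
    (Nat.add_le_add_right (card_union_le _ _) _)
  rw [Nat.card_Ioc] at h1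
  have h2 : #{i ∈ Icc 1 W | BadZ r q ε H0 (a + q * (i : ℕ))} ≤ #B + #U + H0 := by omega
  have h3 : (#{i ∈ Icc 1 W | BadZ r q ε H0 (a + q * (i : ℕ))} : ℝ) ≤ #B + #U + H0 := by exact_mod_cast h2
  have h4 : (#U : ℝ) ≤ 1 / ε * #B := by
    rw [one_div, ← div_eq_inv_mul, le_div_iff₀ hε, mul_comm]
    exact hcov
  linarith

open Classical in
theorem max_count {r : ℤ → ℤ → Prop} (hr : Equivalence r) (q : ℤ) {ε δ : ℝ} (hε : 0 < ε) {N W : ℕ} (H0 : ℕ)
    (hW : 1 ≤ W)
    (h : ∀ j ∈ Icc 1 W, (#{n ∈ Icc 1 N | ¬ r ((n : ℕ) : ℤ) ((n : ℤ) + q * (j : ℕ))} : ℝ) ≤ δ * N) :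
    (#{n ∈ Icc 1 N | BadZ r q ε H0 ((n : ℕ) : ℤ)} : ℝ) ≤
      2 * q.natAbs * W + ((1 + 1 / ε) * δ + H0 / W) * N := by
  set I : Finset ℕ := {n ∈ Icc 1 N | q.natAbs * W < n ∧ n + q.natAbs * W ≤ N ∧ BadZ r q ε H0 ((n : ℕ) : ℤ)}
    with hI
  have hWr : (0 : ℝ) < W := by exact_mod_cast hW
  -- the boundary
  have h1 : #{n ∈ Icc 1 N | BadZ r q ε H0 ((n : ℕ) : ℤ)} ≤ q.natAbs * W + q.natAbs * W + #I := by
    have hsub : ({n ∈ Icc 1 N | BadZ r q ε H0 ((n : ℕ) : ℤ)} : Finset ℕ) ⊆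
        (Icc 1 (q.natAbs * W) ∪ Ioc (N - q.natAbs * W) N) ∪ I := by
      intro n hn
      rw [mem_filter, mem_Icc] at hn
      rw [mem_union, mem_union, mem_Icc, mem_Ioc, hI, mem_filter, mem_Icc]
      by_cases h2 : n ≤ q.natAbs * W
      · exact Or.inl (Or.inl ⟨hn.1.1, h2⟩)
      by_cases h3 : N - q.natAbs * W < n
      · exact Or.inl (Or.inr ⟨h3, hn.1.2⟩)
      exact Or.inr ⟨hn.1, by omega, by omega, hn.2⟩
    have h2 := ((card_le_card hsub).trans (card_union_le _ _)).trans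
      (Nat.add_le_add_right (card_union_le _ _) _)
    rw [Nat.card_Icc, Nat.card_Ioc] at h2
    omega
  -- double counting
  have h2 : ∀ i ∈ Icc 1 W, #I ≤ #{a ∈ Icc 1 N | BadZ r q ε H0 (((a : ℕ) : ℤ) + q * (i : ℕ))} := by
    intro i hi
    rw [mem_Icc] at hi
    have hqi : ((q * (i : ℤ)).natAbs : ℕ) ≤ q.natAbs * W := by
      rw [Int.natAbs_mul, Int.natAbs_natCast]
      exact Nat.mul_le_mul_left _ hi.2
    apply card_le_card_of_injOn (fun n : ℕ => ((n : ℤ) - q * (i : ℕ)).toNat)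
    · intro n hn
      rw [mem_coe, hI, mem_filter, mem_Icc] at hn
      rw [mem_coe]
      change ((n : ℤ) - q * (i : ℕ)).toNat ∈
        ({a ∈ Icc 1 N | BadZ r q ε H0 (((a : ℕ) : ℤ) + q * (i : ℕ))} : Finset ℕ)
      rw [mem_filter, mem_Icc]
      have h3 : 0 ≤ (n : ℤ) - q * (i : ℕ) := by omega
      have h4 : ((((n : ℤ) - q * (i : ℕ)).toNat : ℕ) : ℤ) = (n : ℤ) - q * (i : ℕ) := Int.toNat_of_nonneg h3
      refine ⟨⟨by omega, by omega⟩, ?_⟩
      rw [h4, sub_add_cancel]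
      exact hn.2.2.2
    · intro n hn n' hn' he
      rw [mem_coe, hI, mem_filter, mem_Icc] at hn hn'
      change ((n : ℤ) - q * (i : ℕ)).toNat = ((n' : ℤ) - q * (i : ℕ)).toNat at he
      omega
  have h3 : (W : ℝ) * #I ≤ ∑ a ∈ Icc 1 N, (#{i ∈ Icc 1 W | BadZ r q ε H0 (((a : ℕ) : ℤ) + q * (i : ℕ))} : ℝ) := by
    have e : ∑ a ∈ Icc 1 N, (#{i ∈ Icc 1 W | BadZ r q ε H0 (((a : ℕ) : ℤ) + q * (i : ℕ))} : ℝ) =
        ∑ i ∈ Icc 1 W, (#{a ∈ Icc 1 N | BadZ r q ε H0 (((a : ℕ) : ℤ) + q * (i : ℕ))} : ℝ) := by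
      simp only [card_filter]
      push_cast
      exact sum_comm
    rw [e]
    calc (W : ℝ) * #I = ∑ i ∈ Icc 1 W, (#I : ℝ) := by
          rw [sum_const, Nat.card_Icc, Nat.add_sub_cancel, nsmul_eq_mul]
      _ ≤ _ := sum_le_sum fun i hi => by exact_mod_cast h2 i hi
  have h4 : ∑ a ∈ Icc 1 N, (#{i ∈ Icc 1 W | BadZ r q ε H0 (((a : ℕ) : ℤ) + q * (i : ℕ))} : ℝ) ≤
      (1 + 1 / ε) * ∑ a ∈ Icc 1 N, (#{i ∈ Icc 1 W | ¬ r ((a : ℕ) : ℤ) (((a : ℕ) : ℤ) + q * (i : ℕ))} : ℝ) +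
        N * H0 := by
    calc _ ≤ ∑ a ∈ Icc 1 N, ((1 + 1 / ε) * (#{i ∈ Icc 1 W | ¬ r ((a : ℕ) : ℤ) (((a : ℕ) : ℤ) + q * (i : ℕ))} : ℝ) +
          H0) := sum_le_sum fun a _ => block hr q hε W H0 _
      _ = _ := by
          rw [sum_add_distrib, ← mul_sum, sum_const, Nat.card_Icc, Nat.add_sub_cancel, nsmul_eq_mul]
  have h5 : ∑ a ∈ Icc 1 N, (#{i ∈ Icc 1 W | ¬ r ((a : ℕ) : ℤ) (((a : ℕ) : ℤ) + q * (i : ℕ))} : ℝ) ≤
      W * (δ * N) := by
    have e : ∑ a ∈ Icc 1 N, (#{i ∈ Icc 1 W | ¬ r ((a : ℕ) : ℤ) (((a : ℕ) : ℤ) + q * (i : ℕ))} : ℝ) =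
        ∑ i ∈ Icc 1 W, (#{a ∈ Icc 1 N | ¬ r ((a : ℕ) : ℤ) (((a : ℕ) : ℤ) + q * (i : ℕ))} : ℝ) := by
      simp only [card_filter]
      push_cast
      exact sum_comm
    rw [e]
    calc _ ≤ ∑ i ∈ Icc 1 W, (δ * N) := sum_le_sum h
      _ = W * (δ * N) := by rw [sum_const, Nat.card_Icc, Nat.add_sub_cancel, nsmul_eq_mul]
  have h6 : (W : ℝ) * #I ≤ W * (((1 + 1 / ε) * δ + H0 / W) * N) := by
    have h7 : (1 + 1 / ε) * ∑ a ∈ Icc 1 N, (#{i ∈ Icc 1 W | ¬ r ((a : ℕ) : ℤ) (((a : ℕ) : ℤ) + q * (i : ℕ))} : ℝ) ≤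
        (1 + 1 / ε) * (W * (δ * N)) := mul_le_mul_of_nonneg_left h5 (by positivity)
    have h8 : (W : ℝ) * (((1 + 1 / ε) * δ + H0 / W) * N) = (1 + 1 / ε) * (W * (δ * N)) + N * H0 := by
      field_simp
    rw [h8]
    linarith
  have h7 : (#I : ℝ) ≤ ((1 + 1 / ε) * δ + H0 / W) * N := le_of_mul_le_mul_left h6 hWr
  have h8 : (#{n ∈ Icc 1 N | BadZ r q ε H0 ((n : ℕ) : ℤ)} : ℝ) ≤ q.natAbs * W + q.natAbs * W + #I := by
    exact_mod_cast h1
  linarith

end Pool.Agent.V11201.SH
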