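import Pool.Agent.V11201.SH.M

/-! All scales up to a power of `N`, and up to `n ^ o(1)` in density one form. -/

set_option autoImplicit false

namespace Pool.Agent.V11201.SH

open Finset Filter Topology
open Pool.Agent.H499R2.CO (HD ncard_filter)

/-- All scales up to a power of `N` at once. -/
theorem max_window {r : ℤ → ℤ → Prop} (hr : Equivalence r) (q : ℤ)
    (h : ∀ ε : ℝ, 0 < ε → ∃ θ : ℝ, 0 < θ ∧ ∃ N0 : ℕ, ∀ N ≥ N0, ∀ j : ℕ, (j : ℝ) ≤ (N : ℝ) ^ θ →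
      ({n : ℕ | 1 ≤ n ∧ n ≤ N ∧ ¬ r (n : ℤ) ((n : ℤ) + q * (j : ℤ))}.ncard : ℝ) ≤ ε * N)
    {ε : ℝ} (hε : 0 < ε) : ∃ θ : ℝ, 0 < θ ∧ ∃ N0 : ℕ, ∀ N ≥ N0,
      ({n : ℕ | 1 ≤ n ∧ n ≤ N ∧ ∃ H : ℕ, 1 ≤ H ∧ (H : ℝ) ≤ (N : ℝ) ^ θ ∧ ε * H < bz r q n H}.ncard : ℝ) ≤
        ε * N := by
  classical
  obtain ⟨θ1, hθ1, N0, h1⟩ := h (ε / (4 * (1 + 1 / ε))) (by positivity)
  set θ2 : ℝ := min θ1 (1 / 2) with hθ2
  have hθ2pos : 0 < θ2 := by positivity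
  set θ : ℝ := θ2 / 2 with hθ
  have hθpos : 0 < θ := by positivity
  have ht : Tendsto (fun N : ℕ => (N : ℝ) ^ θ) atTop atTop :=
    (tendsto_rpow_atTop hθpos).comp tendsto_natCast_atTop_atTop
  obtain ⟨N1, hN1⟩ := eventually_atTop.1 (ht.eventually_ge_atTop (8 / ε + 8 * q.natAbs / ε + 2))
  refine ⟨θ, hθpos, max (max N0 N1) 1, fun N hN => ?_⟩
  have hNN0 : N0 ≤ N := ((le_max_left _ _).trans (le_max_left _ _)).trans hN
  have hNN1 : N1 ≤ N := ((le_max_right _ _).trans (le_max_left _ _)).trans hN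
  have hN1' : 1 ≤ N := (le_max_right _ _).trans hN
  have hNr : (1 : ℝ) ≤ N := by exact_mod_cast hN1'
  have hNpos : (0 : ℝ) < N := by linarith
  set X : ℝ := (N : ℝ) ^ θ with hX
  have hXbig := hN1 N hNN1
  have hq0 : (0 : ℝ) ≤ 8 * q.natAbs / ε := by positivity
  have h80 : (0 : ℝ) < 8 / ε := by positivity
  have hX2 : 2 ≤ X := by linarith
  have hXX : (N : ℝ) ^ θ2 = X ^ 2 := by
    rw [hX, ← Real.rpow_natCast, ← Real.rpow_mul (by positivity)]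
    congr 1
    rw [hθ]; push_cast; ring
  have hX4 : X ^ 4 ≤ N := by
    have h2 : X ^ 4 = (N : ℝ) ^ (θ2 * 2) := by
      rw [Real.rpow_mul (by positivity), hXX, Real.rpow_two]
      ring
    rw [h2]
    calc (N : ℝ) ^ (θ2 * 2) ≤ (N : ℝ) ^ (1 : ℝ) := by
          apply Real.rpow_le_rpow_of_exponent_le hNr
          have : θ2 ≤ 1 / 2 := min_le_right _ _
          linarith
      _ = N := Real.rpow_one _
  set W : ℕ := ⌊(N : ℝ) ^ θ2⌋₊ with hW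
  set H0 : ℕ := ⌊X⌋₊ with hH0
  have hW1 : (W : ℝ) ≤ X ^ 2 := by rw [← hXX]; exact Nat.floor_le (by positivity)
  have hW2 : X ^ 2 / 2 ≤ W := by
    have h2 := Nat.lt_floor_add_one ((N : ℝ) ^ θ2)
    rw [← hW, hXX] at h2
    nlinarith
  have hWpos : (0 : ℝ) < W := lt_of_lt_of_le (by positivity) hW2
  have hWge : 1 ≤ W := by
    have : 0 < W := by exact_mod_cast hWpos
    omega
  have hH0r : (H0 : ℝ) ≤ X := Nat.floor_le (by linarith)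
  have hθle : (N : ℝ) ^ θ2 ≤ (N : ℝ) ^ θ1 := Real.rpow_le_rpow_of_exponent_le hNr (min_le_left _ _)
  have hmax := max_count hr q hε (N := N) (W := W) H0 hWge (δ := ε / (4 * (1 + 1 / ε))) (fun j hj => by
    rw [mem_Icc] at hj
    have h2 := h1 N hNN0 j (by
      have h3 : (j : ℝ) ≤ W := by exact_mod_cast hj.2
      have h4 : (W : ℝ) ≤ (N : ℝ) ^ θ2 := Nat.floor_le (by positivity)
      linarith)
    rwa [ncard_filter] at h2)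
  have hset : ({n : ℕ | 1 ≤ n ∧ n ≤ N ∧ ∃ H : ℕ, 1 ≤ H ∧ (H : ℝ) ≤ X ∧ ε * H < bz r q n H}.ncard : ℝ) ≤
      #{n ∈ Icc 1 N | BadZ r q ε H0 ((n : ℕ) : ℤ)} := by
    rw [ncard_filter]
    have : #{n ∈ Icc 1 N | ∃ H : ℕ, 1 ≤ H ∧ (H : ℝ) ≤ X ∧ ε * H < bz r q ((n : ℕ) : ℤ) H} ≤
        #{n ∈ Icc 1 N | BadZ r q ε H0 ((n : ℕ) : ℤ)} := by
      apply card_le_card
      intro n hn
      rw [mem_filter] at hn ⊢
      obtain ⟨h2, H, h3, h4, h5⟩ := hn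
      exact ⟨h2, H, h3, Nat.le_floor h4, h5⟩
    exact_mod_cast this
  refine hset.trans (hmax.trans ?_)
  have e1 : (1 + 1 / ε) * (ε / (4 * (1 + 1 / ε))) = ε / 4 := by
    field_simp
  have e2 : (H0 : ℝ) / W ≤ ε / 4 := by
    rw [div_le_iff₀ hWpos]
    have h2 : 8 / ε ≤ X := by linarith
    rw [div_le_iff₀ hε] at h2
    have h3 : ε / 4 * (X ^ 2 / 2) ≤ ε / 4 * W := mul_le_mul_of_nonneg_left hW2 (by positivity)
    nlinarith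
  have e3 : 2 * (q.natAbs : ℝ) * W ≤ ε / 4 * N := by
    have h2 : 8 * (q.natAbs : ℝ) / ε ≤ X := by linarith
    rw [div_le_iff₀ hε] at h2
    have h3 : 2 * (q.natAbs : ℝ) * W ≤ 2 * (q.natAbs : ℝ) * X ^ 2 :=
      mul_le_mul_of_nonneg_left hW1 (by positivity)
    have h4 : ε / 4 * X ^ 4 ≤ ε / 4 * N := mul_le_mul_of_nonneg_left hX4 (by positivity)
    have h5 : 2 * (q.natAbs : ℝ) * X ^ 2 ≤ ε / 4 * X ^ 4 := by
      have h6 : X * ε ≤ X ^ 2 * ε := by nlinarith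
      have h7 : 2 * (q.natAbs : ℝ) ≤ ε / 4 * X ^ 2 := by linarith
      calc 2 * (q.natAbs : ℝ) * X ^ 2 ≤ ε / 4 * X ^ 2 * X ^ 2 := mul_le_mul_of_nonneg_right h7 (by positivity)
        _ = ε / 4 * X ^ 4 := by ring
    linarith
  rw [e1]
  have e4 : (ε / 4 + (H0 : ℝ) / W) * N ≤ (ε / 4 + ε / 4) * N :=
    mul_le_mul_of_nonneg_right (by linarith) hNpos.le
  have e5 : 0 ≤ ε * N := by positivity
  linarith

/-- `g n = n ^ o(1)` -/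
def Sub (g : ℕ → ℕ) : Prop := Tendsto (fun n : ℕ => Real.log (1 + g n) / Real.log n) atTop (𝓝 0)

/-- All scales up to `g n = n ^ o(1)` at once. -/
theorem max_density {r : ℤ → ℤ → Prop} (hr : Equivalence r) (q : ℤ)
    (h : ∀ ε : ℝ, 0 < ε → ∃ θ : ℝ, 0 < θ ∧ ∃ N0 : ℕ, ∀ N ≥ N0, ∀ j : ℕ, (j : ℝ) ≤ (N : ℝ) ^ θ →
      ({n : ℕ | 1 ≤ n ∧ n ≤ N ∧ ¬ r (n : ℤ) ((n : ℤ) + q * (j : ℤ))}.ncard : ℝ) ≤ ε * N)
    {g : ℕ → ℕ} (hg : Sub g) {ε : ℝ} (hε : 0 < ε) :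
    HD (fun n => ∀ H : ℕ, 1 ≤ H → H ≤ g n → (bz r q n H : ℝ) ≤ ε * H) 1 := by
  apply HD_one_of
  intro δ hδ
  obtain ⟨θ, hθ, N0, h1⟩ := max_window hr q h (ε := min ε δ) (by positivity)
  obtain ⟨n1, hn1⟩ := eventually_atTop.1 (hg.eventually (gt_mem_nhds hθ))
  set n2 : ℕ := max n1 2 with hn2
  refine ⟨N0 + n2, fun N => ?_⟩
  rcases Nat.lt_or_ge N N0 with hlt | hge
  · have h2 : {n : ℕ | 1 ≤ n ∧ n ≤ N ∧ ¬ ∀ H : ℕ, 1 ≤ H → H ≤ g n → (bz r q n H : ℝ) ≤ ε * H}.ncard ≤ N := by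
      have h0 := Set.ncard_le_ncard (s := {n : ℕ | 1 ≤ n ∧ n ≤ N ∧
        ¬ ∀ H : ℕ, 1 ≤ H → H ≤ g n → (bz r q n H : ℝ) ≤ ε * H}) (t := ((Icc 1 N : Finset ℕ) : Set ℕ))
        (by rintro n ⟨a1, a2, _⟩; rw [Finset.coe_Icc]; exact ⟨a1, a2⟩) (Finset.finite_toSet _)
      rw [Set.ncard_coe_finset, Nat.card_Icc] at h0
      omega
    have h3 : ({n : ℕ | 1 ≤ n ∧ n ≤ N ∧ ¬ ∀ H : ℕ, 1 ≤ H → H ≤ g n → (bz r q n H : ℝ) ≤ ε * H}.ncard : ℝ) ≤ N0 := by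
      exact_mod_cast h2.trans hlt.le
    have : (0 : ℝ) ≤ δ * N := by positivity
    have : (0 : ℝ) ≤ n2 := by positivity
    linarith
  have h2 := h1 N hge
  have hsub : {n : ℕ | 1 ≤ n ∧ n ≤ N ∧ ¬ ∀ H : ℕ, 1 ≤ H → H ≤ g n → (bz r q n H : ℝ) ≤ ε * H} ⊆
      {n : ℕ | 1 ≤ n ∧ n ≤ N ∧ ∃ H : ℕ, 1 ≤ H ∧ (H : ℝ) ≤ (N : ℝ) ^ θ ∧ min ε δ * H < bz r q n H} ∪
      ((Finset.range n2 : Finset ℕ) : Set ℕ) := by
    rintro n ⟨a1, a2, a3⟩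
    by_cases h4 : n < n2
    · right; simpa using h4
    left
    push Not at a3
    obtain ⟨H, b1, b2, b3⟩ := a3
    refine ⟨a1, a2, H, b1, ?_, ?_⟩
    · have h5 := hn1 n (by omega)
      have hn2' : 2 ≤ n := by omega
      have hlog : 0 < Real.log n := Real.log_pos (by exact_mod_cast hn2')
      have hnpos : (0 : ℝ) < n := by
        have : 0 < n := by omega
        exact_mod_cast this
      rw [div_lt_iff₀ hlog] at h5
      have h6 : Real.log (1 + (g n : ℝ)) ≤ Real.log ((n : ℝ) ^ θ) := by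
        rw [Real.log_rpow hnpos]; exact h5.le
      have h7 : 1 + (g n : ℝ) ≤ (n : ℝ) ^ θ := (Real.log_le_log_iff (by positivity) (by positivity)).1 h6
      have h8 : (n : ℝ) ^ θ ≤ (N : ℝ) ^ θ := Real.rpow_le_rpow hnpos.le (by exact_mod_cast a2) hθ.le
      have h9 : (H : ℝ) ≤ g n := by exact_mod_cast b2
      linarith
    · have : min ε δ * (H : ℝ) ≤ ε * H := mul_le_mul_of_nonneg_right (min_le_left _ _) (by positivity)
      linarith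
  have h3 := (Set.ncard_le_ncard hsub ((fin_le _ N).union (Finset.finite_toSet _))).trans
    (Set.ncard_union_le _ _)
  rw [Set.ncard_coe_finset, card_range] at h3
  have h4 : ({n : ℕ | 1 ≤ n ∧ n ≤ N ∧ ¬ ∀ H : ℕ, 1 ≤ H → H ≤ g n → (bz r q n H : ℝ) ≤ ε * H}.ncard : ℝ) ≤
      ({n : ℕ | 1 ≤ n ∧ n ≤ N ∧ ∃ H : ℕ, 1 ≤ H ∧ (H : ℝ) ≤ (N : ℝ) ^ θ ∧ min ε δ * H < bz r q n H}.ncard : ℝ) +
        n2 := by exact_mod_cast h3
  have h5 : min ε δ * (N : ℝ) ≤ δ * N := mul_le_mul_of_nonneg_right (min_le_right _ _) (by positivity)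
  have h6 : (0 : ℝ) ≤ N0 := by positivity
  linarith

end Pool.Agent.V11201.SH
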