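import Pool.Agent.V11201.SH.M2

/-! The maximal inequality for equivalence relations which depend on `N`. -/

set_option autoImplicit false

namespace Pool.Agent.V11201.SH

open Finset Filter Topology
open Pool.Agent.H499R2.CO (HD ncard_filter)

/-- All scales up to a power of `N` at once, for equivalence relations which depend on `N`. -/
theorem max_window_fam {r : ℕ → ℤ → ℤ → Prop} (hr : ∀ N, Equivalence (r N)) (q : ℤ)
    (h : ∀ ε : ℝ, 0 < ε → ∃ θ : ℝ, 0 < θ ∧ ∃ N0 : ℕ, ∀ N ≥ N0, ∀ j : ℕ, (j : ℝ) ≤ (N : ℝ) ^ θ →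
      ({n : ℕ | 1 ≤ n ∧ n ≤ N ∧ ¬ r N (n : ℤ) ((n : ℤ) + q * (j : ℤ))}.ncard : ℝ) ≤ ε * N)
    {ε : ℝ} (hε : 0 < ε) : ∃ θ : ℝ, 0 < θ ∧ ∃ N0 : ℕ, ∀ N ≥ N0,
      ({n : ℕ | 1 ≤ n ∧ n ≤ N ∧ ∃ H : ℕ, 1 ≤ H ∧ (H : ℝ) ≤ (N : ℝ) ^ θ ∧ ε * H < bz (r N) q n H}.ncard : ℝ) ≤
        ε * N := by
  classical
  obtain ⟨θ1, hθ1, N0, h1⟩ := h (ε / (4 * (1 + 1 / ε))) (by positivity)
  set θ2 : ℝ := min θ1 (1 / 2) with hθ2
  have hθ2pos : 0 < θ2 := by positivity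
  set θ : ℝ := θ2 / 2 with hθ
  have hθpos : 0 < θ := by positivity
  have ht : Tendsto (fun N : ℕ => (N : ℝ) ^ θ) atTop atTop :=
    (tendsto_rpow_atTop hθpos).comp tendsto_natCast_atTop_atTop
  obtain ⟨N1, hN1⟩ := eventually_atTop.1 (ht.eventually_ge_atTop (8 / ε + 8 * q.natAbs / ε + 2))
  refine ⟨θ, hθpos, max (max N0 N1) 1, fun N hN => ?_⟩
  have hNN0 : N0 ≤ N := ((le_max_left _ _).trans (le_max_left _ _)).trans hN
  have hNN1 : N1 ≤ N := ((le_max_right _ _).trans (le_max_left _ _)).trans hN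
  have hN1' : 1 ≤ N := (le_max_right _ _).trans hN
  have hNr : (1 : ℝ) ≤ N := by exact_mod_cast hN1'
  have hNpos : (0 : ℝ) < N := by linarith
  set X : ℝ := (N : ℝ) ^ θ with hX
  have hXbig := hN1 N hNN1
  have hq0 : (0 : ℝ) ≤ 8 * q.natAbs / ε := by positivity
  have h80 : (0 : ℝ) < 8 / ε := by positivity
  have hX2 : 2 ≤ X := by linarith
  have hXX : (N : ℝ) ^ θ2 = X ^ 2 := by
    rw [hX, ← Real.rpow_natCast, ← Real.rpow_mul (by positivity)]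
    congr 1
    rw [hθ]; push_cast; ring
  have hX4 : X ^ 4 ≤ N := by
    have h2 : X ^ 4 = (N : ℝ) ^ (θ2 * 2) := by
      rw [Real.rpow_mul (by positivity), hXX, Real.rpow_two]
      ring
    rw [h2]
    calc (N : ℝ) ^ (θ2 * 2) ≤ (N : ℝ) ^ (1 : ℝ) := by
          apply Real.rpow_le_rpow_of_exponent_le hNr
          have : θ2 ≤ 1 / 2 := min_le_right _ _
          linarith
      _ = N := Real.rpow_one _
  set W : ℕ := ⌊(N : ℝ) ^ θ2⌋₊ with hW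
  set H0 : ℕ := ⌊X⌋₊ with hH0
  have hW1 : (W : ℝ) ≤ X ^ 2 := by rw [← hXX]; exact Nat.floor_le (by positivity)
  have hW2 : X ^ 2 / 2 ≤ W := by
    have h2 := Nat.lt_floor_add_one ((N : ℝ) ^ θ2)
    rw [← hW, hXX] at h2
    nlinarith
  have hWpos : (0 : ℝ) < W := lt_of_lt_of_le (by positivity) hW2
  have hWge : 1 ≤ W := by
    have : 0 < W := by exact_mod_cast hWpos
    omega
  have hH0r : (H0 : ℝ) ≤ X := Nat.floor_le (by linarith)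
  have hθle : (N : ℝ) ^ θ2 ≤ (N : ℝ) ^ θ1 := Real.rpow_le_rpow_of_exponent_le hNr (min_le_left _ _)
  have hmax := max_count (hr N) q hε (N := N) (W := W) H0 hWge (δ := ε / (4 * (1 + 1 / ε))) (fun j hj => by
    rw [mem_Icc] at hj
    have h2 := h1 N hNN0 j (by
      have h3 : (j : ℝ) ≤ W := by exact_mod_cast hj.2
      have h4 : (W : ℝ) ≤ (N : ℝ) ^ θ2 := Nat.floor_le (by positivity)
      linarith)
    rwa [ncard_filter] at h2)
  have hset : ({n : ℕ | 1 ≤ n ∧ n ≤ N ∧ ∃ H : ℕ, 1 ≤ H ∧ (H : ℝ) ≤ X ∧ ε * H < bz (r N) q n H}.ncard : ℝ) ≤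
      #{n ∈ Icc 1 N | BadZ (r N) q ε H0 ((n : ℕ) : ℤ)} := by
    rw [ncard_filter]
    have : #{n ∈ Icc 1 N | ∃ H : ℕ, 1 ≤ H ∧ (H : ℝ) ≤ X ∧ ε * H < bz (r N) q ((n : ℕ) : ℤ) H} ≤
        #{n ∈ Icc 1 N | BadZ (r N) q ε H0 ((n : ℕ) : ℤ)} := by
      apply card_le_card
      intro n hn
      rw [mem_filter] at hn ⊢
      obtain ⟨h2, H, h3, h4, h5⟩ := hn
      exact ⟨h2, H, h3, Nat.le_floor h4, h5⟩
    exact_mod_cast this
  refine hset.trans (hmax.trans ?_)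
  have e1 : (1 + 1 / ε) * (ε / (4 * (1 + 1 / ε))) = ε / 4 := by
    field_simp
  have e2 : (H0 : ℝ) / W ≤ ε / 4 := by
    rw [div_le_iff₀ hWpos]
    have h2 : 8 / ε ≤ X := by linarith
    rw [div_le_iff₀ hε] at h2
    have h3 : ε / 4 * (X ^ 2 / 2) ≤ ε / 4 * W := mul_le_mul_of_nonneg_left hW2 (by positivity)
    nlinarith
  have e3 : 2 * (q.natAbs : ℝ) * W ≤ ε / 4 * N := by
    have h2 : 8 * (q.natAbs : ℝ) / ε ≤ X := by linarith
    rw [div_le_iff₀ hε] at h2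
    have h3 : 2 * (q.natAbs : ℝ) * W ≤ 2 * (q.natAbs : ℝ) * X ^ 2 :=
      mul_le_mul_of_nonneg_left hW1 (by positivity)
    have h4 : ε / 4 * X ^ 4 ≤ ε / 4 * N := mul_le_mul_of_nonneg_left hX4 (by positivity)
    have h5 : 2 * (q.natAbs : ℝ) * X ^ 2 ≤ ε / 4 * X ^ 4 := by
      have h6 : X * ε ≤ X ^ 2 * ε := by nlinarith
      have h7 : 2 * (q.natAbs : ℝ) ≤ ε / 4 * X ^ 2 := by linarith
      calc 2 * (q.natAbs : ℝ) * X ^ 2 ≤ ε / 4 * X ^ 2 * X ^ 2 := mul_le_mul_of_nonneg_right h7 (by positivity)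
        _ = ε / 4 * X ^ 4 := by ring
    linarith
  rw [e1]
  have e4 : (ε / 4 + (H0 : ℝ) / W) * N ≤ (ε / 4 + ε / 4) * N :=
    mul_le_mul_of_nonneg_right (by linarith) hNpos.le
  have e5 : 0 ≤ ε * N := by positivity
  linarith

end Pool.Agent.V11201.SH
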