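import Pool.Agent.V11201.SH.M3
import Pool.Agent.V11201.SH.F

/-! Meeting orbits of `n` and `n + 2 j` under the `3x+1` map on the natural numbers. -/

set_option autoImplicit false

namespace Pool.Agent.V11201.SH

open Finset Filter Topology
open Pool.Agent.H499R2.CO (HD ncard_filter Tz Tn_iter_cast)
open Pool.Agent.H499R2.ND (Tn)

/-- the number of the `1 ≤ j ≤ H` for which the orbit of `n + q j` does not meet the one of `n` -/
noncomputable def nm (q n H : ℕ) : ℕ := {j : ℕ | 1 ≤ j ∧ j ≤ H ∧ ¬ ∃ t : ℕ, Tn^[t] n = Tn^[t] (n + q * j)}.ncard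

theorem rT_one (q n j : ℕ) : rT 1 1 (n : ℤ) ((n : ℤ) + (q : ℤ) * (j : ℤ)) ↔ ∃ t : ℕ, Tn^[t] n = Tn^[t] (n + q * j) := by
  unfold rT
  have e : (n : ℤ) + (q : ℤ) * (j : ℤ) = ((n + q * j : ℕ) : ℤ) := by push_cast; ring
  rw [e, one_mul, one_mul]
  simp only [Tn_iter_cast]
  exact exists_congr fun t => by norm_cast

theorem bz_nm (q n H : ℕ) : bz (rT 1 1) q n H = nm q n H := by
  unfold bz nm
  simp only [rT_one]

theorem nm_window (q : ℕ) (ε : ℝ) (hε : 0 < ε) : ∃ θ : ℝ, 0 < θ ∧ ∃ N0 : ℕ, ∀ N ≥ N0, ∀ j : ℕ,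
    (j : ℝ) ≤ (N : ℝ) ^ θ →
      ({n : ℕ | 1 ≤ n ∧ n ≤ N ∧ ¬ rT 1 1 (n : ℤ) ((n : ℤ) + (q : ℤ) * (j : ℤ))}.ncard : ℝ) ≤ ε * N := by
  classical
  obtain ⟨θ, hθ, N0, h⟩ := Mg_window hε
  have ht : Tendsto (fun N : ℕ => (N : ℝ) ^ (θ / 2)) atTop atTop :=
    (tendsto_rpow_atTop (by positivity)).comp tendsto_natCast_atTop_atTop
  obtain ⟨N1, hN1⟩ := eventually_atTop.1 (ht.eventually_ge_atTop (q : ℝ))
  refine ⟨θ / 2, by positivity, max N0 N1, fun N hN j hj => ?_⟩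
  have h2 := hN1 N ((le_max_right _ _).trans hN)
  have e : |(((q * j : ℕ) : ℤ) : ℝ)| = ((q * j : ℕ) : ℝ) := by
    rw [abs_of_nonneg (by positivity)]; norm_cast
  have h3 := h N ((le_max_left _ _).trans hN) 1 (by norm_num) ((q * j : ℕ) : ℤ) (by
    rw [e]
    push_cast
    calc (q : ℝ) * (j : ℝ) ≤ (N : ℝ) ^ (θ / 2) * (N : ℝ) ^ (θ / 2) :=
          mul_le_mul h2 hj (by positivity) (by positivity)
      _ = (N : ℝ) ^ θ := by
          rw [← sq, ← Real.rpow_natCast, ← Real.rpow_mul (by positivity)]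
          congr 1
          push_cast; ring)
  rw [← ncard_filter] at h3
  refine le_trans ?_ h3
  exact_mod_cast Set.ncard_le_ncard (by
    rintro n ⟨a1, a2, a3⟩
    refine ⟨a1, a2, fun h5 => a3 ?_⟩
    obtain ⟨t, _, ht, _⟩ := h5
    refine ⟨t, ?_⟩
    rw [one_mul, one_mul, ht]
    push_cast
    rw [one_mul]) (fin_le _ N)

theorem nm_max (q : ℕ) {ε : ℝ} (hε : 0 < ε) : ∃ θ : ℝ, 0 < θ ∧ ∃ N0 : ℕ, ∀ N ≥ N0,
    ({n : ℕ | 1 ≤ n ∧ n ≤ N ∧ ∃ H : ℕ, 1 ≤ H ∧ (H : ℝ) ≤ (N : ℝ) ^ θ ∧ ε * H < nm q n H}.ncard : ℝ) ≤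
      ε * N := by
  have h := max_window (rT_eq 1 1) (q : ℤ) (nm_window q) hε
  simp only [bz_nm] at h
  exact h

theorem nm_dens (q : ℕ) {g : ℕ → ℕ} (hg : Sub g) {ε : ℝ} (hε : 0 < ε) :
    HD (fun n => ∀ H : ℕ, 1 ≤ H → H ≤ g n → (nm q n H : ℝ) ≤ ε * H) 1 := by
  have h := max_density (rT_eq 1 1) (q : ℤ) (nm_window q) hg hε
  simp only [bz_nm] at h
  exact h

end Pool.Agent.V11201.SH
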