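import Pool.Agent.V11201.SH.M4
import Pool.Agent.V11201.SH.C
import Pool.Agent.H828R3.Exc.UpR

/-! Maximum excursions: if two trajectories have merged early, the maximum excursions are equal or small. -/

set_option autoImplicit false

namespace Pool.Agent.V11201.SH.Exc

open Finset Filter Topology
open Pool.Agent.H499R2.CO (HD ncard_filter Tn_iter_cast Tz)
open Pool.Agent.V11201.SH

/-- the accelerated `3x+1` map -/
def T (n : ℕ) : ℕ := if n % 2 = 0 then n / 2 else (3 * n + 1) / 2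

/-- the maximum excursion -/
noncomputable def t (n : ℕ) : ℕ∞ := ⨆ k : ℕ, ((T^[k] n : ℕ) : ℕ∞)

/-- all terms are at most `v` -/
def AtMost (v : ℝ) (n : ℕ) : Prop := ∀ k : ℕ, ((T^[k] n : ℕ) : ℝ) ≤ v

/-- the same maximum excursion, or both at most `v` -/
def Near (v : ℝ) (n m : ℕ) : Prop := t m = t n ∨ (AtMost v n ∧ AtMost v m)

theorem atMost_iff {v : ℝ} (hv : 0 ≤ v) (n : ℕ) : AtMost v n ↔ t n ≤ (⌊v⌋₊ : ℕ∞) := by
  unfold AtMost t
  rw [iSup_le_iff]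
  refine forall_congr' fun k => ?_
  rw [← Nat.le_floor_iff hv]
  exact_mod_cast Iff.rfl

theorem atMost_neg {v : ℝ} (hv : v < 0) (n : ℕ) : ¬ AtMost v n := fun h => by
  have := h 0
  have h2 : (0 : ℝ) ≤ ((T^[0] n : ℕ) : ℝ) := Nat.cast_nonneg _
  linarith

theorem atMost_congr {v : ℝ} {n m : ℕ} (h : t m = t n) : AtMost v m ↔ AtMost v n := by
  rcases lt_or_ge v 0 with hv | hv
  · exact ⟨fun h1 => absurd h1 (atMost_neg hv m), fun h1 => absurd h1 (atMost_neg hv n)⟩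
  · rw [atMost_iff hv, atMost_iff hv, h]

theorem near_refl (v : ℝ) (n : ℕ) : Near v n n := Or.inl rfl

theorem near_symm {v : ℝ} {n m : ℕ} (h : Near v n m) : Near v m n := by
  rcases h with h | ⟨h1, h2⟩
  · exact Or.inl h.symm
  · exact Or.inr ⟨h2, h1⟩

theorem near_trans {v : ℝ} {a b c : ℕ} (h : Near v a b) (h' : Near v b c) : Near v a c := by
  rcases h with h | ⟨h1, h2⟩
  · rcases h' with h' | ⟨h3, h4⟩
    · exact Or.inl (h'.trans h)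
    · exact Or.inr ⟨(atMost_congr h).1 h3, h4⟩
  · rcases h' with h' | ⟨h3, h4⟩
    · exact Or.inr ⟨h1, (atMost_congr h').2 h2⟩
    · exact Or.inr ⟨h1, h4⟩

theorem near_mono {v w : ℝ} (hvw : v ≤ w) {n m : ℕ} (h : Near v n m) : Near w n m := by
  rcases h with h | ⟨h1, h2⟩
  · exact Or.inl h
  · exact Or.inr ⟨fun k => (h1 k).trans hvw, fun k => (h2 k).trans hvw⟩

theorem T_eq : T = Pool.Agent.Helper894.Collatz.T := rfl

theorem T_Tn : T = Pool.Agent.H499R2.ND.Tn := by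
  funext n
  unfold T Pool.Agent.H499R2.ND.Tn
  rfl

/-- merged at the time `s`, both small before -/
theorem near_of {v : ℝ} {n m s : ℕ} (h : T^[s] n = T^[s] m) (h1 : ∀ k ≤ s, ((T^[k] n : ℕ) : ℝ) ≤ v)
    (h2 : ∀ k ≤ s, ((T^[k] m : ℕ) : ℝ) ≤ v) : Near v n m := by
  have hk : ∀ k, s ≤ k → T^[k] n = T^[k] m := by
    intro k hk
    obtain ⟨i, rfl⟩ := Nat.exists_eq_add_of_le hk
    rw [Nat.add_comm, Function.iterate_add_apply, Function.iterate_add_apply, h]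
  have key : ∀ a b : ℕ, (∀ k, s ≤ k → T^[k] a = T^[k] b) → (∀ k ≤ s, ((T^[k] a : ℕ) : ℝ) ≤ v) →
      ∀ k0, s ≤ k0 → v < ((T^[k0] a : ℕ) : ℝ) → t a ≤ t b := by
    intro a b hab ha k0 hk0 hv
    refine iSup_le fun k => ?_
    rcases Nat.lt_or_ge s k with h3 | h3
    · rw [hab k h3.le]
      exact le_iSup (fun k : ℕ => ((T^[k] b : ℕ) : ℕ∞)) k
    · have h4 : ((T^[k] a : ℕ) : ℝ) < ((T^[k0] b : ℕ) : ℝ) := by
        rw [← hab k0 hk0]
        exact (ha k h3).trans_lt hv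
      have h5 : T^[k] a < T^[k0] b := by exact_mod_cast h4
      exact le_trans (by exact_mod_cast h5.le) (le_iSup (fun k : ℕ => ((T^[k] b : ℕ) : ℕ∞)) k0)
  by_cases hA : AtMost v n
  · right
    refine ⟨hA, fun k => ?_⟩
    rcases Nat.lt_or_ge s k with h3 | h3
    · rw [← hk k h3.le]; exact hA k
    · exact h2 k h3
  · left
    unfold AtMost at hA
    push Not at hA
    obtain ⟨k0, hk0⟩ := hA
    have hs : s ≤ k0 := by
      by_contra hcon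
      exact absurd (h1 k0 (by omega)) (not_le.2 hk0)
    apply le_antisymm
    · exact key m n (fun k h3 => (hk k h3).symm) h2 k0 hs (by rw [← hk k0 hs]; exact hk0)
    · exact key n m hk h1 k0 hs hk0

theorem T_le (n : ℕ) : ((T n : ℕ) : ℝ) + 1 ≤ 3 / 2 * ((n : ℝ) + 1) := by
  have h : 2 * (T n + 1) ≤ 3 * (n + 1) := by
    unfold T
    split_ifs <;> omega
  have h' : (2 : ℝ) * ((T n : ℕ) + 1) ≤ 3 * ((n : ℝ) + 1) := by exact_mod_cast h
  linarith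

theorem iter_le (k : ℕ) : ∀ n : ℕ, ((T^[k] n : ℕ) : ℝ) + 1 ≤ (3 / 2 : ℝ) ^ k * ((n : ℝ) + 1) := by
  induction k with
  | zero => intro n; simp
  | succ k ih =>
    intro n
    rw [Function.iterate_succ_apply', pow_succ]
    have h1 := T_le (T^[k] n)
    have h2 := ih n
    calc ((T (T^[k] n) : ℕ) : ℝ) + 1 ≤ 3 / 2 * (((T^[k] n : ℕ) : ℝ) + 1) := h1
      _ ≤ 3 / 2 * ((3 / 2 : ℝ) ^ k * ((n : ℝ) + 1)) := mul_le_mul_of_nonneg_left h2 (by norm_num)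
      _ = (3 / 2 : ℝ) ^ k * (3 / 2) * ((n : ℝ) + 1) := by ring

theorem pow_small {N s : ℕ} (h : 4 ^ s ≤ N) : (3 / 2 : ℝ) ^ s ≤ (N : ℝ) ^ (3 / 10 : ℝ) := by
  have hN : (0 : ℝ) ≤ N := Nat.cast_nonneg _
  have h1 : ((3 / 2 : ℝ) ^ s) ^ 10 ≤ ((N : ℝ) ^ (3 / 10 : ℝ)) ^ 10 := by
    have e1 : ((3 / 2 : ℝ) ^ s) ^ 10 = ((3 / 2 : ℝ) ^ 10) ^ s := by rw [← pow_mul, ← pow_mul, mul_comm]
    have e2 : ((N : ℝ) ^ (3 / 10 : ℝ)) ^ 10 = (N : ℝ) ^ 3 := by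
      rw [← Real.rpow_natCast, ← Real.rpow_mul hN]
      norm_num
    rw [e1, e2]
    calc ((3 / 2 : ℝ) ^ 10) ^ s ≤ ((4 : ℝ) ^ 3) ^ s := pow_le_pow_left₀ (by positivity) (by norm_num) s
      _ = ((4 : ℝ) ^ s) ^ 3 := by rw [← pow_mul, ← pow_mul, mul_comm]
      _ ≤ (N : ℝ) ^ 3 := pow_le_pow_left₀ (by positivity) (by exact_mod_cast h) 3
  exact le_of_pow_le_pow_left₀ (by norm_num) (by positivity) h1

/-- the trivial bound for the terms before the merging -/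
theorem det_le {N n s k : ℕ} (hN : 1 ≤ N) (hn : n ≤ 2 * N) (h : 4 ^ s ≤ N) (hk : k ≤ s) :
    ((T^[k] n : ℕ) : ℝ) ≤ 3 * (N : ℝ) ^ (13 / 10 : ℝ) := by
  have h1 := iter_le k n
  have h2 : (3 / 2 : ℝ) ^ k ≤ (3 / 2 : ℝ) ^ s := pow_le_pow_right₀ (by norm_num) hk
  have h3 := pow_small h
  have hNr : (1 : ℝ) ≤ N := by exact_mod_cast hN
  have hnr : (n : ℝ) + 1 ≤ 3 * N := by
    have : (n : ℝ) ≤ 2 * N := by exact_mod_cast hn
    linarith
  have e : (N : ℝ) ^ (13 / 10 : ℝ) = (N : ℝ) ^ (3 / 10 : ℝ) * N := by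
    rw [← Real.rpow_add_one (by linarith)]
    norm_num
  rw [e]
  have h4 : (3 / 2 : ℝ) ^ k * ((n : ℝ) + 1) ≤ (N : ℝ) ^ (3 / 10 : ℝ) * (3 * N) :=
    mul_le_mul (h2.trans h3) hnr (by positivity) (by positivity)
  linarith

theorem Mg_T {N n j : ℕ} (h : Mg 1 N (n : ℤ) ((n : ℤ) + 1 * (j : ℤ))) :
    ∃ s, 4 ^ s ≤ N ∧ T^[s] n = T^[s] (n + j) := by
  obtain ⟨s, hs, h1, _⟩ := h
  refine ⟨s, hs, ?_⟩
  have e : (n : ℤ) + 1 * (j : ℤ) = ((n + j : ℕ) : ℤ) := by push_cast; ring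
  rw [e, Tn_iter_cast, Tn_iter_cast] at h1
  rw [T_Tn]
  exact_mod_cast h1

theorem near_det {N n j : ℕ} (hN : 1 ≤ N) (hn : n + j ≤ 2 * N)
    (h : Mg 1 N (n : ℤ) ((n : ℤ) + 1 * (j : ℤ))) : Near (3 * (N : ℝ) ^ (13 / 10 : ℝ)) n (n + j) := by
  obtain ⟨s, hs, h1⟩ := Mg_T h
  exact near_of h1 (fun k hk => det_le hN (by omega) hs hk) (fun k hk => det_le hN hn hs hk)

end Pool.Agent.V11201.SH.Exc
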