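import Pool.Agent.V11201.SH.P

/-! Maximum excursions: counting. -/

set_option autoImplicit false

namespace Pool.Agent.V11201.SH.Exc

open Finset Filter Topology
open Pool.Agent.H499R2.CO (HD ncard_filter Tn_iter_cast Tz)
open Pool.Agent.V11201.SH

/-- all terms up to the time `log_4 N` are at most `v` -/
def Early (N : ℕ) (v : ℝ) (n : ℕ) : Prop := ∀ s, 4 ^ s ≤ N → ((T^[s] n : ℕ) : ℝ) ≤ v

theorem near_early {N n j : ℕ} {v : ℝ} (h1 : Early N v n) (h2 : Early N v (n + j))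
    (h : Mg 1 N (n : ℤ) ((n : ℤ) + 1 * (j : ℤ))) : Near v n (n + j) := by
  obtain ⟨s, hs, h3⟩ := Mg_T h
  exact near_of h3 (fun k hk => h1 k ((Nat.pow_le_pow_right (by norm_num) hk).trans hs))
    (fun k hk => h2 k ((Nat.pow_le_pow_right (by norm_num) hk).trans hs))

theorem early_of {N n : ℕ} {v y : ℝ} (hv : (N : ℝ) ^ (3 / 10 : ℝ) * (y + 1) ≤ v)
    (h : ∃ m, ((T^[m] n : ℕ) : ℝ) ≤ y ∧ ∀ j ≤ m, ((T^[j] n : ℕ) : ℝ) ≤ v) : Early N v n := by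
  obtain ⟨m, h1, h2⟩ := h
  intro s hs
  rcases Nat.lt_or_ge m s with h3 | h3
  · obtain ⟨i, rfl⟩ := Nat.exists_eq_add_of_le h3.le
    have h4 := iter_le i (T^[m] n)
    rw [← Function.iterate_add_apply, Nat.add_comm i m] at h4
    have h5 : (3 / 2 : ℝ) ^ i ≤ (N : ℝ) ^ (3 / 10 : ℝ) :=
      pow_small ((Nat.pow_le_pow_right (by norm_num) (Nat.le_add_left i m)).trans hs)
    have h6 : (3 / 2 : ℝ) ^ i * (((T^[m] n : ℕ) : ℝ) + 1) ≤ (N : ℝ) ^ (3 / 10 : ℝ) * (y + 1) :=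
      mul_le_mul h5 (by linarith) (by positivity) (by positivity)
    linarith
  · exact h2 s h3

/-- the asymptotics of the bound -/
theorem asym {κ : ℝ} (hκ : 0 < κ) {ε : ℝ} (hε : 0 < ε) : ∀ᶠ N : ℕ in atTop,
    140000 * (Real.log (2 * N)) ^ 5 * ((2 * N) * ((N : ℝ) ^ (1 / 2 : ℝ)) ^ (-(1 / 21) : ℝ) +
      (2 * N : ℝ) ^ 2 / (N : ℝ) ^ (1 + κ)) ≤ ε * N := by
  set a : ℝ := min κ (1 / 42) with ha
  have hapos : 0 < a := by positivity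
  have h1 : Tendsto (fun x : ℝ => Real.log x ^ (5 : ℝ) / x ^ a) atTop (𝓝 0) :=
    (isLittleO_log_rpow_rpow_atTop 5 hapos).tendsto_div_nhds_zero
  have h2 : Tendsto (fun N : ℕ => 2 * (N : ℝ)) atTop atTop :=
    tendsto_natCast_atTop_atTop.const_mul_atTop (by norm_num)
  have h3 := h1.comp h2
  have h4 : 0 < ε / (140000 * 6 * 2 ^ a) := by positivity
  filter_upwards [h3.eventually (gt_mem_nhds h4), eventually_ge_atTop 2] with N h5 hN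
  have hNr : (1 : ℝ) ≤ N := by exact_mod_cast (by omega : 1 ≤ N)
  have hNpos : (0 : ℝ) < N := by linarith
  simp only [Function.comp] at h5
  have hL : 0 ≤ Real.log (2 * N) := Real.log_nonneg (by linarith)
  have e5 : Real.log (2 * (N : ℝ)) ^ (5 : ℝ) = Real.log (2 * N) ^ 5 := by
    exact_mod_cast Real.rpow_natCast (Real.log (2 * (N : ℝ))) 5
  rw [e5, div_lt_iff₀ (by positivity), Real.mul_rpow (by norm_num) hNpos.le] at h5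
  have e6 : ε / (140000 * 6 * 2 ^ a) * (2 ^ a * (N : ℝ) ^ a) = ε / (140000 * 6) * (N : ℝ) ^ a := by
    field_simp
  rw [e6] at h5
  have h6 : ((N : ℝ) ^ (1 / 2 : ℝ)) ^ (-(1 / 21) : ℝ) ≤ (N : ℝ) ^ (-a) := by
    rw [← Real.rpow_mul hNpos.le]
    apply Real.rpow_le_rpow_of_exponent_le hNr
    have : a ≤ 1 / 42 := min_le_right _ _
    linarith
  have h7 : (2 * N : ℝ) ^ 2 / (N : ℝ) ^ (1 + κ) ≤ 4 * N * (N : ℝ) ^ (-a) := by
    have e7 : (N : ℝ) ^ (1 + κ) = N * (N : ℝ) ^ κ := by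
      rw [Real.rpow_add hNpos, Real.rpow_one]
    rw [e7, div_le_iff₀ (by positivity)]
    have e8 : (N : ℝ) ^ (-a) * (N : ℝ) ^ κ = (N : ℝ) ^ (κ - a) := by
      rw [← Real.rpow_add hNpos]; congr 1; ring
    have e9 : (1 : ℝ) ≤ (N : ℝ) ^ (κ - a) := Real.one_le_rpow hNr (by
      have : a ≤ κ := min_le_left _ _
      linarith)
    calc (2 * N : ℝ) ^ 2 = 4 * N * N * 1 := by ring
      _ ≤ 4 * N * N * (N : ℝ) ^ (κ - a) := mul_le_mul_of_nonneg_left e9 (by positivity)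
      _ = 4 * N * (N : ℝ) ^ (-a) * (N * (N : ℝ) ^ κ) := by rw [← e8]; ring
  have h8 : (2 * N) * ((N : ℝ) ^ (1 / 2 : ℝ)) ^ (-(1 / 21) : ℝ) + (2 * N : ℝ) ^ 2 / (N : ℝ) ^ (1 + κ) ≤
      6 * N * (N : ℝ) ^ (-a) := by
    have : (2 * N) * ((N : ℝ) ^ (1 / 2 : ℝ)) ^ (-(1 / 21) : ℝ) ≤ (2 * N) * (N : ℝ) ^ (-a) :=
      mul_le_mul_of_nonneg_left h6 (by positivity)
    linarith
  calc _ ≤ 140000 * (Real.log (2 * N)) ^ 5 * (6 * N * (N : ℝ) ^ (-a)) :=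
        mul_le_mul_of_nonneg_left h8 (by positivity)
    _ = 140000 * 6 * N * (N : ℝ) ^ (-a) * (Real.log (2 * N)) ^ 5 := by ring
    _ ≤ 140000 * 6 * N * (N : ℝ) ^ (-a) * (ε / (140000 * 6) * (N : ℝ) ^ a) :=
        mul_le_mul_of_nonneg_left h5.le (by positivity)
    _ = ε * N * ((N : ℝ) ^ (-a) * (N : ℝ) ^ a) := by ring
    _ = ε * N := by rw [← Real.rpow_add hNpos]; simp

/-- almost all `n ≤ 2 N` are small up to the time `log_4 N` -/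
theorem early_count {κ : ℝ} (hκ : 0 < κ) {ε : ℝ} (hε : 0 < ε) : ∃ N0 : ℕ, ∀ N ≥ N0,
    ({n : ℕ | 1 ≤ n ∧ n ≤ 2 * N ∧ ¬ Early N ((N : ℝ) ^ (1 + κ)) n}.ncard : ℝ) ≤ ε * N := by
  have ht : Tendsto (fun N : ℕ => (N : ℝ) ^ κ) atTop atTop :=
    (tendsto_rpow_atTop hκ).comp tendsto_natCast_atTop_atTop
  have ht2 : Tendsto (fun N : ℕ => (N : ℝ) ^ (1 / 5 : ℝ)) atTop atTop :=
    (tendsto_rpow_atTop (by norm_num)).comp tendsto_natCast_atTop_atTop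
  obtain ⟨N0, hN0⟩ := eventually_atTop.1 ((asym hκ hε).and ((ht.eventually_ge_atTop 2).and
    ((ht2.eventually_ge_atTop 2).and (eventually_ge_atTop 2))))
  refine ⟨N0, fun N hN => ?_⟩
  obtain ⟨h1, h2, h3, h4⟩ := hN0 N hN
  have hNr : (1 : ℝ) ≤ N := by exact_mod_cast (by omega : 1 ≤ N)
  have hNpos : (0 : ℝ) < N := by linarith
  have hV : 2 * (N : ℝ) ≤ (N : ℝ) ^ (1 + κ) := by
    rw [Real.rpow_add hNpos, Real.rpow_one, mul_comm]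
    exact mul_le_mul_of_nonneg_left h2 hNpos.le
  have hy1 : (1 : ℝ) ≤ (N : ℝ) ^ (1 / 2 : ℝ) := Real.one_le_rpow hNr (by norm_num)
  refine le_trans ?_ ((Pool.Agent.H828R3.Exc.upper_real (x := 2 * N) (y := (N : ℝ) ^ (1 / 2 : ℝ))
    (V := (N : ℝ) ^ (1 + κ)) (by linarith) hy1 hV).trans h1)
  have hsub : {n : ℕ | 1 ≤ n ∧ n ≤ 2 * N ∧ ¬ Early N ((N : ℝ) ^ (1 + κ)) n} ⊆
      {n : ℕ | 1 ≤ n ∧ (n : ℝ) ≤ 2 * N ∧ ¬ ∃ m, ((Pool.Agent.Helper894.Collatz.T^[m] n : ℕ) : ℝ) ≤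
        (N : ℝ) ^ (1 / 2 : ℝ) ∧ ∀ j ≤ m, ((Pool.Agent.Helper894.Collatz.T^[j] n : ℕ) : ℝ) ≤ (N : ℝ) ^ (1 + κ)} := by
    rintro n ⟨a1, a2, a3⟩
    refine ⟨a1, by exact_mod_cast a2, fun a4 => a3 ?_⟩
    rw [← T_eq] at a4
    refine early_of (y := (N : ℝ) ^ (1 / 2 : ℝ)) ?_ a4
    have e : (N : ℝ) ^ (3 / 10 : ℝ) * (N : ℝ) ^ (1 / 2 : ℝ) * (N : ℝ) ^ (1 / 5 : ℝ) = N := by
      rw [← Real.rpow_add hNpos, ← Real.rpow_add hNpos]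
      norm_num
    have h5 : (N : ℝ) ^ (3 / 10 : ℝ) * ((N : ℝ) ^ (1 / 2 : ℝ) + 1) ≤
        (N : ℝ) ^ (3 / 10 : ℝ) * (N : ℝ) ^ (1 / 2 : ℝ) * (N : ℝ) ^ (1 / 5 : ℝ) := by
      rw [mul_assoc]
      apply mul_le_mul_of_nonneg_left _ (by positivity)
      nlinarith
    linarith
  have hfin : {n : ℕ | 1 ≤ n ∧ (n : ℝ) ≤ 2 * N ∧ ¬ ∃ m, ((Pool.Agent.Helper894.Collatz.T^[m] n : ℕ) : ℝ) ≤
        (N : ℝ) ^ (1 / 2 : ℝ) ∧ ∀ j ≤ m, ((Pool.Agent.Helper894.Collatz.T^[j] n : ℕ) : ℝ) ≤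
        (N : ℝ) ^ (1 + κ)}.Finite := by
    apply (Set.finite_Icc 1 (2 * N)).subset
    rintro n ⟨h1, h2, -⟩
    exact ⟨h1, by exact_mod_cast h2⟩
  exact_mod_cast Set.ncard_le_ncard hsub hfin

/-- the relation -/
def rN (κ : ℝ) (N : ℕ) (x y : ℤ) : Prop := Near ((N : ℝ) ^ (1 + κ)) x.toNat y.toNat

theorem rN_eq (κ : ℝ) (N : ℕ) : Equivalence (rN κ N) :=
  ⟨fun _ => near_refl _ _, fun h => near_symm h, fun h h' => near_trans h h'⟩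

theorem rN_iff (κ : ℝ) (N n j : ℕ) : rN κ N (n : ℤ) ((n : ℤ) + 1 * (j : ℤ)) ↔
    Near ((N : ℝ) ^ (1 + κ)) n (n + j) := by
  unfold rN
  have e : (n : ℤ) + 1 * (j : ℤ) = ((n + j : ℕ) : ℤ) := by push_cast; ring
  rw [e, Int.toNat_natCast, Int.toNat_natCast]

/-- the number of the `1 ≤ j ≤ H` for which `n + j` is not near `n` -/
noncomputable def stray (v : ℝ) (n H : ℕ) : ℕ := {j : ℕ | 1 ≤ j ∧ j ≤ H ∧ ¬ Near v n (n + j)}.ncard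

theorem bz_stray (κ : ℝ) (N n H : ℕ) : bz (rN κ N) 1 n H = stray ((N : ℝ) ^ (1 + κ)) n H := by
  unfold bz stray
  simp only [rN_iff]

theorem near_window {κ : ℝ} (hκ : 0 < κ) (ε : ℝ) (hε : 0 < ε) : ∃ θ : ℝ, 0 < θ ∧ ∃ N0 : ℕ, ∀ N ≥ N0, ∀ j : ℕ,
    (j : ℝ) ≤ (N : ℝ) ^ θ →
      ({n : ℕ | 1 ≤ n ∧ n ≤ N ∧ ¬ rN κ N (n : ℤ) ((n : ℤ) + 1 * (j : ℤ))}.ncard : ℝ) ≤ ε * N := by
  classical
  obtain ⟨θ, hθ, N0, h⟩ := Mg_window (ε := ε / 3) (by positivity)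
  obtain ⟨N1, hN1⟩ := early_count hκ (ε := ε / 3) (by positivity)
  refine ⟨min θ 1, by positivity, max (max N0 N1) 1, fun N hN j hj => ?_⟩
  have hNN0 : N0 ≤ N := ((le_max_left _ _).trans (le_max_left _ _)).trans hN
  have hNN1 : N1 ≤ N := ((le_max_right _ _).trans (le_max_left _ _)).trans hN
  have hN1' : 1 ≤ N := (le_max_right _ _).trans hN
  have hNr : (1 : ℝ) ≤ N := by exact_mod_cast hN1'
  have hj1 : (j : ℝ) ≤ (N : ℝ) ^ θ := hj.trans (Real.rpow_le_rpow_of_exponent_le hNr (min_le_left _ _))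
  have hj2 : j ≤ N := by
    have : (j : ℝ) ≤ (N : ℝ) ^ (1 : ℝ) := hj.trans (Real.rpow_le_rpow_of_exponent_le hNr (min_le_right _ _))
    rw [Real.rpow_one] at this
    exact_mod_cast this
  have h1 := h N hNN0 1 (by norm_num) (j : ℤ) (by
    have e : |((j : ℤ) : ℝ)| = (j : ℝ) := by rw [abs_of_nonneg (by positivity)]; norm_cast
    rw [e]; exact hj1)
  rw [← ncard_filter] at h1
  have h2 := hN1 N hNN1
  set E : Set ℕ := {n : ℕ | 1 ≤ n ∧ n ≤ 2 * N ∧ ¬ Early N ((N : ℝ) ^ (1 + κ)) n} with hE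
  have hEfin : E.Finite := fin_le _ _
  set M : Set ℕ := {n : ℕ | 1 ≤ n ∧ n ≤ N ∧ ¬ Mg 1 N ((n : ℕ) : ℤ) ((n : ℤ) + 1 * (j : ℤ))} with hM
  have hsub : {n : ℕ | 1 ≤ n ∧ n ≤ N ∧ ¬ rN κ N (n : ℤ) ((n : ℤ) + 1 * (j : ℤ))} ⊆
      (M ∪ E) ∪ (fun n => n + j) ⁻¹' E := by
    rintro n ⟨a1, a2, a3⟩
    by_cases c1 : Mg 1 N ((n : ℕ) : ℤ) ((n : ℤ) + 1 * (j : ℤ))
    · by_cases c2 : Early N ((N : ℝ) ^ (1 + κ)) n
      · by_cases c3 : Early N ((N : ℝ) ^ (1 + κ)) (n + j)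
        · exact absurd ((rN_iff κ N n j).2 (near_early c2 c3 c1)) a3
        · right
          have c4 : n + j ∈ E := ⟨by omega, by omega, c3⟩
          exact c4
      · exact Or.inl (Or.inr ⟨a1, by omega, c2⟩)
    · exact Or.inl (Or.inl ⟨a1, a2, c1⟩)
  have hpre : ((fun n => n + j) ⁻¹' E).ncard ≤ E.ncard :=
    Set.ncard_le_ncard_of_injOn (fun n => n + j) (fun n hn => hn) (fun a _ b _ hab => by
      have : a + j = b + j := hab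
      omega) hEfin
  have hprefin : ((fun n => n + j) ⁻¹' E).Finite := hEfin.preimage (fun a _ b _ hab => by
      have : a + j = b + j := hab
      omega)
  have h3 := (Set.ncard_le_ncard hsub (((fin_le _ N).union hEfin).union hprefin)).trans
    ((Set.ncard_union_le _ _).trans (Nat.add_le_add_right (Set.ncard_union_le _ _) _))
  have h4 : ({n : ℕ | 1 ≤ n ∧ n ≤ N ∧ ¬ rN κ N (n : ℤ) ((n : ℤ) + 1 * (j : ℤ))}.ncard : ℝ) ≤
      M.ncard + E.ncard + ((fun n => n + j) ⁻¹' E).ncard := by exact_mod_cast h3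
  have h5 : (((fun n => n + j) ⁻¹' E).ncard : ℝ) ≤ E.ncard := by exact_mod_cast hpre
  linarith

theorem near_max {κ : ℝ} (hκ : 0 < κ) {ε : ℝ} (hε : 0 < ε) : ∃ θ : ℝ, 0 < θ ∧ ∃ N0 : ℕ, ∀ N ≥ N0,
    ({n : ℕ | 1 ≤ n ∧ n ≤ N ∧ ∃ H : ℕ, 1 ≤ H ∧ (H : ℝ) ≤ (N : ℝ) ^ θ ∧
      ε * H < stray ((N : ℝ) ^ (1 + κ)) n H}.ncard : ℝ) ≤ ε * N := by
  have h := max_window_fam (r := rN κ) (rN_eq κ) 1 (near_window hκ) hε
  simp only [bz_stray] at h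
  exact h

end Pool.Agent.V11201.SH.Exc
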