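import Pool.Agent.V11201.SH.P2

/-! Maximum excursions: the rate, and density one. -/

set_option autoImplicit false

namespace Pool.Agent.V11201.SH.Exc

open Finset Filter Topology
open Pool.Agent.H499R2.CO (HD ncard_filter Tn_iter_cast Tz)
open Pool.Agent.V11201.SH

theorem near_pairs : ∃ C : ℝ, 0 < C ∧ ∀ N : ℕ, 16 ≤ N → ∀ j : ℕ, 1 ≤ j →
    ({n : ℕ | 1 ≤ n ∧ n ≤ N ∧ ¬ Near (3 * (N : ℝ) ^ (13 / 10 : ℝ)) n (n + j)}.ncard : ℝ) ≤
      C * √ ((1 + Real.log (1 + j)) * lam N) * N := by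
  classical
  obtain ⟨C, hC, h⟩ := Mg_pairs
  refine ⟨C + 1, by positivity, fun N hN j hj => ?_⟩
  have hNpos : (0 : ℝ) < N := by
    have : 0 < N := by omega
    exact_mod_cast this
  have hjr : (1 : ℝ) ≤ j := by exact_mod_cast hj
  have hlog : 0 ≤ Real.log (1 + (j : ℝ)) := Real.log_nonneg (by linarith)
  have hlam := lam_pos hN
  have hs0 : 0 ≤ √ ((1 + Real.log (1 + (j : ℝ))) * lam N) := Real.sqrt_nonneg _
  rcases Nat.lt_or_ge N j with hjN | hjN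
  · have h1 : {n : ℕ | 1 ≤ n ∧ n ≤ N ∧ ¬ Near (3 * (N : ℝ) ^ (13 / 10 : ℝ)) n (n + j)}.ncard ≤ N := by
      have h0 := Set.ncard_le_ncard (s := {n : ℕ | 1 ≤ n ∧ n ≤ N ∧ ¬ Near (3 * (N : ℝ) ^ (13 / 10 : ℝ)) n (n + j)})
        (t := ((Icc 1 N : Finset ℕ) : Set ℕ))
        (by rintro n ⟨a1, a2, _⟩; rw [Finset.coe_Icc]; exact ⟨a1, a2⟩) (Finset.finite_toSet _)
      rw [Set.ncard_coe_finset, Nat.card_Icc] at h0
      omega
    have h2 : (1 : ℝ) ≤ √ ((1 + Real.log (1 + (j : ℝ))) * lam N) := by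
      rw [Real.one_le_sqrt]
      have h16 : (16 : ℝ) ≤ N := by exact_mod_cast hN
      have hl2 := Real.log_two_gt_d9
      have hlN : 4 * Real.log 2 ≤ Real.log N := by
        have : Real.log 16 = 4 * Real.log 2 := by
          rw [show (16 : ℝ) = 2 ^ 4 by norm_num, Real.log_pow]; norm_num
        rw [← this]
        exact Real.log_le_log (by norm_num) h16
      have hlNpos : 0 < Real.log N := by linarith
      have he : Real.exp 1 ≤ Real.log N := by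
        have := Real.exp_one_lt_d9
        linarith
      have hll : 1 ≤ Real.log (Real.log N) := by
        have := Real.log_le_log (Real.exp_pos 1) he
        rwa [Real.log_exp] at this
      have hj2 : Real.log N ≤ Real.log (1 + (j : ℝ)) := Real.log_le_log hNpos (by
        have : (N : ℝ) < j := by exact_mod_cast hjN
        linarith)
      calc (1 : ℝ) ≤ Real.log (Real.log N) := hll
        _ = Real.log N * lam N := by unfold lam; field_simp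
        _ ≤ (1 + Real.log (1 + (j : ℝ))) * lam N := mul_le_mul_of_nonneg_right (by linarith) hlam.le
    have h3 : ({n : ℕ | 1 ≤ n ∧ n ≤ N ∧ ¬ Near (3 * (N : ℝ) ^ (13 / 10 : ℝ)) n (n + j)}.ncard : ℝ) ≤ N := by
      exact_mod_cast h1
    have h4 : 1 * (N : ℝ) ≤ (C + 1) * √ ((1 + Real.log (1 + (j : ℝ))) * lam N) * N := by
      apply mul_le_mul_of_nonneg_right _ hNpos.le
      nlinarith
    linarith
  · have h1 := h N hN 1 (by norm_num) (j : ℤ)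
    rw [← ncard_filter] at h1
    have e : |((j : ℤ) : ℝ)| = (j : ℝ) := by rw [abs_of_nonneg (by positivity)]; norm_cast
    rw [e] at h1
    have h2 : ({n : ℕ | 1 ≤ n ∧ n ≤ N ∧ ¬ Near (3 * (N : ℝ) ^ (13 / 10 : ℝ)) n (n + j)}.ncard : ℝ) ≤
        ({n : ℕ | 1 ≤ n ∧ n ≤ N ∧ ¬ Mg 1 N ((n : ℕ) : ℤ) ((n : ℤ) + 1 * (j : ℤ))}.ncard : ℝ) := by
      exact_mod_cast Set.ncard_le_ncard (by
        rintro n ⟨a1, a2, a3⟩
        exact ⟨a1, a2, fun h5 => a3 (near_det (by omega) (by omega) h5)⟩) (fin_le _ N)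
    refine h2.trans (h1.trans ?_)
    apply mul_le_mul_of_nonneg_right _ hNpos.le
    exact mul_le_mul_of_nonneg_right (by linarith) hs0

theorem near_rate : ∃ A : ℝ, 0 < A ∧ ∀ N : ℕ, 16 ≤ N → ∀ (H : ℕ) (κ : ℝ), 0 < κ →
    ({n : ℕ | 1 ≤ n ∧ n ≤ N ∧ κ * H < stray (3 * (N : ℝ) ^ (13 / 10 : ℝ)) n H}.ncard : ℝ) ≤
      A / κ * √ ((1 + Real.log (1 + H)) * lam N) * N := by
  obtain ⟨C, hC, h⟩ := near_pairs
  refine ⟨C, hC, fun N hN H κ hκ => ?_⟩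
  have hlam := lam_pos hN
  refine one_scale (R := fun n j => ¬ Near (3 * (N : ℝ) ^ (13 / 10 : ℝ)) n (n + j)) (by positivity) hκ
    (fun j hj1 hjH => (h N hN j hj1).trans ?_)
  have h2 : √ ((1 + Real.log (1 + (j : ℝ))) * lam N) ≤ √ ((1 + Real.log (1 + (H : ℝ))) * lam N) := by
    apply Real.sqrt_le_sqrt
    apply mul_le_mul_of_nonneg_right _ hlam.le
    have : Real.log (1 + (j : ℝ)) ≤ Real.log (1 + (H : ℝ)) := Real.log_le_log (by positivity) (by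
      have : (j : ℝ) ≤ H := by exact_mod_cast hjH
      linarith)
    linarith
  have e : C / κ * √ ((1 + Real.log (1 + (H : ℝ))) * lam N) * κ * N =
      C * √ ((1 + Real.log (1 + (H : ℝ))) * lam N) * N := by
    field_simp
  rw [e]
  apply mul_le_mul_of_nonneg_right _ (Nat.cast_nonneg _)
  exact mul_le_mul_of_nonneg_left h2 hC.le

theorem stray_mono {v w : ℝ} (h : v ≤ w) (n H : ℕ) : stray w n H ≤ stray v n H := by
  unfold stray
  exact Set.ncard_le_ncard (by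
    rintro j ⟨a1, a2, a3⟩
    exact ⟨a1, a2, fun h5 => a3 (near_mono h h5)⟩) (fin_le _ H)

theorem near_dens {κ : ℝ} (hκ : 0 < κ) {g : ℕ → ℕ} (hg : Sub g) {ε : ℝ} (hε : 0 < ε) :
    HD (fun n => ∀ H : ℕ, 1 ≤ H → H ≤ g n → (stray ((n : ℝ) ^ (1 + κ)) n H : ℝ) ≤ ε * H) 1 := by
  apply HD_one_of
  intro δ hδ
  obtain ⟨θ, hθ, N0, h1⟩ := near_max (κ := κ / 2) (by positivity) (ε := min ε (δ / 2)) (by positivity)
  obtain ⟨n1, hn1⟩ := eventually_atTop.1 (hg.eventually (gt_mem_nhds hθ))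
  have ht : Tendsto (fun N : ℕ => (N : ℝ) ^ (κ / 2)) atTop atTop :=
    (tendsto_rpow_atTop (by positivity)).comp tendsto_natCast_atTop_atTop
  obtain ⟨n3, hn3⟩ := eventually_atTop.1 (ht.eventually_ge_atTop ((2 / δ) ^ (1 + κ / 2)))
  set n2 : ℕ := max (max n1 n3) 2 with hn2
  have hn21 : n1 ≤ n2 := (le_max_left _ _).trans (le_max_left _ _)
  have hn23 : n3 ≤ n2 := (le_max_right _ _).trans (le_max_left _ _)
  have hn22 : 2 ≤ n2 := le_max_right _ _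
  refine ⟨N0 + n2 + 1, fun N => ?_⟩
  rcases Nat.lt_or_ge N N0 with hlt | hge
  · have h2 : {n : ℕ | 1 ≤ n ∧ n ≤ N ∧ ¬ ∀ H : ℕ, 1 ≤ H → H ≤ g n →
        (stray ((n : ℝ) ^ (1 + κ)) n H : ℝ) ≤ ε * H}.ncard ≤ N := by
      have h0 := Set.ncard_le_ncard (s := {n : ℕ | 1 ≤ n ∧ n ≤ N ∧
        ¬ ∀ H : ℕ, 1 ≤ H → H ≤ g n → (stray ((n : ℝ) ^ (1 + κ)) n H : ℝ) ≤ ε * H})
        (t := ((Icc 1 N : Finset ℕ) : Set ℕ))
        (by rintro n ⟨a1, a2, _⟩; rw [Finset.coe_Icc]; exact ⟨a1, a2⟩) (Finset.finite_toSet _)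
      rw [Set.ncard_coe_finset, Nat.card_Icc] at h0
      omega
    have h3 : ({n : ℕ | 1 ≤ n ∧ n ≤ N ∧ ¬ ∀ H : ℕ, 1 ≤ H → H ≤ g n →
        (stray ((n : ℝ) ^ (1 + κ)) n H : ℝ) ≤ ε * H}.ncard : ℝ) ≤ N0 := by
      exact_mod_cast h2.trans hlt.le
    have : (0 : ℝ) ≤ δ * N := by positivity
    have : (0 : ℝ) ≤ n2 := by positivity
    linarith
  have h2 := h1 N hge
  have hsub : {n : ℕ | 1 ≤ n ∧ n ≤ N ∧ ¬ ∀ H : ℕ, 1 ≤ H → H ≤ g n →
      (stray ((n : ℝ) ^ (1 + κ)) n H : ℝ) ≤ ε * H} ⊆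
      {n : ℕ | 1 ≤ n ∧ n ≤ N ∧ ∃ H : ℕ, 1 ≤ H ∧ (H : ℝ) ≤ (N : ℝ) ^ θ ∧
        min ε (δ / 2) * H < stray ((N : ℝ) ^ (1 + κ / 2)) n H} ∪
      ((Finset.range (n2 + (⌊δ / 2 * N⌋₊ + 1)) : Finset ℕ) : Set ℕ) := by
    rintro n ⟨a1, a2, a3⟩
    by_cases h4 : n < n2 + (⌊δ / 2 * N⌋₊ + 1)
    · right; simpa using h4
    left
    push Not at a3
    obtain ⟨H, b1, b2, b3⟩ := a3
    have hnbig : δ / 2 * N < n := by
      have h5 := Nat.lt_floor_add_one (δ / 2 * (N : ℝ))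
      have h6 : (⌊δ / 2 * (N : ℝ)⌋₊ : ℝ) + 1 ≤ n := by
        have : ⌊δ / 2 * (N : ℝ)⌋₊ + 1 ≤ n := by omega
        exact_mod_cast this
      linarith
    have hnpos : (0 : ℝ) < n := by
      have : 0 < n := by omega
      exact_mod_cast this
    refine ⟨a1, a2, H, b1, ?_, ?_⟩
    · have h5 := hn1 n (by omega)
      have hn2' : 2 ≤ n := by omega
      have hlog : 0 < Real.log n := Real.log_pos (by exact_mod_cast hn2')
      rw [div_lt_iff₀ hlog] at h5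
      have h6 : Real.log (1 + (g n : ℝ)) ≤ Real.log ((n : ℝ) ^ θ) := by
        rw [Real.log_rpow hnpos]; exact h5.le
      have h7 : 1 + (g n : ℝ) ≤ (n : ℝ) ^ θ := (Real.log_le_log_iff (by positivity) (by positivity)).1 h6
      have h8 : (n : ℝ) ^ θ ≤ (N : ℝ) ^ θ := Real.rpow_le_rpow hnpos.le (by exact_mod_cast a2) hθ.le
      have h9 : (H : ℝ) ≤ g n := by exact_mod_cast b2
      linarith
    · have hv : (N : ℝ) ^ (1 + κ / 2) ≤ (n : ℝ) ^ (1 + κ) := by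
        have h5 : (N : ℝ) ≤ 2 / δ * n := by
          rw [div_mul_eq_mul_div, le_div_iff₀ hδ]
          nlinarith
        calc (N : ℝ) ^ (1 + κ / 2) ≤ (2 / δ * n) ^ (1 + κ / 2) :=
              Real.rpow_le_rpow (by positivity) h5 (by positivity)
          _ = (2 / δ) ^ (1 + κ / 2) * (n : ℝ) ^ (1 + κ / 2) := Real.mul_rpow (by positivity) hnpos.le
          _ ≤ (n : ℝ) ^ (κ / 2) * (n : ℝ) ^ (1 + κ / 2) :=
              mul_le_mul_of_nonneg_right (hn3 n (by omega)) (by positivity)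
          _ = (n : ℝ) ^ (1 + κ) := by
              rw [← Real.rpow_add hnpos]; congr 1; ring
      have h5 : (stray ((n : ℝ) ^ (1 + κ)) n H : ℝ) ≤ stray ((N : ℝ) ^ (1 + κ / 2)) n H := by
        exact_mod_cast stray_mono hv n H
      have : min ε (δ / 2) * (H : ℝ) ≤ ε * H := mul_le_mul_of_nonneg_right (min_le_left _ _) (by positivity)
      linarith
  have h3 := (Set.ncard_le_ncard hsub ((fin_le _ N).union (Finset.finite_toSet _))).trans
    (Set.ncard_union_le _ _)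
  rw [Set.ncard_coe_finset, card_range] at h3
  have h4 : ({n : ℕ | 1 ≤ n ∧ n ≤ N ∧ ¬ ∀ H : ℕ, 1 ≤ H → H ≤ g n →
      (stray ((n : ℝ) ^ (1 + κ)) n H : ℝ) ≤ ε * H}.ncard : ℝ) ≤
      ({n : ℕ | 1 ≤ n ∧ n ≤ N ∧ ∃ H : ℕ, 1 ≤ H ∧ (H : ℝ) ≤ (N : ℝ) ^ θ ∧
        min ε (δ / 2) * H < stray ((N : ℝ) ^ (1 + κ / 2)) n H}.ncard : ℝ) +
        (n2 + (⌊δ / 2 * (N : ℝ)⌋₊ + 1)) := by exact_mod_cast h3
  have h5 : min ε (δ / 2) * (N : ℝ) ≤ δ / 2 * N := mul_le_mul_of_nonneg_right (min_le_right _ _) (by positivity)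
  have h6 : (0 : ℝ) ≤ N0 := by positivity
  have h7 : (⌊δ / 2 * (N : ℝ)⌋₊ : ℝ) ≤ δ / 2 * N := Nat.floor_le (by positivity)
  linarith

end Pool.Agent.V11201.SH.Exc
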