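import Pool.Agent.V11201.SH.P3
import Pool.Agent.V11201.SH.G2

/-! Maximum excursions: exceptions to `t(n) ≤ C n ^ 2`, spread sets. -/

set_option autoImplicit false

namespace Pool.Agent.V11201.SH.Exc

open Finset Filter Topology
open Pool.Agent.H499R2.CO (HD ncard_filter Tn_iter_cast Tz)
open Pool.Agent.V11201.SH

/-- `t(n) > C n ^ 2` -/
def Exceptional (C : ℝ) (n : ℕ) : Prop := ∃ k : ℕ, C * (n : ℝ) ^ 2 < ((T^[k] n : ℕ) : ℝ)

/-- the number of the `1 ≤ j ≤ H` with `t(n + j) = t(n)` -/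
noncomputable def same (n H : ℕ) : ℕ := {j : ℕ | 1 ≤ j ∧ j ≤ H ∧ t (n + j) = t n}.ncard

/-- the number of the exceptions among `n + 1, ..., n + H` -/
noncomputable def exceptions (C : ℝ) (n H : ℕ) : ℕ := {j : ℕ | 1 ≤ j ∧ j ≤ H ∧ Exceptional C (n + j)}.ncard

theorem not_exc {C : ℝ} {n : ℕ} : ¬ Exceptional C n ↔ AtMost (C * (n : ℝ) ^ 2) n := by
  unfold Exceptional AtMost
  push Not
  rfl

theorem count_one {n H : ℕ} {v C : ℝ} (hv : v ≤ C * (n : ℝ) ^ 2) (h : Exceptional C n) :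
    H ≤ same n H + stray v n H := by
  have hsub : ((Finset.Icc 1 H : Finset ℕ) : Set ℕ) ⊆
      {j : ℕ | 1 ≤ j ∧ j ≤ H ∧ t (n + j) = t n} ∪ {j : ℕ | 1 ≤ j ∧ j ≤ H ∧ ¬ Near v n (n + j)} := by
    intro j hj
    rw [Finset.coe_Icc] at hj
    by_cases h1 : Near v n (n + j)
    · left
      rcases h1 with h1 | ⟨h1, _⟩
      · exact ⟨hj.1, hj.2, h1⟩
      · exact absurd (show AtMost (C * (n : ℝ) ^ 2) n from fun k => (h1 k).trans hv) (not_exc.not.1 (by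
          rw [not_not]; exact h))
    · exact Or.inr ⟨hj.1, hj.2, h1⟩
  have h1 := (Set.ncard_le_ncard hsub ((fin_le _ H).union (fin_le _ H))).trans (Set.ncard_union_le _ _)
  rw [Set.ncard_coe_finset, Nat.card_Icc, Nat.add_sub_cancel] at h1
  exact h1

theorem count_two {n H : ℕ} {v C : ℝ} (hC : 0 ≤ C) (hv : v ≤ C * (n : ℝ) ^ 2) (h : ¬ Exceptional C n) :
    exceptions C n H ≤ stray v n H := by
  unfold exceptions stray
  refine Set.ncard_le_ncard ?_ (fin_le _ H)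
  rintro j ⟨h1, h2, h3⟩
  refine ⟨h1, h2, fun h4 => ?_⟩
  have hle : C * (n : ℝ) ^ 2 ≤ C * ((n + j : ℕ) : ℝ) ^ 2 := by
    apply mul_le_mul_of_nonneg_left _ hC
    apply pow_le_pow_left₀ (Nat.cast_nonneg _)
    exact_mod_cast Nat.le_add_right n j
  have h5 : AtMost (C * (n : ℝ) ^ 2) (n + j) := by
    rcases h4 with h4 | ⟨_, h4⟩
    · exact (atMost_congr h4).2 (not_exc.1 h)
    · exact fun k => (h4 k).trans hv
  obtain ⟨k, hk⟩ := h3
  exact absurd ((h5 k).trans hle) (not_le.2 hk)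

theorem exc_steady {C : ℝ} (hC : 0 < C) {g : ℕ → ℕ} (hg : Sub g) {ε : ℝ} (hε : 0 < ε) :
    HD (fun n => ∀ H : ℕ, 1 ≤ H → H ≤ g n → (Exceptional C n → (1 - ε) * H ≤ same n H) ∧
      (¬ Exceptional C n → (exceptions C n H : ℝ) ≤ ε * H)) 1 := by
  have ht : Tendsto (fun N : ℕ => (N : ℝ) ^ (1 / 2 : ℝ)) atTop atTop :=
    (tendsto_rpow_atTop (by norm_num)).comp tendsto_natCast_atTop_atTop
  obtain ⟨n0, hn0⟩ := eventually_atTop.1 (ht.eventually_ge_atTop (1 / C))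
  refine Pool.Agent.H499R2.CO.HD_congr (Pool.Agent.H499R2.HL.HD_and
    (near_dens (κ := 1 / 2) (by norm_num) hg hε) (Pool.Agent.H499R2.HL.HD_large (max n0 1)))
    (Pool.Agent.H499R2.HL.HD_large 0) (fun n hn1 hn => ⟨fun _ H hH1 hH2 => ?_, fun _ => Nat.zero_le n⟩)
  have hnn0 : n0 ≤ n := (le_max_left _ _).trans hn.2
  have hnpos : (0 : ℝ) < n := by
    have : 0 < n := hn1
    exact_mod_cast this
  have h1 := hn.1 H hH1 hH2
  have hv : (n : ℝ) ^ (1 + 1 / 2 : ℝ) ≤ C * (n : ℝ) ^ 2 := by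
    have e : (n : ℝ) ^ 2 = (n : ℝ) ^ (1 + 1 / 2 : ℝ) * (n : ℝ) ^ (1 / 2 : ℝ) := by
      rw [← Real.rpow_add hnpos, ← Real.rpow_natCast]
      norm_num
    have h2 := hn0 n hnn0
    rw [div_le_iff₀ hC] at h2
    have h3 : (0 : ℝ) ≤ (n : ℝ) ^ (1 + 1 / 2 : ℝ) := by positivity
    rw [e]
    nlinarith
  refine ⟨fun h => ?_, fun h => ?_⟩
  · have h2 : (H : ℝ) ≤ same n H + stray ((n : ℝ) ^ (1 + 1 / 2 : ℝ)) n H := by
      exact_mod_cast count_one hv h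
    linarith
  · have h2 : (exceptions C n H : ℝ) ≤ stray ((n : ℝ) ^ (1 + 1 / 2 : ℝ)) n H := by
      exact_mod_cast count_two hC.le hv h
    linarith

theorem T_even {m : ℕ} (h : m % 2 = 0) : T m = m / 2 := by
  unfold T
  rw [if_pos h]

theorem T_odd {m : ℕ} (h : m % 2 = 1) : T m = (3 * m + 1) / 2 := by
  unfold T
  rw [if_neg (by omega)]

/-- spread sets -/
def Spread (S : Set ℕ) : Prop :=
  ∀ ε : ℝ, 0 < ε → ∃ c : ℝ, 0 < c ∧ ∀ θ : ℝ, 0 < θ → ∃ᶠ N : ℕ in atTop,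
    ({n : ℕ | 1 ≤ n ∧ n ≤ N ∧ (({j : ℕ | 1 ≤ j ∧ j ≤ ⌊(N : ℝ) ^ θ⌋₊ ∧ n + j ∈ S}.ncard : ℕ) : ℝ) <
      c * ⌊(N : ℝ) ^ θ⌋₊}.ncard : ℝ) ≤ ε * N

theorem spread_bounded {S : Set ℕ} (hS : Spread S) (h : ∀ m ∈ S, ∃ B : ℝ, AtMost B m) (n : ℕ) : t n ≠ ⊤ := by
  intro htop
  have hunb : ∀ B : ℕ, ∃ k, B < T^[k] n := by
    intro B
    by_contra hcon
    push Not at hcon
    have h1 : t n ≤ (B : ℕ∞) := iSup_le fun k => by exact_mod_cast hcon k
    rw [htop] at h1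
    exact absurd h1 (by simp)
  -- an odd term
  obtain ⟨k, hk⟩ : ∃ k, T^[k] n % 2 = 1 := by
    by_contra hcon
    push Not at hcon
    have h1 : ∀ k, T^[k] n ≤ n := by
      intro k
      induction k with
      | zero => exact le_rfl
      | succ k ih =>
        rw [Function.iterate_succ_apply']
        have h2 := hcon k
        have h3 : T (T^[k] n) = T^[k] n / 2 := T_even (by omega)
        rw [h3]
        omega
    obtain ⟨k, hk⟩ := hunb n
    have := h1 k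
    omega
  set a : ℕ := T^[k + 1] n with ha
  have ha2 : 2 * a = 3 * T^[k] n + 1 := by
    rw [ha, Function.iterate_succ_apply']
    have h3 : T (T^[k] n) = (3 * T^[k] n + 1) / 2 := T_odd hk
    rw [h3]
    omega
  have ha3 : ¬ (3 : ℤ) ∣ (a : ℤ) := by omega
  have hS' : SpreadD 1 1 {x : ℤ | ∃ m ∈ S, x = (m : ℤ)} := by
    intro ε hε
    obtain ⟨c, hc, h1⟩ := hS ε hε
    refine ⟨c, hc, fun θ hθ => ?_⟩
    refine (h1 θ hθ).mono fun N hN => ?_
    have e : ∀ n j : ℕ, ((1 : ℤ) * (n : ℤ) + 1 * (j : ℤ) ∈ {x : ℤ | ∃ m ∈ S, x = (m : ℤ)}) ↔ n + j ∈ S := by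
      intro n j
      constructor
      · rintro ⟨m, hm, hx⟩
        have : n + j = m := by omega
        rw [this]; exact hm
      · intro hx
        exact ⟨n + j, hx, by push_cast; ring⟩
    simp only [e]
    exact hN
  obtain ⟨x, ⟨m, hm, rfl⟩, i, hi⟩ := spread_hit (d := 1) (a := (a : ℤ)) (s := 1) (by norm_num) (by norm_num)
    ha3 (Or.inl rfl) (by omega) hS'
  rw [Tn_iter_cast, ← T_Tn] at hi
  have hi' : T^[i] m = a := by exact_mod_cast hi
  obtain ⟨B, hB⟩ := h m hm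
  have h5 : ∀ l, T^[l] n ≤ ⌊B⌋₊ + ∑ l' ∈ Finset.range (k + 1), T^[l'] n := by
    intro l
    rcases Nat.lt_or_ge l (k + 1) with h6 | h6
    · have := Finset.single_le_sum (f := fun l' => T^[l'] n) (fun _ _ => Nat.zero_le _) (Finset.mem_range.2 h6)
      omega
    · obtain ⟨r, rfl⟩ := Nat.exists_eq_add_of_le h6
      have h7 : T^[k + 1 + r] n = T^[r + i] m := by
        rw [Nat.add_comm (k + 1) r, Function.iterate_add_apply T r (k + 1) n, Function.iterate_add_apply T r i m,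
          hi']
      rw [h7]
      have h8 : T^[r + i] m ≤ ⌊B⌋₊ := Nat.le_floor (hB (r + i))
      omega
  obtain ⟨l, hl⟩ := hunb (⌊B⌋₊ + ∑ l' ∈ Finset.range (k + 1), T^[l'] n)
  have := h5 l
  omega

theorem spread_exc {S : Set ℕ} (hS : Spread S) {C C' : ℝ} (hC : 0 ≤ C) (hCC : C < C')
    (h : ∀ m ∈ S, ¬ Exceptional C m) {ε : ℝ} (hε : 0 < ε) :
    ∃ᶠ N : ℕ in atTop, ({n : ℕ | 1 ≤ n ∧ n ≤ N ∧ Exceptional C' n}.ncard : ℝ) ≤ ε * N := by
  have hC' : 0 < C' := by linarith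
  obtain ⟨c, hc, h1⟩ := hS (ε / 4) (by positivity)
  obtain ⟨θ, hθ, N0, h2⟩ := near_max (κ := 1 / 2) (by norm_num) (ε := min (ε / 4) (c / 2)) (by positivity)
  set θ' : ℝ := min θ (1 / 2) with hθ'
  have hθ'pos : 0 < θ' := by positivity
  have ht : Tendsto (fun N : ℕ => (N : ℝ) ^ (1 / 2 : ℝ)) atTop atTop :=
    (tendsto_rpow_atTop (by norm_num)).comp tendsto_natCast_atTop_atTop
  set δ : ℝ := min 1 ((C' - C) / (3 * C')) with hδ
  have hδpos : 0 < δ := by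
    have : 0 < C' - C := by linarith
    positivity
  set η : ℝ := ε / 4 with hη
  have hηpos : 0 < η := by positivity
  have hev := (ht.eventually_ge_atTop (1 / (δ * η))).and ((ht.eventually_ge_atTop (1 / (C' * η ^ 2))).and
    ((tendsto_natCast_atTop_atTop (R := ℝ)).eventually_ge_atTop (4 / ε)))
  refine ((h1 θ' hθ'pos).and_eventually (hev.and (eventually_ge_atTop (max N0 1)))).mono fun N hN => ?_
  obtain ⟨h3, ⟨h4, h5, h6⟩, h7⟩ := hN
  have hNN0 : N0 ≤ N := (le_max_left _ _).trans h7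
  have hN1 : 1 ≤ N := (le_max_right _ _).trans h7
  have hNr : (1 : ℝ) ≤ N := by exact_mod_cast hN1
  have hNpos : (0 : ℝ) < N := by linarith
  have h8 := h2 N hNN0
  set H := ⌊(N : ℝ) ^ θ'⌋₊ with hH
  have hH1 : 1 ≤ H := by
    rw [hH, Nat.one_le_floor_iff]
    exact Real.one_le_rpow hNr hθ'pos.le
  have hHr : (0 : ℝ) < H := by exact_mod_cast hH1
  have hHθ' : (H : ℝ) ≤ (N : ℝ) ^ θ' := Nat.floor_le (by positivity)
  have hHθ : (H : ℝ) ≤ (N : ℝ) ^ θ := hHθ'.trans (Real.rpow_le_rpow_of_exponent_le hNr (min_le_left _ _))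
  have hHh : (H : ℝ) ≤ (N : ℝ) ^ (1 / 2 : ℝ) :=
    hHθ'.trans (Real.rpow_le_rpow_of_exponent_le hNr (min_le_right _ _))
  set X : ℝ := (N : ℝ) ^ (1 / 2 : ℝ) with hX
  have hXX : X * X = N := by
    rw [hX, ← Real.rpow_add hNpos]; norm_num
  have hXpos : 0 < X := by positivity
  have hsub : {n : ℕ | 1 ≤ n ∧ n ≤ N ∧ Exceptional C' n} ⊆
      ({n : ℕ | 1 ≤ n ∧ n ≤ N ∧ (({j : ℕ | 1 ≤ j ∧ j ≤ H ∧ n + j ∈ S}.ncard : ℕ) : ℝ) < c * H} ∪
      {n : ℕ | 1 ≤ n ∧ n ≤ N ∧ ∃ H : ℕ, 1 ≤ H ∧ (H : ℝ) ≤ (N : ℝ) ^ θ ∧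
        min η (c / 2) * H < stray ((N : ℝ) ^ (1 + 1 / 2 : ℝ)) n H}) ∪
      ((Finset.range (⌊η * N⌋₊ + 1) : Finset ℕ) : Set ℕ) := by
    rintro n ⟨a1, a2, a3⟩
    by_contra hcon
    simp only [Set.mem_union, Set.mem_ofPred_eq, not_or, Finset.coe_range, Set.mem_Iio, not_lt] at hcon
    obtain ⟨⟨b1, b2⟩, b3⟩ := hcon
    have hnbig : η * N < n := by
      have h5 := Nat.lt_floor_add_one (η * (N : ℝ))
      have h6 : (⌊η * (N : ℝ)⌋₊ : ℝ) + 1 ≤ n := by exact_mod_cast b3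
      linarith
    have hnpos : (0 : ℝ) < n := by
      have : 0 < n := a1
      exact_mod_cast this
    have b1' : c * H ≤ (({j : ℕ | 1 ≤ j ∧ j ≤ H ∧ n + j ∈ S}.ncard : ℕ) : ℝ) := by
      by_contra hh
      exact b1 ⟨a1, a2, not_le.1 hh⟩
    have b2' : (stray ((N : ℝ) ^ (1 + 1 / 2 : ℝ)) n H : ℝ) ≤ c / 2 * H := by
      by_contra hh
      push Not at hh
      apply b2
      refine ⟨a1, a2, H, hH1, hHθ, ?_⟩
      have : min η (c / 2) * (H : ℝ) ≤ c / 2 * H := mul_le_mul_of_nonneg_right (min_le_right _ _) hHr.le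
      linarith
    have hex : ∃ j, 1 ≤ j ∧ j ≤ H ∧ n + j ∈ S ∧ Near ((N : ℝ) ^ (1 + 1 / 2 : ℝ)) n (n + j) := by
      by_contra hh
      push Not at hh
      have h9 : {j : ℕ | 1 ≤ j ∧ j ≤ H ∧ n + j ∈ S}.ncard ≤ stray ((N : ℝ) ^ (1 + 1 / 2 : ℝ)) n H :=
        Set.ncard_le_ncard (by
          rintro j ⟨c1, c2, c3⟩
          exact ⟨c1, c2, hh j c1 c2 c3⟩) (fin_le _ H)
      have h10 : (({j : ℕ | 1 ≤ j ∧ j ≤ H ∧ n + j ∈ S}.ncard : ℕ) : ℝ) ≤
          stray ((N : ℝ) ^ (1 + 1 / 2 : ℝ)) n H := by exact_mod_cast h9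
      have h11 : c * (H : ℝ) ≤ c / 2 * H := b1'.trans (h10.trans b2')
      have h12 : 0 < c * (H : ℝ) := by positivity
      have h13 : c / 2 * (H : ℝ) = c * H / 2 := by ring
      linarith
    obtain ⟨j, c1, c2, c3, c4⟩ := hex
    have hjr : (j : ℝ) ≤ X := by
      have : (j : ℝ) ≤ H := by exact_mod_cast c2
      linarith
    -- `j ≤ δ n`
    have hjn : (j : ℝ) ≤ δ * n := by
      rw [div_le_iff₀ (by positivity)] at h4
      have : X ≤ δ * (η * N) := by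
        calc X = X * 1 := by ring
          _ ≤ X * (X * (δ * η)) := mul_le_mul_of_nonneg_left h4 hXpos.le
          _ = δ * (η * (X * X)) := by ring
          _ = δ * (η * N) := by rw [hXX]
      have h9 : δ * (η * N) ≤ δ * n := mul_le_mul_of_nonneg_left hnbig.le hδpos.le
      linarith
    have hbd : AtMost (C' * (n : ℝ) ^ 2) n := by
      rcases c4 with c4 | ⟨c4, _⟩
      · have h9 : AtMost (C * ((n + j : ℕ) : ℝ) ^ 2) n := (atMost_congr c4).1 (not_exc.1 (h _ c3))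
        refine fun k => (h9 k).trans ?_
        have h10 : ((n + j : ℕ) : ℝ) ≤ (1 + δ) * n := by push_cast; linarith
        have h11 : ((n + j : ℕ) : ℝ) ^ 2 ≤ ((1 + δ) * n) ^ 2 := pow_le_pow_left₀ (Nat.cast_nonneg _) h10 2
        have h12 : C * (1 + δ) ^ 2 ≤ C' := by
          have d1 : δ ≤ 1 := min_le_left _ _
          have d2 : δ ≤ (C' - C) / (3 * C') := min_le_right _ _
          rw [le_div_iff₀ (by positivity)] at d2
          have d3 : (1 + δ) ^ 2 ≤ 1 + 3 * δ := by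
            have d5 : δ * δ ≤ δ * 1 := mul_le_mul_of_nonneg_left d1 hδpos.le
            have d6 : (1 + δ) ^ 2 = 1 + 2 * δ + δ * δ := by ring
            linarith
          have d4 : C * (1 + δ) ^ 2 ≤ C * (1 + 3 * δ) := mul_le_mul_of_nonneg_left d3 hC
          have d7 : C * δ ≤ C' * δ := mul_le_mul_of_nonneg_right hCC.le hδpos.le
          have d8 : C * (1 + 3 * δ) = C + 3 * (C * δ) := by ring
          have d9 : δ * (3 * C') = 3 * (C' * δ) := by ring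
          linarith
        calc C * ((n + j : ℕ) : ℝ) ^ 2 ≤ C * ((1 + δ) * n) ^ 2 := mul_le_mul_of_nonneg_left h11 hC
          _ = C * (1 + δ) ^ 2 * (n : ℝ) ^ 2 := by ring
          _ ≤ C' * (n : ℝ) ^ 2 := mul_le_mul_of_nonneg_right h12 (by positivity)
      · refine fun k => (c4 k).trans ?_
        have e : (N : ℝ) ^ (1 + 1 / 2 : ℝ) = N * X := by
          rw [Real.rpow_add hNpos, Real.rpow_one]
        rw [e]
        rw [div_le_iff₀ (by positivity)] at h5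
        have h9 : (η * N) ^ 2 ≤ (n : ℝ) ^ 2 := pow_le_pow_left₀ (by positivity) hnbig.le 2
        calc N * X = N * X * 1 := by ring
          _ ≤ N * X * (X * (C' * η ^ 2)) := mul_le_mul_of_nonneg_left h5 (by positivity)
          _ = N * (X * X) * (C' * η ^ 2) := by ring
          _ = C' * (η * N) ^ 2 := by rw [hXX]; ring
          _ ≤ C' * (n : ℝ) ^ 2 := mul_le_mul_of_nonneg_left h9 hC'.le
    exact absurd a3 (not_exc.2 hbd)
  have h9 := (Set.ncard_le_ncard hsub (((fin_le _ N).union (fin_le _ N)).union (Finset.finite_toSet _))).trans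
    ((Set.ncard_union_le _ _).trans (Nat.add_le_add_right (Set.ncard_union_le _ _) _))
  rw [Set.ncard_coe_finset, card_range] at h9
  have h10 : ({n : ℕ | 1 ≤ n ∧ n ≤ N ∧ Exceptional C' n}.ncard : ℝ) ≤
      ({n : ℕ | 1 ≤ n ∧ n ≤ N ∧ (({j : ℕ | 1 ≤ j ∧ j ≤ H ∧ n + j ∈ S}.ncard : ℕ) : ℝ) < c * H}.ncard : ℝ) +
      ({n : ℕ | 1 ≤ n ∧ n ≤ N ∧ ∃ H : ℕ, 1 ≤ H ∧ (H : ℝ) ≤ (N : ℝ) ^ θ ∧
        min η (c / 2) * H < stray ((N : ℝ) ^ (1 + 1 / 2 : ℝ)) n H}.ncard : ℝ) +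
      (⌊η * (N : ℝ)⌋₊ + 1) := by exact_mod_cast h9
  have h11 : min η (c / 2) * (N : ℝ) ≤ η * N := mul_le_mul_of_nonneg_right (min_le_left _ _) hNpos.le
  have h12 : (⌊η * (N : ℝ)⌋₊ : ℝ) ≤ η * N := Nat.floor_le (by positivity)
  have h13 : 1 ≤ η * N := by
    rw [div_le_iff₀ hε] at h6
    rw [hη]
    linarith
  have h14 : ε * (N : ℝ) = 4 * (η * N) := by rw [hη]; ring
  linarith

end Pool.Agent.V11201.SH.Exc
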