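import Pool.Agent.Results.MP_e43fce_nt.ShortIntervals

/-! Equal total stopping times of consecutive integers. -/

set_option autoImplicit false

namespace Pool.Agent.V11201.SH.Z

open Finset Filter Topology
open Pool.Agent.H499R2.CO (HD ncard_filter HD_congr)
open Pool.Agent.V11201.SH
open Pool.Agent.Results.MP_e43fce_nt.ShortIntervals (l l_top_iff rate)

theorem reach_dens : ∃ δ : ℝ, 0 < δ ∧ δ ≤ 1 ∧ (δ = 1 ↔ ∀ n : ℕ, 1 ≤ n → l n ≠ ⊤) ∧ HD (fun n => l n ≠ ⊤) δ := by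
  obtain ⟨δ, hδ0, hδ1, hiff, hB, _⟩ := Pool.Agent.H499R2.LT.law_oneC
  refine ⟨δ, hδ0, hδ1, ?_, ?_⟩
  · rw [hiff]
    exact forall₂_congr fun n _ => (l_top_iff n).symm
  · have e : (fun n => l n ≠ ⊤) = fun n => ∃ k, Pool.Agent.H499R2.CO.Cn^[k] n = 1 := by
      funext n
      exact propext (l_top_iff n)
    rw [e]
    exact hB

/-- blocks of consecutive integers with different total stopping times -/
theorem block_rate : ∃ A : ℝ, 0 < A ∧ ∀ N : ℕ, 16 ≤ N → ∀ h : ℕ,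
    ({n : ℕ | 1 ≤ n ∧ n ≤ N ∧ ¬ ∀ j ≤ h, l (n + j) = l n}.ncard : ℝ) ≤
      A * h * √ ((1 + Real.log (1 + h)) * lam N) * N := by
  classical
  obtain ⟨A, hA, hR⟩ := rate
  refine ⟨A, hA, fun N hN h => ?_⟩
  have hlam := lam_pos hN
  rw [ncard_filter]
  have hsub : ({n ∈ Icc 1 N | ¬ ∀ j ≤ h, l (n + j) = l n} : Finset ℕ) ⊆
      (Icc 1 h).biUnion fun j => {n ∈ Icc 1 N | l (n + j) ≠ l n} := by
    intro n hn
    rw [mem_filter] at hn
    obtain ⟨h1, h2⟩ := hn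
    push Not at h2
    obtain ⟨j, h3, h4⟩ := h2
    rw [mem_biUnion]
    refine ⟨j, ?_, ?_⟩
    · rw [mem_Icc]
      refine ⟨?_, h3⟩
      rcases Nat.eq_zero_or_pos j with h5 | h5
      · subst h5
        exact absurd rfl h4
      · exact h5
    · rw [mem_filter]
      exact ⟨h1, h4⟩
  have h1 := (card_le_card hsub).trans card_biUnion_le
  have h2 : (#{n ∈ Icc 1 N | ¬ ∀ j ≤ h, l (n + j) = l n} : ℝ) ≤
      ∑ j ∈ Icc 1 h, (#{n ∈ Icc 1 N | l (n + j) ≠ l n} : ℝ) := by exact_mod_cast h1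
  refine h2.trans ?_
  have h3 : ∀ j ∈ Icc 1 h, (#{n ∈ Icc 1 N | l (n + j) ≠ l n} : ℝ) ≤
      A * √ ((1 + Real.log (1 + h)) * lam N) * N := by
    intro j hj
    rw [mem_Icc] at hj
    have h4 := hR N hN j hj.1
    simp only at h4
    rw [ncard_filter] at h4
    refine h4.trans ?_
    apply mul_le_mul_of_nonneg_right _ (Nat.cast_nonneg _)
    apply mul_le_mul_of_nonneg_left _ hA.le
    apply Real.sqrt_le_sqrt
    apply mul_le_mul_of_nonneg_right _ hlam.le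
    have : Real.log (1 + (j : ℝ)) ≤ Real.log (1 + (h : ℝ)) := Real.log_le_log (by positivity) (by
      have : (j : ℝ) ≤ h := by exact_mod_cast hj.2
      linarith)
    linarith
  refine (sum_le_sum h3).trans (le_of_eq ?_)
  rw [sum_const, Nat.card_Icc, Nat.add_sub_cancel, nsmul_eq_mul]
  ring

theorem block_dens (h : ℕ) : HD (fun n => ∀ j ≤ h, l (n + j) = l n) 1 := by
  obtain ⟨A, hA, hb⟩ := block_rate
  apply HD_one_of
  intro ε hε
  have ht : Tendsto (fun N : ℕ => A * h * √ ((1 + Real.log (1 + h)) * lam N)) atTop (𝓝 0) := by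
    have h1 : Tendsto (fun N : ℕ => (1 + Real.log (1 + (h : ℝ))) * lam N) atTop (𝓝 0) := by
      have := lam_tendsto.const_mul (1 + Real.log (1 + (h : ℝ)))
      rwa [mul_zero] at this
    have h2 := (Real.continuous_sqrt.tendsto 0).comp h1
    rw [Real.sqrt_zero] at h2
    have h3 := h2.const_mul (A * h)
    rw [mul_zero] at h3
    exact h3
  obtain ⟨N1, hN1⟩ := eventually_atTop.1 (ht.eventually (gt_mem_nhds hε))
  refine ⟨(max N1 16 : ℕ), fun N => ?_⟩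
  rcases Nat.lt_or_ge N (max N1 16) with h1 | h1
  · have h0 := Set.ncard_le_ncard (s := {n : ℕ | 1 ≤ n ∧ n ≤ N ∧ ¬ ∀ j ≤ h, l (n + j) = l n})
      (t := ((Icc 1 N : Finset ℕ) : Set ℕ))
      (by rintro n ⟨a1, a2, _⟩; rw [Finset.coe_Icc]; exact ⟨a1, a2⟩) (Finset.finite_toSet _)
    rw [Set.ncard_coe_finset, Nat.card_Icc, Nat.add_sub_cancel] at h0
    have h2 : ({n : ℕ | 1 ≤ n ∧ n ≤ N ∧ ¬ ∀ j ≤ h, l (n + j) = l n}.ncard : ℝ) ≤ (max N1 16 : ℕ) := by
      exact_mod_cast h0.trans h1.le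
    have : 0 ≤ ε * (N : ℝ) := by positivity
    linarith
  · have h2 := hb N ((le_max_right _ _).trans h1) h
    have h3 := hN1 N ((le_max_left _ _).trans h1)
    have h4 : A * h * √ ((1 + Real.log (1 + h)) * lam N) * N ≤ ε * N :=
      mul_le_mul_of_nonneg_right h3.le (Nat.cast_nonneg _)
    have : (0 : ℝ) ≤ ((max N1 16 : ℕ) : ℝ) := Nat.cast_nonneg _
    linarith

end Pool.Agent.V11201.SH.Z
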